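import Mathlib

set_option autoImplicit false

namespace Pool.Agent.Helper32.Lat

open Finset

abbrev Pt := ℤ × ℤ

/-- the board -/
noncomputable def board (N : ℕ) : Finset Pt := Finset.Icc (1 : ℤ) (N : ℤ) ×ˢ Finset.Icc (1 : ℤ) (N : ℤ)

/-- the lattice with data `t = (P, u, v)` -/
def lat (q : ℕ) (t : Pt × Pt × Pt) : Finset Pt :=
  (Finset.range q ×ˢ Finset.range q).image
    (fun ij : ℕ × ℕ => t.1 + (ij.1 : ℤ) • t.2.1 + (ij.2 : ℤ) • t.2.2)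

/-- index set -/
noncomputable def Idx (N q : ℕ) : Finset (Pt × Pt × Pt) :=
  ((board N) ×ˢ ((Finset.Icc (-(N : ℤ)) N ×ˢ Finset.Icc (-(N : ℤ)) N) ×ˢ
    (Finset.Icc (-(N : ℤ)) N ×ˢ Finset.Icc (-(N : ℤ)) N))).filter
      (fun t => t.2.1.1 * t.2.2.2 - t.2.1.2 * t.2.2.1 ≠ 0 ∧ lat q t ⊆ board N)

/-- the neighbourhood of a lattice -/
noncomputable def ext (N q : ℕ) (t : Pt × Pt × Pt) : Finset Pt :=
  (board N).filter (fun z => ∃ d ∈ Finset.Icc (1 : ℤ) (2 * q ^ 2),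
    ∃ x ∈ Finset.Icc (-(6 * (q : ℤ) ^ 3)) (6 * (q : ℤ) ^ 3),
    ∃ y ∈ Finset.Icc (-(6 * (q : ℤ) ^ 3)) (6 * (q : ℤ) ^ 3),
      d • (z - t.1) = x • t.2.1 + y • t.2.2)

/-- a 3 by 3 determinant -/
def det3 (d0 x0 y0 d1 x1 y1 d2 x2 y2 : ℤ) : ℤ :=
  d0 * (x1 * y2 - x2 * y1) - x0 * (d1 * y2 - d2 * y1) + y0 * (d1 * x2 - d2 * x1)

theorem solve3 {d0 x0 y0 d1 x1 y1 d2 x2 y2 p a b : ℤ}
    (hdet : det3 d0 x0 y0 d1 x1 y1 d2 x2 y2 ≠ 0)
    (h0 : d0 * p + x0 * a + y0 * b = 0) (h1 : d1 * p + x1 * a + y1 * b = 0)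
    (h2 : d2 * p + x2 * a + y2 * b = 0) : p = 0 ∧ a = 0 ∧ b = 0 := by
  have e1 : det3 d0 x0 y0 d1 x1 y1 d2 x2 y2 * p = 0 := by
    unfold det3
    linear_combination (x1 * y2 - x2 * y1) * h0 - (x0 * y2 - x2 * y0) * h1 +
      (x0 * y1 - x1 * y0) * h2
  have e2 : det3 d0 x0 y0 d1 x1 y1 d2 x2 y2 * a = 0 := by
    unfold det3
    linear_combination -(d1 * y2 - d2 * y1) * h0 + (d0 * y2 - d2 * y0) * h1 -
      (d0 * y1 - d1 * y0) * h2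
  have e3 : det3 d0 x0 y0 d1 x1 y1 d2 x2 y2 * b = 0 := by
    unfold det3
    linear_combination (d1 * x2 - d2 * x1) * h0 - (d0 * x2 - d2 * x0) * h1 +
      (d0 * x1 - d1 * x0) * h2
  exact ⟨(mul_eq_zero.mp e1).resolve_left hdet, (mul_eq_zero.mp e2).resolve_left hdet,
    (mul_eq_zero.mp e3).resolve_left hdet⟩

theorem solve3_pt {d0 x0 y0 d1 x1 y1 d2 x2 y2 : ℤ} {t t' : Pt × Pt × Pt}
    (hdet : det3 d0 x0 y0 d1 x1 y1 d2 x2 y2 ≠ 0)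
    (h0 : d0 • t.1 + x0 • t.2.1 + y0 • t.2.2 = d0 • t'.1 + x0 • t'.2.1 + y0 • t'.2.2)
    (h1 : d1 • t.1 + x1 • t.2.1 + y1 • t.2.2 = d1 • t'.1 + x1 • t'.2.1 + y1 • t'.2.2)
    (h2 : d2 • t.1 + x2 • t.2.1 + y2 • t.2.2 = d2 • t'.1 + x2 • t'.2.1 + y2 • t'.2.2) :
    t = t' := by
  obtain ⟨⟨p1, p2⟩, ⟨u1, u2⟩, ⟨v1, v2⟩⟩ := t
  obtain ⟨⟨p1', p2'⟩, ⟨u1', u2'⟩, ⟨v1', v2'⟩⟩ := t'
  simp only [Prod.smul_mk, smul_eq_mul, Prod.mk_add_mk, Prod.mk.injEq] at h0 h1 h2 ⊢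
  obtain ⟨a1, a2, a3⟩ := solve3 (p := p1 - p1') (a := u1 - u1') (b := v1 - v1') hdet
    (by linear_combination h0.1) (by linear_combination h1.1) (by linear_combination h2.1)
  obtain ⟨b1, b2, b3⟩ := solve3 (p := p2 - p2') (a := u2 - u2') (b := v2 - v2') hdet
    (by linear_combination h0.2) (by linear_combination h1.2) (by linear_combination h2.2)
  refine ⟨⟨?_, ?_⟩, ⟨?_, ?_⟩, ⟨?_, ?_⟩⟩ <;> linarith

/-- point of a lattice with given indices -/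
def pt (t : Pt × Pt × Pt) (a : ℕ × ℕ) : Pt := t.1 + (a.1 : ℤ) • t.2.1 + (a.2 : ℤ) • t.2.2

theorem mem_lat {q : ℕ} {t : Pt × Pt × Pt} {p : Pt} :
    p ∈ lat q t ↔ ∃ a : ℕ × ℕ, a.1 < q ∧ a.2 < q ∧ pt t a = p := by
  unfold lat
  rw [mem_image]
  constructor
  · rintro ⟨a, ha, he⟩
    rw [mem_product, mem_range, mem_range] at ha
    exact ⟨a, ha.1, ha.2, he⟩
  · rintro ⟨a, h1, h2, he⟩
    exact ⟨a, by rw [mem_product, mem_range, mem_range]; exact ⟨h1, h2⟩, he⟩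

theorem pt_inj {t : Pt × Pt × Pt} (ht : t.2.1.1 * t.2.2.2 - t.2.1.2 * t.2.2.1 ≠ 0) :
    Function.Injective (pt t) := by
  intro a b h
  obtain ⟨⟨p1, p2⟩, ⟨u1, u2⟩, ⟨v1, v2⟩⟩ := t
  unfold pt at h
  simp only [Prod.smul_mk, smul_eq_mul, Prod.mk_add_mk, Prod.mk.injEq] at h ht
  obtain ⟨h1, h2⟩ := h
  have e1 : (u1 * v2 - u2 * v1) * ((a.1 : ℤ) - b.1) = 0 := by
    linear_combination v2 * h1 - v1 * h2
  have e2 : (u1 * v2 - u2 * v1) * ((a.2 : ℤ) - b.2) = 0 := by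
    linear_combination u1 * h2 - u2 * h1
  have f1 := (mul_eq_zero.mp e1).resolve_left ht
  have f2 := (mul_eq_zero.mp e2).resolve_left ht
  ext <;> omega

theorem mem_Idx {N q : ℕ} {t : Pt × Pt × Pt} (ht : t ∈ Idx N q) :
    t.1 ∈ board N ∧ (t.2.1 ∈ Finset.Icc (-(N : ℤ)) N ×ˢ Finset.Icc (-(N : ℤ)) N) ∧
      (t.2.2 ∈ Finset.Icc (-(N : ℤ)) N ×ˢ Finset.Icc (-(N : ℤ)) N) ∧
      t.2.1.1 * t.2.2.2 - t.2.1.2 * t.2.2.1 ≠ 0 ∧ lat q t ⊆ board N := by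
  unfold Idx at ht
  rw [mem_filter, mem_product, mem_product] at ht
  exact ⟨ht.1.1, ht.1.2.1, ht.1.2.2, ht.2.1, ht.2.2⟩

theorem lat_card (N q : ℕ) (t) (ht : t ∈ Idx N q) : (lat q t).card = q ^ 2 := by
  have hd := (mem_Idx ht).2.2.2.1
  have h : lat q t = (range q ×ˢ range q).image (pt t) := rfl
  rw [h, card_image_of_injective _ (pt_inj hd), card_product, card_range, sq]

/-- a large set of indices contains three noncollinear ones -/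
theorem noncol {q : ℕ} {J : Finset (ℕ × ℕ)} (hJ : ∀ a ∈ J, a.1 < q ∧ a.2 < q)
    (h : q < J.card) : ∃ a ∈ J, ∃ b ∈ J, ∃ c ∈ J,
      ((b.1 : ℤ) - a.1) * (c.2 - a.2) - ((b.2 : ℤ) - a.2) * (c.1 - a.1) ≠ 0 := by
  obtain ⟨a, ha, b, hb, hab, he⟩ := exists_ne_map_eq_of_card_lt_of_maps_to
    (s := J) (t := range q) (f := fun a => a.1) (by rwa [card_range])
    (fun a ha => by
      simp only [coe_range, Set.mem_Iio]
      exact (hJ a ha).1)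
  have hc : ∃ c ∈ J, c.1 ≠ a.1 := by
    by_contra hcon
    push Not at hcon
    have hsub : J ⊆ ({a.1} : Finset ℕ) ×ˢ range q := fun c hc => by
      rw [mem_product, mem_singleton, mem_range]
      exact ⟨hcon c hc, (hJ c hc).2⟩
    have := card_le_card hsub
    rw [card_product, card_singleton, card_range, one_mul] at this
    omega
  obtain ⟨c, hc, hca⟩ := hc
  refine ⟨a, ha, b, hb, c, hc, ?_⟩
  have h2 : a.2 ≠ b.2 := fun h2 => hab (Prod.ext he h2)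
  rw [he, sub_self, zero_mul, zero_sub, neg_ne_zero]
  exact mul_ne_zero (by omega) (by omega)

/-- indices of the points of a lattice in a given set -/
theorem noncol_lat {N q : ℕ} {t : Pt × Pt × Pt} (ht : t ∈ Idx N q) {E : Finset Pt}
    (h : q < (lat q t ∩ E).card) : ∃ a b c : ℕ × ℕ, (a.1 < q ∧ a.2 < q) ∧ (b.1 < q ∧ b.2 < q) ∧
      (c.1 < q ∧ c.2 < q) ∧ pt t a ∈ E ∧ pt t b ∈ E ∧ pt t c ∈ E ∧
      ((b.1 : ℤ) - a.1) * (c.2 - a.2) - ((b.2 : ℤ) - a.2) * (c.1 - a.1) ≠ 0 := by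
  classical
  set J : Finset (ℕ × ℕ) := (range q ×ˢ range q).filter (fun a => pt t a ∈ E) with hJ
  have hJ1 : ∀ a ∈ J, (a.1 < q ∧ a.2 < q) ∧ pt t a ∈ E := fun a ha => by
    rw [hJ, mem_filter, mem_product, mem_range, mem_range] at ha
    exact ha
  have hcard : (lat q t ∩ E).card ≤ J.card := by
    have hsub : lat q t ∩ E ⊆ J.image (pt t) := fun p hp => by
      rw [mem_inter, mem_lat] at hp
      obtain ⟨⟨a, h1, h2, he⟩, hpE⟩ := hp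
      rw [mem_image]
      refine ⟨a, ?_, he⟩
      rw [hJ, mem_filter, mem_product, mem_range, mem_range]
      exact ⟨⟨h1, h2⟩, he ▸ hpE⟩
    exact (card_le_card hsub).trans card_image_le
  obtain ⟨a, ha, b, hb, c, hc, hdet⟩ := noncol (q := q) (fun a ha => (hJ1 a ha).1)
    (lt_of_lt_of_le h hcard)
  exact ⟨a, b, c, (hJ1 a ha).1, (hJ1 b hb).1, (hJ1 c hc).1, (hJ1 a ha).2, (hJ1 b hb).2,
    (hJ1 c hc).2, hdet⟩

theorem det_bound {q : ℕ} {a b c : ℤ × ℤ} (ha : 0 ≤ a.1 ∧ a.1 < q ∧ 0 ≤ a.2 ∧ a.2 < q)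
    (hb : 0 ≤ b.1 ∧ b.1 < q ∧ 0 ≤ b.2 ∧ b.2 < q) (hc : 0 ≤ c.1 ∧ c.1 < q ∧ 0 ≤ c.2 ∧ c.2 < q) :
    |(b.1 - a.1) * (c.2 - a.2) - (b.2 - a.2) * (c.1 - a.1)| ≤ 2 * (q : ℤ) ^ 2 := by
  have h1 : |b.1 - a.1| ≤ q := by rw [abs_le]; omega
  have h2 : |c.2 - a.2| ≤ q := by rw [abs_le]; omega
  have h3 : |b.2 - a.2| ≤ q := by rw [abs_le]; omega
  have h4 : |c.1 - a.1| ≤ q := by rw [abs_le]; omega
  have h5 : |(b.1 - a.1) * (c.2 - a.2)| ≤ q * q := by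
    rw [abs_mul]; exact mul_le_mul h1 h2 (abs_nonneg _) (by positivity)
  have h6 : |(b.2 - a.2) * (c.1 - a.1)| ≤ q * q := by
    rw [abs_mul]; exact mul_le_mul h3 h4 (abs_nonneg _) (by positivity)
  calc |(b.1 - a.1) * (c.2 - a.2) - (b.2 - a.2) * (c.1 - a.1)|
      ≤ |(b.1 - a.1) * (c.2 - a.2)| + |(b.2 - a.2) * (c.1 - a.1)| := abs_sub _ _
    _ ≤ 2 * (q : ℤ) ^ 2 := by nlinarith

/-- one coordinate of the change of lattice -/
theorem coord_alg {a1 a2 b1 b2 c1 c2 i1 i2 a1' a2' b1' b2' c1' c2' p u v p' u' v' : ℤ}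
    (ea : p' + a1' * u' + a2' * v' = p + a1 * u + a2 * v)
    (eb : p' + b1' * u' + b2' * v' = p + b1 * u + b2 * v)
    (ec : p' + c1' * u' + c2' * v' = p + c1 * u + c2 * v) :
    ((b1 - a1) * (c2 - a2) - (b2 - a2) * (c1 - a1)) * ((p + i1 * u + i2 * v) - p') =
      (((b1 - a1) * (c2 - a2) - (b2 - a2) * (c1 - a1)) * a1' +
        ((i1 - a1) * (c2 - a2) - (i2 - a2) * (c1 - a1)) * (b1' - a1') +
        ((b1 - a1) * (i2 - a2) - (b2 - a2) * (i1 - a1)) * (c1' - a1')) * u' +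
      (((b1 - a1) * (c2 - a2) - (b2 - a2) * (c1 - a1)) * a2' +
        ((i1 - a1) * (c2 - a2) - (i2 - a2) * (c1 - a1)) * (b2' - a2') +
        ((b1 - a1) * (i2 - a2) - (b2 - a2) * (i1 - a1)) * (c2' - a2')) * v' := by
  linear_combination -(((b1 - a1) * (c2 - a2) - (b2 - a2) * (c1 - a1)) -
    ((i1 - a1) * (c2 - a2) - (i2 - a2) * (c1 - a1)) -
    ((b1 - a1) * (i2 - a2) - (b2 - a2) * (i1 - a1))) * ea -
    ((i1 - a1) * (c2 - a2) - (i2 - a2) * (c1 - a1)) * eb -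
    ((b1 - a1) * (i2 - a2) - (b2 - a2) * (i1 - a1)) * ec

theorem coef_bound {q D α β a b c : ℤ} (hD : |D| ≤ 2 * q ^ 2) (hα : |α| ≤ 2 * q ^ 2)
    (hβ : |β| ≤ 2 * q ^ 2) (hq : 0 ≤ q) (ha : |a| ≤ q) (hb : |b| ≤ q) (hc : |c| ≤ q) :
    |D * a + α * b + β * c| ≤ 6 * q ^ 3 := by
  have e1 : |D * a| ≤ 2 * q ^ 2 * q := by
    rw [abs_mul]
    exact mul_le_mul hD ha (abs_nonneg _) (by positivity)
  have e2 : |α * b| ≤ 2 * q ^ 2 * q := by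
    rw [abs_mul]
    exact mul_le_mul hα hb (abs_nonneg _) (by positivity)
  have e3 : |β * c| ≤ 2 * q ^ 2 * q := by
    rw [abs_mul]
    exact mul_le_mul hβ hc (abs_nonneg _) (by positivity)
  have e4 : q ^ 3 = q ^ 2 * q := pow_succ q 2
  calc |D * a + α * b + β * c| ≤ |D * a| + |α * b| + |β * c| := abs_add_three _ _ _
    _ ≤ 6 * q ^ 3 := by rw [e4]; linarith

theorem lat_sub_ext (N q : ℕ) (hq : 2 ≤ q) (t t') (ht : t ∈ Idx N q) (ht' : t' ∈ Idx N q)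
    (h : q < (lat q t ∩ lat q t').card) : lat q t ⊆ ext N q t' := by
  obtain ⟨⟨a1, a2⟩, ⟨b1, b2⟩, ⟨c1, c2⟩, ha, hb, hc, hza, hzb, hzc, hdet⟩ := noncol_lat ht h
  rw [mem_lat] at hza hzb hzc
  obtain ⟨⟨a1', a2'⟩, ha1, ha2, ea⟩ := hza
  obtain ⟨⟨b1', b2'⟩, hb1, hb2, eb⟩ := hzb
  obtain ⟨⟨c1', c2'⟩, hc1, hc2, ec⟩ := hzc
  intro w hw
  have hwB := (mem_Idx ht).2.2.2.2 hw
  rw [mem_lat] at hw
  obtain ⟨⟨i1, i2⟩, hi1, hi2, rfl⟩ := hw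
  unfold ext
  rw [mem_filter]
  refine ⟨hwB, ?_⟩
  clear hwB h ht ht'
  obtain ⟨⟨p1, p2⟩, ⟨u1, u2⟩, ⟨v1, v2⟩⟩ := t
  obtain ⟨⟨p1', p2'⟩, ⟨u1', u2'⟩, ⟨v1', v2'⟩⟩ := t'
  unfold pt at ea eb ec ⊢
  simp only [Prod.smul_mk, smul_eq_mul, Prod.mk_add_mk, Prod.mk_sub_mk, Prod.mk.injEq] at ea eb ec ha hb hc ha1 ha2 hb1 hb2 hc1 hc2 hi1 hi2 hdet ⊢
  have k1 := coord_alg (i1 := i1) (i2 := i2) ea.1 eb.1 ec.1
  have k2 := coord_alg (i1 := i1) (i2 := i2) ea.2 eb.2 ec.2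
  have hDb := det_bound (q := q) (a := (a1, a2)) (b := (b1, b2)) (c := (c1, c2))
    (by simp only; omega) (by simp only; omega) (by simp only; omega)
  have hαb := det_bound (q := q) (a := (a1, a2)) (b := (i1, i2)) (c := (c1, c2))
    (by simp only; omega) (by simp only; omega) (by simp only; omega)
  have hβb := det_bound (q := q) (a := (a1, a2)) (b := (b1, b2)) (c := (i1, i2))
    (by simp only; omega) (by simp only; omega) (by simp only; omega)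
  simp only at hDb hαb hβb
  generalize ((b1 : ℤ) - a1) * (c2 - a2) - ((b2 : ℤ) - a2) * (c1 - a1) = D at *
  generalize ((i1 : ℤ) - a1) * (c2 - a2) - ((i2 : ℤ) - a2) * (c1 - a1) = α at *
  generalize ((b1 : ℤ) - a1) * (i2 - a2) - ((b2 : ℤ) - a2) * (i1 - a1) = β at *
  have hXb := coef_bound (a := (a1' : ℤ)) (b := (b1' : ℤ) - a1') (c := (c1' : ℤ) - a1') hDb hαb hβb
    (by positivity) (by rw [abs_le]; omega) (by rw [abs_le]; omega) (by rw [abs_le]; omega)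
  have hYb := coef_bound (a := (a2' : ℤ)) (b := (b2' : ℤ) - a2') (c := (c2' : ℤ) - a2') hDb hαb hβb
    (by positivity) (by rw [abs_le]; omega) (by rw [abs_le]; omega) (by rw [abs_le]; omega)
  generalize D * (a1' : ℤ) + α * ((b1' : ℤ) - a1') + β * ((c1' : ℤ) - a1') = X at *
  generalize D * (a2' : ℤ) + α * ((b2' : ℤ) - a2') + β * ((c2' : ℤ) - a2') = Y at *
  rw [abs_le] at hXb hYb hDb
  rcases lt_or_gt_of_ne hdet with hneg | hpos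
  · refine ⟨-D, ?_, -X, ?_, -Y, ?_, ?_, ?_⟩
    · rw [mem_Icc]; omega
    · rw [mem_Icc]; omega
    · rw [mem_Icc]; omega
    · linear_combination -k1
    · linear_combination -k2
  · refine ⟨D, ?_, X, ?_, Y, ?_, k1, k2⟩
    · rw [mem_Icc]; omega
    · rw [mem_Icc]; omega
    · rw [mem_Icc]; omega

/-- the parameters of the points of a neighbourhood -/
noncomputable def Par (q : ℕ) : Finset (ℤ × ℤ × ℤ) :=
  Finset.Icc (1 : ℤ) (2 * q ^ 2) ×ˢ (Finset.Icc (-(6 * (q : ℤ) ^ 3)) (6 * (q : ℤ) ^ 3) ×ˢ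
    Finset.Icc (-(6 * (q : ℤ) ^ 3)) (6 * (q : ℤ) ^ 3))

theorem Par_card {q : ℕ} (hq : 2 ≤ q) : (Par q).card ≤ 338 * q ^ 8 := by
  unfold Par
  rw [card_product, card_product, Int.card_Icc, Int.card_Icc]
  have h1 : (2 * (q : ℤ) ^ 2 + 1 - 1).toNat = 2 * q ^ 2 := by
    have : (2 * (q : ℤ) ^ 2 + 1 - 1) = ((2 * q ^ 2 : ℕ) : ℤ) := by push_cast; ring
    rw [this, Int.toNat_natCast]
  have h2 : (6 * (q : ℤ) ^ 3 + 1 - -(6 * (q : ℤ) ^ 3)).toNat = 12 * q ^ 3 + 1 := by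
    have : (6 * (q : ℤ) ^ 3 + 1 - -(6 * (q : ℤ) ^ 3)) = ((12 * q ^ 3 + 1 : ℕ) : ℤ) := by
      push_cast; ring
    rw [this, Int.toNat_natCast]
  rw [h1, h2]
  have h3 : 12 * q ^ 3 + 1 ≤ 13 * q ^ 3 := by
    have : 1 ≤ q ^ 3 := Nat.one_le_pow _ _ (by omega)
    omega
  calc 2 * q ^ 2 * ((12 * q ^ 3 + 1) * (12 * q ^ 3 + 1)) ≤
      2 * q ^ 2 * ((13 * q ^ 3) * (13 * q ^ 3)) := by gcongr
    _ = 338 * q ^ 8 := by ring

theorem mem_ext {N q : ℕ} {t : Pt × Pt × Pt} {z : Pt} (h : z ∈ ext N q t) :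
    ∃ w ∈ Par q, 1 ≤ w.1 ∧ w.1 • z = w.1 • t.1 + w.2.1 • t.2.1 + w.2.2 • t.2.2 := by
  unfold ext at h
  rw [mem_filter] at h
  obtain ⟨-, d, hd, x, hx, y, hy, he⟩ := h
  refine ⟨(d, x, y), ?_, (mem_Icc.mp hd).1, ?_⟩
  · unfold Par
    rw [mem_product, mem_product]
    exact ⟨hd, hx, hy⟩
  · simp only
    rw [add_assoc, ← he, smul_sub]; abel

/-- the grid of indices -/
def grid (q : ℕ) : Finset (ℕ × ℕ) := range q ×ˢ range q

theorem mem_grid {q : ℕ} {a : ℕ × ℕ} (h : a.1 < q ∧ a.2 < q) : a ∈ grid q := by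
  unfold grid
  rw [mem_product, mem_range, mem_range]; exact h

theorem grid_card (q : ℕ) : (grid q).card = q ^ 2 := by
  unfold grid; rw [card_product, card_range, sq]

theorem ext_card (N q : ℕ) (hq : 2 ≤ q) (t) (ht : t ∈ Idx N q) :
    (ext N q t).card ≤ 338 * q ^ 8 := by
  refine le_trans ?_ (Par_card hq)
  refine card_le_card_of_forall_subsingleton
    (fun z w => 1 ≤ w.1 ∧ w.1 • z = w.1 • t.1 + w.2.1 • t.2.1 + w.2.2 • t.2.2) ?_ ?_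
  · intro z hz
    obtain ⟨w, hw, h⟩ := mem_ext hz
    exact ⟨w, hw, h⟩
  · intro w hw z hz z' hz'
    have h1 := hz.2
    have h2 := hz'.2
    have h3 : w.1 • z = w.1 • z' := by rw [h1.2, h2.2]
    have h0 : w.1 ≠ 0 := by omega
    have h4 := Prod.ext_iff.mp h3
    simp only [Prod.smul_fst, Prod.smul_snd, smul_eq_mul] at h4
    ext
    · exact mul_left_cancel₀ h0 h4.1
    · exact mul_left_cancel₀ h0 h4.2

theorem far1 (N q : ℕ) (hq : 2 ≤ q) (t') (ht' : t' ∈ Idx N q) :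
    ((Idx N q).filter (fun t => q < (lat q t ∩ ext N q t').card)).card ≤ 338 ^ 3 * q ^ 30 := by
  classical
  have hT : (((grid q ×ˢ (grid q ×ˢ grid q)) ×ˢ
      (ext N q t' ×ˢ (ext N q t' ×ˢ ext N q t')))).card ≤ 338 ^ 3 * q ^ 30 := by
    simp only [card_product, grid_card]
    have h := ext_card N q hq t' ht'
    calc q ^ 2 * (q ^ 2 * q ^ 2) * ((ext N q t').card * ((ext N q t').card * (ext N q t').card))
        ≤ q ^ 2 * (q ^ 2 * q ^ 2) * ((338 * q ^ 8) * ((338 * q ^ 8) * (338 * q ^ 8))) := by gcongr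
      _ = 338 ^ 3 * q ^ 30 := by ring
  refine le_trans ?_ hT
  refine card_le_card_of_forall_subsingleton
    (fun (t : Pt × Pt × Pt) (w : ((ℕ × ℕ) × (ℕ × ℕ) × (ℕ × ℕ)) × (Pt × Pt × Pt)) =>
      ((w.1.2.1.1 : ℤ) - w.1.1.1) * (w.1.2.2.2 - w.1.1.2) -
        ((w.1.2.1.2 : ℤ) - w.1.1.2) * (w.1.2.2.1 - w.1.1.1) ≠ 0 ∧
      pt t w.1.1 = w.2.1 ∧ pt t w.1.2.1 = w.2.2.1 ∧ pt t w.1.2.2 = w.2.2.2) ?_ ?_
  · intro t ht
    rw [mem_filter] at ht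
    obtain ⟨a, b, c, ha, hb, hc, hza, hzb, hzc, hdet⟩ := noncol_lat ht.1 ht.2
    refine ⟨((a, b, c), (pt t a, pt t b, pt t c)), ?_, hdet, rfl, rfl, rfl⟩
    simp only [mem_product]
    exact ⟨⟨mem_grid ha, mem_grid hb, mem_grid hc⟩, hza, hzb, hzc⟩
  · rintro w hw t ⟨-, h1, h2, h3, h4⟩ t2 ⟨-, -, g2, g3, g4⟩
    refine solve3_pt (d0 := 1) (x0 := w.1.1.1) (y0 := w.1.1.2) (d1 := 1) (x1 := w.1.2.1.1)
      (y1 := w.1.2.1.2) (d2 := 1) (x2 := w.1.2.2.1) (y2 := w.1.2.2.2) ?_ ?_ ?_ ?_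
    · intro h0
      apply h1
      rw [← h0]
      unfold det3
      ring
    · rw [one_smul, one_smul]
      exact h2.trans g2.symm
    · rw [one_smul, one_smul]
      exact h3.trans g3.symm
    · rw [one_smul, one_smul]
      exact h4.trans g4.symm

theorem det3_ne {t t' : Pt × Pt × Pt} {a b c : ℕ × ℕ} {wa wb wc : ℤ × ℤ × ℤ}
    (ht : t.2.1.1 * t.2.2.2 - t.2.1.2 * t.2.2.1 ≠ 0)
    (hdet : ((b.1 : ℤ) - a.1) * (c.2 - a.2) - ((b.2 : ℤ) - a.2) * (c.1 - a.1) ≠ 0)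
    (ha : 1 ≤ wa.1 ∧ wa.1 • pt t a = wa.1 • t'.1 + wa.2.1 • t'.2.1 + wa.2.2 • t'.2.2)
    (hb : 1 ≤ wb.1 ∧ wb.1 • pt t b = wb.1 • t'.1 + wb.2.1 • t'.2.1 + wb.2.2 • t'.2.2)
    (hc : 1 ≤ wc.1 ∧ wc.1 • pt t c = wc.1 • t'.1 + wc.2.1 • t'.2.1 + wc.2.2 • t'.2.2) :
    det3 wa.1 wa.2.1 wa.2.2 wb.1 wb.2.1 wb.2.2 wc.1 wc.2.1 wc.2.2 ≠ 0 := by
  intro h0
  obtain ⟨da, xa, ya⟩ := wa
  obtain ⟨db, xb, yb⟩ := wb
  obtain ⟨dc, xc, yc⟩ := wc
  obtain ⟨⟨p1, p2⟩, ⟨u1, u2⟩, ⟨v1, v2⟩⟩ := t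
  obtain ⟨⟨p1', p2'⟩, ⟨u1', u2'⟩, ⟨v1', v2'⟩⟩ := t'
  unfold pt at ha hb hc
  simp only [Prod.smul_mk, smul_eq_mul, Prod.mk_add_mk, Prod.mk.injEq] at ha hb hc ht h0 hdet
  obtain ⟨hda, ha1, ha2⟩ := ha
  obtain ⟨hdb, hb1, hb2⟩ := hb
  obtain ⟨hdc, hc1, hc2⟩ := hc
  have e1 : det3 da (da * (p1 + a.1 * u1 + a.2 * v1)) (da * (p2 + a.1 * u2 + a.2 * v2))
      db (db * (p1 + b.1 * u1 + b.2 * v1)) (db * (p2 + b.1 * u2 + b.2 * v2))
      dc (dc * (p1 + c.1 * u1 + c.2 * v1)) (dc * (p2 + c.1 * u2 + c.2 * v2)) =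
      da * db * dc * (((b.1 : ℤ) - a.1) * (c.2 - a.2) - ((b.2 : ℤ) - a.2) * (c.1 - a.1)) *
        (u1 * v2 - u2 * v1) := by
    unfold det3; ring
  have e2 : det3 da (da * (p1 + a.1 * u1 + a.2 * v1)) (da * (p2 + a.1 * u2 + a.2 * v2))
      db (db * (p1 + b.1 * u1 + b.2 * v1)) (db * (p2 + b.1 * u2 + b.2 * v2))
      dc (dc * (p1 + c.1 * u1 + c.2 * v1)) (dc * (p2 + c.1 * u2 + c.2 * v2)) =
      det3 da xa ya db xb yb dc xc yc * (u1' * v2' - u2' * v1') := by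
    rw [ha1, ha2, hb1, hb2, hc1, hc2]
    unfold det3; ring
  rw [e1, h0, zero_mul] at e2
  have h3 : da * db * dc ≠ 0 := by
    have : 0 < da * db * dc := by positivity
    omega
  exact mul_ne_zero (mul_ne_zero h3 hdet) ht e2

theorem far2 (N q : ℕ) (hq : 2 ≤ q) (t) (ht : t ∈ Idx N q) :
    ((Idx N q).filter (fun t' => q < (lat q t ∩ ext N q t').card)).card ≤ 338 ^ 3 * q ^ 30 := by
  classical
  have hT : (((grid q ×ˢ (grid q ×ˢ grid q)) ×ˢ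
      (Par q ×ˢ (Par q ×ˢ Par q)))).card ≤ 338 ^ 3 * q ^ 30 := by
    simp only [card_product, grid_card]
    have h := Par_card hq
    calc q ^ 2 * (q ^ 2 * q ^ 2) * ((Par q).card * ((Par q).card * (Par q).card))
        ≤ q ^ 2 * (q ^ 2 * q ^ 2) * ((338 * q ^ 8) * ((338 * q ^ 8) * (338 * q ^ 8))) := by gcongr
      _ = 338 ^ 3 * q ^ 30 := by ring
  refine le_trans ?_ hT
  refine card_le_card_of_forall_subsingleton
    (fun (t' : Pt × Pt × Pt)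
      (w : ((ℕ × ℕ) × (ℕ × ℕ) × (ℕ × ℕ)) × ((ℤ × ℤ × ℤ) × (ℤ × ℤ × ℤ) × (ℤ × ℤ × ℤ))) =>
      ((w.1.2.1.1 : ℤ) - w.1.1.1) * (w.1.2.2.2 - w.1.1.2) -
        ((w.1.2.1.2 : ℤ) - w.1.1.2) * (w.1.2.2.1 - w.1.1.1) ≠ 0 ∧
      (1 ≤ w.2.1.1 ∧ w.2.1.1 • pt t w.1.1 =
        w.2.1.1 • t'.1 + w.2.1.2.1 • t'.2.1 + w.2.1.2.2 • t'.2.2) ∧
      (1 ≤ w.2.2.1.1 ∧ w.2.2.1.1 • pt t w.1.2.1 =
        w.2.2.1.1 • t'.1 + w.2.2.1.2.1 • t'.2.1 + w.2.2.1.2.2 • t'.2.2) ∧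
      (1 ≤ w.2.2.2.1 ∧ w.2.2.2.1 • pt t w.1.2.2 =
        w.2.2.2.1 • t'.1 + w.2.2.2.2.1 • t'.2.1 + w.2.2.2.2.2 • t'.2.2)) ?_ ?_
  · intro t' ht'
    rw [mem_filter] at ht'
    obtain ⟨a, b, c, ha, hb, hc, hza, hzb, hzc, hdet⟩ := noncol_lat ht ht'.2
    obtain ⟨wa, hwa, ea⟩ := mem_ext hza
    obtain ⟨wb, hwb, eb⟩ := mem_ext hzb
    obtain ⟨wc, hwc, ec⟩ := mem_ext hzc
    refine ⟨((a, b, c), (wa, wb, wc)), ?_, hdet, ea, eb, ec⟩
    simp only [mem_product]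
    exact ⟨⟨mem_grid ha, mem_grid hb, mem_grid hc⟩, hwa, hwb, hwc⟩
  · rintro w hw t1 ⟨-, h1, h2, h3, h4⟩ t2 ⟨-, -, g2, g3, g4⟩
    have hne := det3_ne (mem_Idx ht).2.2.2.1 h1 h2 h3 h4
    exact solve3_pt hne (h2.2.symm.trans g2.2) (h3.2.symm.trans g3.2) (h4.2.symm.trans g4.2)

theorem box_card (N : ℕ) :
    (Finset.Icc (-(N : ℤ)) N ×ˢ Finset.Icc (-(N : ℤ)) N).card = (2 * N + 1) ^ 2 := by
  rw [card_product, Int.card_Icc]
  have : ((N : ℤ) + 1 - -(N : ℤ)).toNat = 2 * N + 1 := by omega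
  rw [this, sq]

theorem board_card (N : ℕ) : (board N).card = N ^ 2 := by
  unfold board
  rw [card_product, Int.card_Icc]
  have : ((N : ℤ) + 1 - 1).toNat = N := by omega
  rw [this, sq]

theorem deg1 (N q : ℕ) (hq : 2 ≤ q) (z : Pt) :
    ((Idx N q).filter (fun t => z ∈ ext N q t)).card ≤ 338 * q ^ 8 * (2 * N + 1) ^ 4 := by
  classical
  have hT : (Par q ×ˢ ((Finset.Icc (-(N : ℤ)) N ×ˢ Finset.Icc (-(N : ℤ)) N) ×ˢ
      (Finset.Icc (-(N : ℤ)) N ×ˢ Finset.Icc (-(N : ℤ)) N))).card ≤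
      338 * q ^ 8 * (2 * N + 1) ^ 4 := by
    rw [card_product, card_product, box_card]
    have h := Par_card hq
    calc (Par q).card * ((2 * N + 1) ^ 2 * (2 * N + 1) ^ 2) ≤
        338 * q ^ 8 * ((2 * N + 1) ^ 2 * (2 * N + 1) ^ 2) := by gcongr
      _ = _ := by ring
  refine le_trans ?_ hT
  refine card_le_card_of_forall_subsingleton
    (fun (t : Pt × Pt × Pt) (w : (ℤ × ℤ × ℤ) × (Pt × Pt)) => t.2 = w.2 ∧
      (1 ≤ w.1.1 ∧ w.1.1 • z = w.1.1 • t.1 + w.1.2.1 • t.2.1 + w.1.2.2 • t.2.2)) ?_ ?_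
  · intro t ht
    rw [mem_filter] at ht
    obtain ⟨w, hw, e⟩ := mem_ext ht.2
    have h1 := mem_Idx ht.1
    refine ⟨(w, t.2), ?_, rfl, e⟩
    rw [mem_product]
    exact ⟨hw, mem_product.mpr ⟨h1.2.1, h1.2.2.1⟩⟩
  · rintro w hw t1 ⟨-, h1, h2, h3⟩ t2 ⟨-, g1, g2, g3⟩
    have h4 : t1.2 = t2.2 := h1.trans g1.symm
    have h5 : w.1.1 • t1.1 = w.1.1 • t2.1 := by
      have := h3.symm.trans g3
      rw [h4, add_assoc, add_assoc] at this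
      exact add_right_cancel this
    have h6 := Prod.ext_iff.mp h5
    simp only [Prod.smul_fst, Prod.smul_snd, smul_eq_mul] at h6
    have h0 : w.1.1 ≠ 0 := by omega
    have h7 : t1.1 = t2.1 := Prod.ext (mul_left_cancel₀ h0 h6.1) (mul_left_cancel₀ h0 h6.2)
    exact Prod.ext h7 h4

theorem deg2 (N q : ℕ) (hq : 2 ≤ q) (x z : Pt) (hxz : x ≠ z) :
    ((Idx N q).filter (fun t => x ∈ lat q t ∧ z ∈ ext N q t)).card ≤
      676 * q ^ 10 * (2 * N + 1) ^ 2 := by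
  classical
  have hT : ((grid q ×ˢ Par q) ×ˢ ((Finset.univ : Finset Bool) ×ˢ
      (Finset.Icc (-(N : ℤ)) N ×ˢ Finset.Icc (-(N : ℤ)) N))).card ≤
      676 * q ^ 10 * (2 * N + 1) ^ 2 := by
    rw [card_product, card_product, card_product, box_card, grid_card, card_univ,
      Fintype.card_bool]
    have h := Par_card hq
    calc q ^ 2 * (Par q).card * (2 * (2 * N + 1) ^ 2) ≤
        q ^ 2 * (338 * q ^ 8) * (2 * (2 * N + 1) ^ 2) := by gcongr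
      _ = _ := by ring
  refine le_trans ?_ hT
  refine card_le_card_of_forall_subsingleton
    (fun (t : Pt × Pt × Pt) (w : ((ℕ × ℕ) × (ℤ × ℤ × ℤ)) × (Bool × Pt)) =>
      pt t w.1.1 = x ∧
      (1 ≤ w.1.2.1 ∧ w.1.2.1 • z = w.1.2.1 • t.1 + w.1.2.2.1 • t.2.1 + w.1.2.2.2 • t.2.2) ∧
      ((w.2.1 = true ∧ w.1.2.2.2 - w.1.2.1 * w.1.1.2 ≠ 0 ∧ t.2.1 = w.2.2) ∨
       (w.2.1 = false ∧ w.1.2.2.1 - w.1.2.1 * w.1.1.1 ≠ 0 ∧ t.2.2 = w.2.2))) ?_ ?_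
  · intro t ht
    rw [mem_filter, mem_lat] at ht
    obtain ⟨htI, ⟨a, ha1, ha2, ea⟩, hz⟩ := ht
    obtain ⟨w, hw, e⟩ := mem_ext hz
    have h1 := mem_Idx htI
    by_cases h0 : w.2.2 - w.1 * a.2 = 0
    · refine ⟨((a, w), (false, t.2.2)), ?_, ea, e, Or.inr ⟨rfl, ?_, rfl⟩⟩
      · simp only [mem_product]
        exact ⟨⟨mem_grid ⟨ha1, ha2⟩, hw⟩, mem_univ _, mem_product.mp h1.2.2.1⟩
      · intro h2
        simp only at h2
        apply hxz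
        have h3 : w.1 • z = w.1 • x := by
          have e1 : w.2.2 = w.1 * a.2 := by omega
          have e2 : w.2.1 = w.1 * a.1 := by omega
          rw [e.2, ← ea, e1, e2]
          unfold pt
          rw [smul_add, smul_add, smul_smul, smul_smul]
        have h0' : w.1 ≠ 0 := by omega
        have h6 := Prod.ext_iff.mp h3
        simp only [Prod.smul_fst, Prod.smul_snd, smul_eq_mul] at h6
        exact (Prod.ext (mul_left_cancel₀ h0' h6.1) (mul_left_cancel₀ h0' h6.2)).symm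
    · refine ⟨((a, w), (true, t.2.1)), ?_, ea, e, Or.inl ⟨rfl, h0, rfl⟩⟩
      simp only [mem_product]
      exact ⟨⟨mem_grid ⟨ha1, ha2⟩, hw⟩, mem_univ _, mem_product.mp h1.2.1⟩
  · rintro ⟨⟨a, w⟩, ⟨b, r⟩⟩ hw t1 ⟨-, h1, h2, h3⟩ t2 ⟨-, g1, g2, g3⟩
    simp only at h1 h2 h3 g1 g2 g3
    have h4 : pt t1 a = pt t2 a := h1.trans g1.symm
    have h5 := h2.2.symm.trans g2.2
    obtain ⟨⟨p1, p2⟩, ⟨u1, u2⟩, ⟨v1, v2⟩⟩ := t1
    obtain ⟨⟨p1', p2'⟩, ⟨u1', u2'⟩, ⟨v1', v2'⟩⟩ := t2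
    obtain ⟨r1, r2⟩ := r
    unfold pt at h4
    simp only [Prod.smul_mk, smul_eq_mul, Prod.mk_add_mk, Prod.mk.injEq] at h3 g3 h4 h5 ⊢
    obtain ⟨k1, k2⟩ := h4
    obtain ⟨l1, l2⟩ := h5
    rcases h3 with ⟨hb, hne, hu1, hu2⟩ | ⟨hb, hne, hu1, hu2⟩
    · rcases g3 with ⟨-, -, gu1, gu2⟩ | ⟨hb', -⟩
      · have e1 : (w.2.2 - w.1 * a.2) * (v1 - v1') = 0 := by
          have : u1 = u1' := by omega
          subst this
          linear_combination l1 - w.1 * k1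
        have e2 : (w.2.2 - w.1 * a.2) * (v2 - v2') = 0 := by
          have : u2 = u2' := by omega
          subst this
          linear_combination l2 - w.1 * k2
        have f1 := (mul_eq_zero.mp e1).resolve_left hne
        have f2 := (mul_eq_zero.mp e2).resolve_left hne
        have j1 : u1 = u1' := by omega
        have j2 : u2 = u2' := by omega
        have j3 : v1 = v1' := by omega
        have j4 : v2 = v2' := by omega
        subst j1 j2 j3 j4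
        refine ⟨⟨?_, ?_⟩, ⟨rfl, rfl⟩, ⟨rfl, rfl⟩⟩ <;> linarith
      · rw [hb] at hb'; simp at hb'
    · rcases g3 with ⟨hb', -⟩ | ⟨-, -, gu1, gu2⟩
      · rw [hb] at hb'; simp at hb'
      · have e1 : (w.2.1 - w.1 * a.1) * (u1 - u1') = 0 := by
          have : v1 = v1' := by omega
          subst this
          linear_combination l1 - w.1 * k1
        have e2 : (w.2.1 - w.1 * a.1) * (u2 - u2') = 0 := by
          have : v2 = v2' := by omega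
          subst this
          linear_combination l2 - w.1 * k2
        have f1 := (mul_eq_zero.mp e1).resolve_left hne
        have f2 := (mul_eq_zero.mp e2).resolve_left hne
        have j1 : u1 = u1' := by omega
        have j2 : u2 = u2' := by omega
        have j3 : v1 = v1' := by omega
        have j4 : v2 = v2' := by omega
        subst j1 j2 j3 j4
        refine ⟨⟨?_, ?_⟩, ⟨rfl, rfl⟩, ⟨rfl, rfl⟩⟩ <;> linarith

theorem Idx_card (N q : ℕ) : (Idx N q).card ≤ N ^ 2 * (2 * N + 1) ^ 4 := by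
  unfold Idx
  refine (card_filter_le _ _).trans ?_
  rw [card_product, card_product, box_card, board_card]
  apply le_of_eq
  ring

end Pool.Agent.Helper32.Lat
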