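import Mathlib

set_option autoImplicit false
set_option linter.unusedSectionVars false
set_option linter.unusedVariables false
set_option linter.unusedSimpArgs false

namespace Pool.Agent.Helper32.Lat

open Finset

section gen

variable {V ι : Type*} [DecidableEq V] [Fintype ι]

/-- total weight -/
noncomputable def Tot (w : ι → ℝ) : ℝ := ∑ c, w c

/-- the weight of the configurations through a point -/
noncomputable def Val (pts : ι → Finset V) (w : ι → ℝ) (u : V) : ℝ :=
  ∑ c, if u ∈ pts c then w c else 0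

/-- weights after Breaker took the points of `R` -/
noncomputable def kill (pts : ι → Finset V) (w : ι → ℝ) (R : Finset V) : ι → ℝ :=
  fun c => if Disjoint (pts c) R then w c else 0

theorem Tot_mono {w w' : ι → ℝ} (h : ∀ c, w c ≤ w' c) : Tot w ≤ Tot w' :=
  Finset.sum_le_sum fun c _ => h c

theorem Val_mono {pts : ι → Finset V} {w w' : ι → ℝ} (h : ∀ c, w c ≤ w' c) (u : V) :
    Val pts w u ≤ Val pts w' u := by
  refine Finset.sum_le_sum fun c _ => ?_
  split_ifs
  · exact h c
  · exact le_rfl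

theorem Val_nonneg {pts : ι → Finset V} {w : ι → ℝ} (h : ∀ c, 0 ≤ w c) (u : V) :
    0 ≤ Val pts w u := by
  refine Finset.sum_nonneg fun c _ => ?_
  split_ifs
  · exact h c
  · exact le_rfl

theorem Tot_nonneg {w : ι → ℝ} (h : ∀ c, 0 ≤ w c) : 0 ≤ Tot w :=
  Finset.sum_nonneg fun c _ => h c

theorem Val_le_Tot {pts : ι → Finset V} {w : ι → ℝ} (h : ∀ c, 0 ≤ w c) (u : V) :
    Val pts w u ≤ Tot w := by
  refine Finset.sum_le_sum fun c _ => ?_
  split_ifs
  · exact le_rfl
  · exact h c

theorem kill_nonneg {pts : ι → Finset V} {w : ι → ℝ} (h : ∀ c, 0 ≤ w c) (R : Finset V) (c : ι) :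
    0 ≤ kill pts w R c := by
  unfold kill; split_ifs
  · exact h c
  · exact le_rfl

theorem kill_le {pts : ι → Finset V} {w : ι → ℝ} (h : ∀ c, 0 ≤ w c) (R : Finset V) (c : ι) :
    kill pts w R c ≤ w c := by
  unfold kill; split_ifs
  · exact le_rfl
  · exact h c

theorem kill_anti {pts : ι → Finset V} {w : ι → ℝ} (h : ∀ c, 0 ≤ w c) {R R' : Finset V}
    (hR : R ⊆ R') (c : ι) :
    kill pts w R' c ≤ kill pts w R c := by
  unfold kill
  by_cases h1 : Disjoint (pts c) R'
  · have h2 : Disjoint (pts c) R := Disjoint.mono_right hR h1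
    rw [if_pos h1, if_pos h2]
  · rw [if_neg h1]
    split_ifs
    · exact h c
    · exact le_rfl

theorem kill_empty (pts : ι → Finset V) (w : ι → ℝ) : kill pts w ∅ = w := by
  funext c; unfold kill; simp

theorem kill_kill (pts : ι → Finset V) (w : ι → ℝ) (R R' : Finset V) :
    kill pts (kill pts w R) R' = kill pts w (R ∪ R') := by
  funext c
  simp only [kill, Finset.disjoint_union_right]
  by_cases h1 : Disjoint (pts c) R <;> by_cases h2 : Disjoint (pts c) R' <;> simp [h1, h2]

theorem Tot_kill_singleton (pts : ι → Finset V) (w : ι → ℝ) (z : V) :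
    Tot (kill pts w {z}) = Tot w - Val pts w z := by
  unfold Tot Val kill
  rw [← Finset.sum_sub_distrib]
  refine Finset.sum_congr rfl fun c _ => ?_
  simp only [Finset.disjoint_singleton_right]
  by_cases h : z ∈ pts c <;> simp [h]

/-- greedy step -/
theorem greedy (pts : ι → Finset V) (w : ι → ℝ) (hw : ∀ c, 0 ≤ w c) (F : Finset V)
    (hF : F.Nonempty) :
    ∃ z ∈ F, (∀ u ∈ F, Val pts w u ≤ Val pts w z) ∧
      (∀ u ∈ F, Val pts (kill pts w {z}) u ≤ Val pts w z) ∧
      Tot (kill pts w {z}) = Tot w - Val pts w z := by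
  obtain ⟨z, hz, hmax⟩ := Finset.exists_max_image F (Val pts w) hF
  refine ⟨z, hz, hmax, fun u hu => ?_, Tot_kill_singleton pts w z⟩
  exact (Val_mono (kill_le hw {z}) u).trans (hmax u hu)

/-- Breaker's reply with `r ≤ 2` points. -/
theorem reply (pts : ι → Finset V) (w : ι → ℝ) (hw : ∀ c, 0 ≤ w c) (F : Finset V) (r : ℕ)
    (hr : r ≤ 2) (D b0 : ℝ) (hD : ∀ u ∈ F, Val pts w u ≤ D) (hD0 : 0 ≤ D)
    (h : Tot w + (2 - (r : ℝ)) * D ≤ b0) :
    ∃ R ⊆ F, R.card ≤ r ∧ ∃ D', 0 ≤ D' ∧ (∀ u ∈ F \ R, Val pts (kill pts w R) u ≤ D') ∧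
      Tot (kill pts w R) + 2 * D' ≤ b0 := by
  have hT : Tot w ≤ b0 := by
    have : (r : ℝ) ≤ 2 := by exact_mod_cast hr
    nlinarith
  have hempty : F = ∅ → ∃ R ⊆ F, R.card ≤ r ∧ ∃ D', 0 ≤ D' ∧
      (∀ u ∈ F \ R, Val pts (kill pts w R) u ≤ D') ∧ Tot (kill pts w R) + 2 * D' ≤ b0 := by
    intro hF
    refine ⟨∅, by simp, by simp, 0, le_rfl, ?_, ?_⟩
    · intro u hu; rw [hF] at hu; simp at hu
    · rw [kill_empty]; linarith
  rcases Finset.eq_empty_or_nonempty F with hF | hF
  · exact hempty hF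
  interval_cases r
  · refine ⟨∅, by simp, by simp, D, hD0, ?_, ?_⟩
    · intro u hu
      rw [kill_empty]
      exact hD u (Finset.mem_sdiff.mp hu).1
    · rw [kill_empty]; push_cast at h; linarith
  · obtain ⟨z, hz, h1, h2, h3⟩ := greedy pts w hw F hF
    refine ⟨{z}, by simpa using hz, by simp, Val pts w z, Val_nonneg hw z, ?_, ?_⟩
    · intro u hu
      exact h2 u (Finset.mem_sdiff.mp hu).1
    · rw [h3]
      have := hD z hz
      push_cast at h
      linarith
  · obtain ⟨z, hz, h1, h2, h3⟩ := greedy pts w hw F hF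
    rcases Finset.eq_empty_or_nonempty (F.erase z) with hF2 | hF2
    · refine ⟨{z}, by simpa using hz, by simp, 0, le_rfl, ?_, ?_⟩
      · intro u hu
        rw [Finset.sdiff_singleton_eq_erase, hF2] at hu
        simp at hu
      · have := Tot_mono (kill_le (pts := pts) hw {z})
        linarith
    · obtain ⟨y, hy, h4, h5, h6⟩ := greedy pts (kill pts w {z}) (kill_nonneg hw {z}) _ hF2
      have hyF : y ∈ F := Finset.mem_of_mem_erase hy
      refine ⟨{z, y}, ?_, Finset.card_le_two, Val pts (kill pts w {z}) y,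
        Val_nonneg (kill_nonneg hw {z}) y, ?_, ?_⟩
      · intro a ha
        rw [Finset.mem_insert, Finset.mem_singleton] at ha
        rcases ha with rfl | rfl
        · exact hz
        · exact hyF
      · intro u hu
        have hu' := Finset.mem_sdiff.mp hu
        have : kill pts w {z, y} = kill pts (kill pts w {z}) {y} := by
          rw [kill_kill]; rfl
        rw [this]
        apply h5 u
        refine Finset.mem_erase.mpr ⟨?_, hu'.1⟩
        rintro rfl
        exact hu'.2 (by simp)
      · have : kill pts w {z, y} = kill pts (kill pts w {z}) {y} := by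
          rw [kill_kill]; rfl
        rw [this, h6, h3]
        have := h2 y hyF
        linarith

/-- Maker takes one point. -/
theorem move1 (pts : ι → Finset V) (w w' : ι → ℝ) (hw : ∀ c, 0 ≤ w c)
    (tI tII : ι → Prop) [DecidablePred tI] [DecidablePred tII] (x : V) (g f1 η D : ℝ)
    (hI : ∀ c, tI c → x ∈ pts c) (hII : ∀ c, tII c → x ∈ pts c) (hd : ∀ c, tI c → ¬ tII c)
    (hw' : ∀ c, w' c ≤ w c * (1 + (if tI c then g else 0) + (if tII c then f1 else 0)))
    (F : Finset V) (hx : x ∈ F) (hD : ∀ u ∈ F, Val pts w u ≤ D)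
    (hPB : ∀ u ∈ F.erase x, ∑ c, (if tI c ∧ u ∈ pts c then w c else 0) ≤ η * D)
    (hg0 : 0 ≤ g) (hf0 : 0 ≤ f1) (hη0 : 0 ≤ η) (h1 : g + η ≤ 1) (h2 : 2 * f1 + η ≤ 1)
    (hD0 : 0 ≤ D) :
    ∃ D', 0 ≤ D' ∧ (∀ u ∈ F.erase x, Val pts w' u ≤ D') ∧ Tot w' + D' ≤ Tot w + 2 * D := by
  set PI : ℝ := ∑ c, (if tI c then w c else 0) with hPI
  set PII : ℝ := ∑ c, (if tII c then w c else 0) with hPII
  have hPI0 : 0 ≤ PI := Finset.sum_nonneg fun c _ => by split_ifs; exacts [hw c, le_rfl]
  have hPII0 : 0 ≤ PII := Finset.sum_nonneg fun c _ => by split_ifs; exacts [hw c, le_rfl]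
  have hsum : PI + PII ≤ D := by
    refine le_trans ?_ (hD x hx)
    rw [hPI, hPII, ← Finset.sum_add_distrib]
    refine Finset.sum_le_sum fun c _ => ?_
    by_cases ha : tI c
    · have hb := hd c ha
      have hc := hI c ha
      simp [ha, hb, hc]
    · by_cases hb : tII c
      · have hc := hII c hb
        simp [ha, hb, hc]
      · simp only [ha, hb, if_false, add_zero]
        split_ifs
        · exact hw c
        · exact le_rfl
  have hTot : Tot w' ≤ Tot w + g * PI + f1 * PII := by
    unfold Tot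
    rw [hPI, hPII, Finset.mul_sum, Finset.mul_sum, ← Finset.sum_add_distrib,
      ← Finset.sum_add_distrib]
    refine Finset.sum_le_sum fun c _ => (hw' c).trans (le_of_eq ?_)
    split_ifs <;> ring
  refine ⟨D + g * (η * D) + f1 * PII, by positivity, ?_, ?_⟩
  · intro u hu
    have h3 := hPB u hu
    have h4 := hD u (Finset.mem_of_mem_erase hu)
    have h5 : Val pts w' u ≤ Val pts w u
        + g * ∑ c, (if tI c ∧ u ∈ pts c then w c else 0) + f1 * PII := by
      unfold Val
      rw [hPII, Finset.mul_sum, Finset.mul_sum, ← Finset.sum_add_distrib,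
        ← Finset.sum_add_distrib]
      refine Finset.sum_le_sum fun c _ => ?_
      by_cases hu : u ∈ pts c
      · simp only [hu, if_true, and_true]
        refine (hw' c).trans (le_of_eq ?_)
        split_ifs <;> ring
      · simp only [hu, if_false, and_false, mul_zero, zero_add]
        split_ifs
        · exact mul_nonneg hf0 (hw c)
        · simp
    have h6 : g * ∑ c, (if tI c ∧ u ∈ pts c then w c else 0) ≤ g * (η * D) :=
      mul_le_mul_of_nonneg_left h3 hg0
    linarith
  · have h7 : g * (η * D) ≤ η * D := by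
      have : 0 ≤ η * D := by positivity
      nlinarith
    have h8 : g * PI ≤ (1 - η) * PI := mul_le_mul_of_nonneg_right (by linarith) hPI0
    have h9 : (2 * f1) * PII ≤ (1 - η) * PII := mul_le_mul_of_nonneg_right (by linarith) hPII0
    have h10 : (1 - η) * (PI + PII) ≤ (1 - η) * D :=
      mul_le_mul_of_nonneg_left hsum (by linarith)
    nlinarith

/-- Maker takes two points. -/
theorem move2 (pts : ι → Finset V) (w w' : ι → ℝ) (hw : ∀ c, 0 ≤ w c)
    (tI tII : V → ι → Prop) [∀ x, DecidablePred (tI x)] [∀ x, DecidablePred (tII x)]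
    (x y : V) (g f1 η D : ℝ)
    (hI : ∀ x c, tI x c → x ∈ pts c) (hII : ∀ x c, tII x c → x ∈ pts c)
    (hd : ∀ x c, tI x c → ¬ tII x c)
    (hw' : ∀ c, w' c ≤ w c * ((1 + (if tI x c then g else 0) + (if tII x c then f1 else 0)) *
      (1 + (if tI y c then g else 0) + (if tII y c then f1 else 0))))
    (F : Finset V) (hx : x ∈ F) (hy : y ∈ F) (hD : ∀ u ∈ F, Val pts w u ≤ D)
    (hPBx : ∑ c, (if tI x c ∧ y ∈ pts c then w c else 0) ≤ η * D)
    (hPBy : ∑ c, (if tI y c ∧ x ∈ pts c then w c else 0) ≤ η * D)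
    (hg0 : 0 ≤ g) (hf0 : 0 ≤ f1) (hη0 : 0 ≤ η) (h1 : g + η ≤ 1) (h2 : 2 * f1 + η ≤ 1)
    (hD0 : 0 ≤ D) :
    Tot w' ≤ Tot w + 2 * D := by
  have hsum : ∀ z ∈ F, (∑ c, (if tI z c then w c else 0)) + (∑ c, (if tII z c then w c else 0))
      ≤ D := by
    intro z hz
    refine le_trans ?_ (hD z hz)
    rw [← Finset.sum_add_distrib]
    refine Finset.sum_le_sum fun c _ => ?_
    by_cases ha : tI z c
    · have hb := hd z c ha
      have hc := hI z c ha
      simp [ha, hb, hc]
    · by_cases hb : tII z c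
      · have hc := hII z c hb
        simp [ha, hb, hc]
      · simp only [ha, hb, if_false, add_zero]
        split_ifs
        · exact hw c
        · exact le_rfl
  have hnI : ∀ z, 0 ≤ ∑ c, (if tI z c then w c else 0) := fun z =>
    Finset.sum_nonneg fun c _ => by split_ifs; exacts [hw c, le_rfl]
  have hnII : ∀ z, 0 ≤ ∑ c, (if tII z c then w c else 0) := fun z =>
    Finset.sum_nonneg fun c _ => by split_ifs; exacts [hw c, le_rfl]
  have hg1 : g ≤ 1 := by linarith
  have hf1 : f1 ≤ 1 / 2 := by linarith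
  have hTot : Tot w' ≤ Tot w + (g * ∑ c, (if tI x c then w c else 0))
      + (f1 * ∑ c, (if tII x c then w c else 0))
      + (g * ∑ c, (if tI y c then w c else 0)) + (f1 * ∑ c, (if tII y c then w c else 0))
      + (∑ c, (if tI x c ∧ y ∈ pts c then w c else 0))
      + (∑ c, (if tI y c ∧ x ∈ pts c then w c else 0))
      + (f1 * f1) * ∑ c, (if tII x c then w c else 0) := by
    unfold Tot
    simp only [Finset.mul_sum]
    simp only [← Finset.sum_add_distrib]
    refine Finset.sum_le_sum fun c _ => (hw' c).trans ?_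
    have hwc := hw c
    have hIx := hI x c
    have hIy := hI y c
    have hIIx := hII x c
    have hIIy := hII y c
    have hdx := hd x c
    have hdy := hd y c
    by_cases a1 : tI x c
    · have a2 : ¬ tII x c := hdx a1
      have a3 : x ∈ pts c := hIx a1
      by_cases b1 : tI y c
      · have b2 : ¬ tII y c := hdy b1
        have b3 : y ∈ pts c := hIy b1
        simp only [a1, a2, a3, b1, b2, b3, if_true, if_false, and_true]
        nlinarith [mul_nonneg hwc hg0, mul_nonneg hg0 hg0]
      · by_cases b2 : tII y c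
        · have b3 : y ∈ pts c := hIIy b2
          simp only [a1, a2, a3, b1, b2, b3, if_true, if_false, and_true, false_and]
          nlinarith [mul_nonneg hwc hg0, mul_nonneg hg0 hf0, mul_nonneg hwc hf0,
            mul_nonneg (mul_nonneg hwc hg0) hf0,
            mul_le_mul hg1 (show f1 ≤ 1 by linarith) hf0 zero_le_one]
        · simp only [a1, a2, a3, b1, b2, if_true, if_false, false_and, true_and]
          split_ifs <;> nlinarith [mul_nonneg hwc hg0]
    · by_cases a2 : tII x c
      · have a3 : x ∈ pts c := hIIx a2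
        by_cases b1 : tI y c
        · have b2 : ¬ tII y c := hdy b1
          have b3 : y ∈ pts c := hIy b1
          simp only [a1, a2, a3, b1, b2, b3, if_true, if_false, and_true, false_and]
          nlinarith [mul_nonneg hwc hg0, mul_nonneg hg0 hf0, mul_nonneg hwc hf0,
            mul_nonneg (mul_nonneg hwc hg0) hf0, mul_nonneg (mul_nonneg hwc hf0) hf0,
            mul_le_mul hg1 (show f1 ≤ 1 by linarith) hf0 zero_le_one]
        · by_cases b2 : tII y c
          · have b3 : y ∈ pts c := hIIy b2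
            simp only [a1, a2, b1, b2, if_true, if_false, false_and]
            nlinarith [mul_nonneg hwc hf0]
          · simp only [a1, a2, b1, b2, if_true, if_false, false_and]
            nlinarith [mul_nonneg hwc hf0, mul_nonneg (mul_nonneg hwc hf0) hf0]
      · by_cases b1 : tI y c
        · have b2 : ¬ tII y c := hdy b1
          simp only [a1, a2, b1, b2, if_true, if_false, false_and, true_and]
          split_ifs <;> nlinarith [mul_nonneg hwc hg0]
        · by_cases b2 : tII y c
          · simp only [a1, a2, b1, b2, if_true, if_false, false_and]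
            nlinarith [mul_nonneg hwc hf0]
          · simp only [a1, a2, b1, b2, if_false, false_and]
            nlinarith
  have hx1 := hsum x hx
  have hy1 := hsum y hy
  have e1 : g * ∑ c, (if tI x c then w c else 0) ≤ (1 - η) * ∑ c, (if tI x c then w c else 0) :=
    mul_le_mul_of_nonneg_right (by linarith) (hnI x)
  have e2 : g * ∑ c, (if tI y c then w c else 0) ≤ (1 - η) * ∑ c, (if tI y c then w c else 0) :=
    mul_le_mul_of_nonneg_right (by linarith) (hnI y)
  have e3 : (f1 + f1 * f1) * ∑ c, (if tII x c then w c else 0)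
      ≤ (1 - η) * ∑ c, (if tII x c then w c else 0) :=
    mul_le_mul_of_nonneg_right (by nlinarith) (hnII x)
  have e4 : f1 * ∑ c, (if tII y c then w c else 0) ≤ (1 - η) * ∑ c, (if tII y c then w c else 0) :=
    mul_le_mul_of_nonneg_right (by linarith) (hnII y)
  have e5 : (1 - η) * ((∑ c, (if tI x c then w c else 0)) + (∑ c, (if tII x c then w c else 0)))
      ≤ (1 - η) * D := mul_le_mul_of_nonneg_left hx1 (by linarith)
  have e6 : (1 - η) * ((∑ c, (if tI y c then w c else 0)) + (∑ c, (if tII y c then w c else 0)))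
      ≤ (1 - η) * D := mul_le_mul_of_nonneg_left hy1 (by linarith)
  nlinarith

/-- Maker takes a set of at most two points. -/
theorem moveSet (pts : ι → Finset V) (w w' : ι → ℝ) (hw : ∀ c, 0 ≤ w c) (hw0' : ∀ c, 0 ≤ w' c)
    (tI tII : V → ι → Prop) [∀ x, DecidablePred (tI x)] [∀ x, DecidablePred (tII x)]
    (Δ : Finset V) (hΔ : Δ.card ≤ 2) (g f1 η D : ℝ)
    (hI : ∀ x c, tI x c → x ∈ pts c) (hII : ∀ x c, tII x c → x ∈ pts c)
    (hd : ∀ x c, tI x c → ¬ tII x c)
    (hw' : ∀ c, w' c ≤ w c *
      ∏ x ∈ Δ, (1 + (if tI x c then g else 0) + (if tII x c then f1 else 0)))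
    (F : Finset V) (hF : Δ ⊆ F) (hD : ∀ u ∈ F, Val pts w u ≤ D)
    (hPB : ∀ x ∈ Δ, ∀ u ∈ F, u ≠ x → ∑ c, (if tI x c ∧ u ∈ pts c then w c else 0) ≤ η * D)
    (hg0 : 0 ≤ g) (hf0 : 0 ≤ f1) (hη0 : 0 ≤ η) (h1 : g + η ≤ 1) (h2 : 2 * f1 + η ≤ 1)
    (hD0 : 0 ≤ D) :
    ∃ D', 0 ≤ D' ∧ (∀ u ∈ F \ Δ, Val pts w' u ≤ D') ∧
      Tot w' + (2 - (Δ.card : ℝ)) * D' ≤ Tot w + 2 * D := by
  have h012 : Δ.card = 0 ∨ Δ.card = 1 ∨ Δ.card = 2 := by omega
  rcases h012 with hc | hc | hc
  · rw [Finset.card_eq_zero] at hc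
    subst hc
    refine ⟨D, hD0, ?_, ?_⟩
    · intro u hu
      refine (Val_mono (fun c => ?_) u).trans (hD u (Finset.mem_sdiff.mp hu).1)
      have := hw' c
      simpa using this
    · have : Tot w' ≤ Tot w := Tot_mono fun c => by simpa using hw' c
      simp only [Finset.card_empty, Nat.cast_zero, sub_zero]
      linarith
  · obtain ⟨x, rfl⟩ := Finset.card_eq_one.mp hc
    have hx : x ∈ F := hF (by simp)
    obtain ⟨D', hD', h3, h4⟩ := move1 pts w w' hw (tI x) (tII x) x g f1 η D (hI x) (hII x) (hd x)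
      (fun c => by simpa using hw' c) F hx hD
      (fun u hu => hPB x (by simp) u (Finset.mem_of_mem_erase hu) (Finset.ne_of_mem_erase hu))
      hg0 hf0 hη0 h1 h2 hD0
    refine ⟨D', hD', ?_, ?_⟩
    · intro u hu
      exact h3 u (by rwa [Finset.sdiff_singleton_eq_erase] at hu)
    · rw [hc]; push_cast; linarith
  · obtain ⟨x, y, hxy, rfl⟩ := Finset.card_eq_two.mp hc
    have hx : x ∈ F := hF (by simp)
    have hy : y ∈ F := hF (by simp)
    have h3 := move2 pts w w' hw tI tII x y g f1 η D hI hII hd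
      (fun c => by simpa [Finset.prod_pair hxy] using hw' c) F hx hy hD
      (hPB x (by simp) y hy hxy.symm) (hPB y (by simp) x hx hxy)
      hg0 hf0 hη0 h1 h2 hD0
    refine ⟨Tot w', Tot_nonneg hw0', fun u _ => Val_le_Tot hw0' u, ?_⟩
    rw [hc]; push_cast; linarith

end gen

end Pool.Agent.Helper32.Lat
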