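import Mathlib

set_option autoImplicit false

namespace Pool.Agent.Helper32.Lat

/-- The numerical parameters of Breaker's strategy and the inequalities they satisfy. -/
structure Num where
  (n q r e d1 d2 cS cI m Q h r0 : ℕ)
  (b f β η K l1 l2 l3 : ℝ)
  hqn : q < n
  hf1 : 1 < f
  hfb : f ≤ b
  hη : 0 < η
  hbη : (b - 1) + η ≤ 1
  hfη : 2 * (f - 1) + η ≤ 1
  hβ : 0 < β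
  hl1 : 0 < l1
  hl2 : 0 < l2
  hl3 : 0 < l3
  hr0n : r0 + m * q ≤ n
  hQn : Q * q ≤ n
  h3n : 3 * q ≤ n
  hβ1 : ((n : ℝ) * (d1 : ℝ)) * b⁻¹ ^ (n - m * q) ≤ β
  hT1 : l1 * β ^ m * ((m : ℝ) + 1) * (cI : ℝ) ≤ 1 / 9
  hC1 : 1 < l1 * (b⁻¹ ^ r0 * f ^ (r0 - 8 * h)) ^ m
  hK : 0 < K
  hKr : 2 * ((Q : ℝ) * ((r : ℝ) * b⁻¹ ^ r0)) ≤ K
  hC2 : 1 < l2 * (K / 2) ^ Q
  hT2 : l2 * (cS : ℝ) ^ 2 * (d2 : ℝ) ^ Q * f⁻¹ ^ (Q * n - Q ^ 2 * q) ≤ 1 / 9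
  hC3 : 1 < l3 * f⁻¹ ^ (24 * h)
  hT3 : l3 * (cI : ℝ) * (r : ℝ) ^ 3 * f⁻¹ ^ (3 * n - 9 * q) ≤ 1 / 9
  hzone : 3 * ((r : ℝ) * f⁻¹ ^ h) ≤ 1 / 2
  hmq : m * q ≤ h
  hqh : q < h
  h8 : 8 * h ≤ r0
  hPB : β⁻¹ * b ^ (2 * (m * q)) * ((e : ℝ) + n) * K ≤ η

end Pool.Agent.Helper32.Lat
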