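import Mathlib
import Pool.Agent.Helper32.Lat.Sys
import Pool.Agent.Helper32.Lat.Geo

set_option autoImplicit false

namespace Pool.Agent.Helper32.Lat

open Finset

theorem card_filter_sub {α : Type} [DecidableEq α] (s : Finset α) (p : α → Prop)
    [DecidablePred p] [DecidablePred fun i : ↥s => p i.1] :
    (univ.filter fun i : ↥s => p i.1).card ≤ (s.filter p).card := by
  refine Finset.card_le_card_of_injOn (fun i : ↥s => i.1) ?_ ?_
  · intro i hi
    have h : p i.1 := by simpa using hi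
    rw [Finset.mem_coe, Finset.mem_filter]
    exact ⟨i.2, h⟩
  · intro i _ j _ h
    exact Subtype.ext h

/-- MODULE W2: the system attached to [N]^2, from Geo.lean and the output of `num` -/
theorem exists_sys (N q : ℕ) (hq : 2 ≤ q) (P : Num) (hn : P.n = q ^ 2) (hq' : P.q = q)
    (hr : P.r = 338 ^ 3 * q ^ 30) (he : P.e = 338 * q ^ 8)
    (hd1 : P.d1 = 338 * q ^ 8 * (2 * N + 1) ^ 4) (hd2 : P.d2 = 676 * q ^ 10 * (2 * N + 1) ^ 2)
    (hcS : P.cS = N ^ 2) (hcI : P.cI = N ^ 2 * (2 * N + 1) ^ 4) :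
    ∃ s : Sys (ℤ × ℤ) ↥(Idx N q), s.S = board N ∧ ∀ i, s.A i = lat q i.1 := by
  have g1 : (board N).card ≤ P.cS := by rw [hcS, board_card]
  have g2 : Fintype.card ↥(Idx N q) ≤ P.cI := by
    rw [hcI, Fintype.card_coe]; exact Idx_card N q
  have g3 : ∀ i : ↥(Idx N q), lat q i.1 ⊆ board N := fun i => (mem_Idx i.2).2.2.2.2
  have g4 : ∀ i : ↥(Idx N q), ext N q i.1 ⊆ board N := fun i => Finset.filter_subset _ _
  have g5 : ∀ i : ↥(Idx N q), (lat q i.1).card = P.n := fun i => by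
    rw [hn]; exact lat_card N q i.1 i.2
  have g6 : ∀ i j : ↥(Idx N q), P.q < (lat q i.1 ∩ lat q j.1).card → lat q i.1 ⊆ ext N q j.1 := by
    intro i j h; rw [hq'] at h; exact lat_sub_ext N q hq i.1 j.1 i.2 j.2 h
  have g7 : ∀ j : ↥(Idx N q),
      (univ.filter fun i : ↥(Idx N q) => P.q < (lat q i.1 ∩ ext N q j.1).card).card ≤ P.r := by
    intro j
    rw [hr, hq']
    exact (card_filter_sub (Idx N q) (fun t => q < (lat q t ∩ ext N q j.1).card)).trans
      (far1 N q hq j.1 j.2)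
  have g8 : ∀ i : ↥(Idx N q),
      (univ.filter fun j : ↥(Idx N q) => P.q < (lat q i.1 ∩ ext N q j.1).card).card ≤ P.r := by
    intro i
    rw [hr, hq']
    exact (card_filter_sub (Idx N q) (fun t => q < (lat q i.1 ∩ ext N q t).card)).trans
      (far2 N q hq i.1 i.2)
  have g9 : ∀ j : ↥(Idx N q), (ext N q j.1).card ≤ P.e := by
    intro j; rw [he]; exact ext_card N q hq j.1 j.2
  have g10 : ∀ z : ℤ × ℤ, (univ.filter fun j : ↥(Idx N q) => z ∈ ext N q j.1).card ≤ P.d1 := by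
    intro z
    rw [hd1]
    exact (card_filter_sub (Idx N q) (fun t => z ∈ ext N q t)).trans (deg1 N q hq z)
  have g11 : ∀ x z : ℤ × ℤ, x ≠ z →
      (univ.filter fun j : ↥(Idx N q) => x ∈ lat q j.1 ∧ z ∈ ext N q j.1).card ≤ P.d2 := by
    intro x z hxz
    rw [hd2]
    exact (card_filter_sub (Idx N q) (fun t => x ∈ lat q t ∧ z ∈ ext N q t)).trans
      (deg2 N q hq x z hxz)
  exact ⟨⟨P, board N, fun i => lat q i.1, fun i => ext N q i.1, g1, g2, g3, g4, g5, g6, g7, g8,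
    g9, g10, g11⟩, rfl, fun i => rfl⟩

end Pool.Agent.Helper32.Lat
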