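import Mathlib
import Pool.Agent.Helper32.Lat.NumDef

set_option autoImplicit false

namespace Pool.Agent.Helper32.Lat

/-- real powers of two -/
noncomputable def E2 (x : ℝ) : ℝ := (2 : ℝ) ^ x

lemma E2_pos (x : ℝ) : 0 < E2 x := Real.rpow_pos_of_pos two_pos x

lemma E2_add (x y : ℝ) : E2 x * E2 y = E2 (x + y) := (Real.rpow_add two_pos x y).symm

lemma E2_le {x y : ℝ} (h : x ≤ y) : E2 x ≤ E2 y :=
  Real.rpow_le_rpow_of_exponent_le one_le_two h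

lemma E2_lt {x y : ℝ} (h : x < y) : E2 x < E2 y :=
  Real.rpow_lt_rpow_of_exponent_lt one_lt_two h

lemma E2_inv (x : ℝ) : (E2 x)⁻¹ = E2 (-x) := (Real.rpow_neg two_pos.le x).symm

lemma E2_zero : E2 0 = 1 := Real.rpow_zero 2

lemma E2_nat (k : ℕ) : E2 (k : ℝ) = 2 ^ k := Real.rpow_natCast 2 k

lemma E2_pow (x : ℝ) (k : ℕ) : (E2 x) ^ k = E2 (k * x) := by
  rw [E2, E2, ← Real.rpow_natCast, ← Real.rpow_mul two_pos.le, mul_comm]

lemma mul_le_E2 {a b x y z : ℝ} (ha : a ≤ E2 x) (hb : b ≤ E2 y) (hb0 : 0 ≤ b)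
    (h : x + y ≤ z) : a * b ≤ E2 z :=
  (mul_le_mul ha hb hb0 (E2_pos x).le).trans (by rw [E2_add]; exact E2_le h)

lemma pow_le_E2 {a x z : ℝ} {k : ℕ} (ha0 : 0 ≤ a) (ha : a ≤ E2 x) (h : k * x ≤ z) :
    a ^ k ≤ E2 z :=
  (pow_le_pow_left₀ ha0 ha k).trans (by rw [E2_pow]; exact E2_le h)

lemma num_le_E2 {a : ℝ} (k : ℕ) {z : ℝ} (h : a ≤ 2 ^ k) (hz : (k : ℝ) ≤ z) : a ≤ E2 z := by
  refine (h.trans ?_)
  rw [← E2_nat]
  exact E2_le hz

/-- the base of type I -/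
noncomputable def bb (q : ℕ) : ℝ := 2 - 2 / ((q : ℝ) ^ 2)

lemma bb_pos {q : ℕ} (hq : 2 ≤ q) : 0 < bb q := by
  have h2 : (2 : ℝ) ≤ q := by exact_mod_cast hq
  have h4 : (4 : ℝ) ≤ (q : ℝ) ^ 2 := by nlinarith
  have : 2 / ((q : ℝ) ^ 2) ≤ 1 / 2 := by
    rw [div_le_div_iff₀ (by positivity) (by norm_num)]
    linarith
  unfold bb
  linarith

lemma bb_inv_pow {q k : ℕ} (hq : 2 ≤ q) (hk : k ≤ q ^ 2) : (bb q)⁻¹ ^ k ≤ E2 (2 - k) := by
  have h2 : (2 : ℝ) ≤ q := by exact_mod_cast hq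
  have h4 : (4 : ℝ) ≤ (q : ℝ) ^ 2 := by nlinarith
  set n : ℝ := (q : ℝ) ^ 2 with hn
  have hn0 : 0 < n := by linarith
  have hb : bb q = 2 * (1 + (-1 / n)) := by
    unfold bb
    rw [← hn]
    ring
  set t : ℝ := 1 + (-1 / n) with ht
  have hinv : 1 / n ≤ 1 / 4 := by
    rw [div_le_div_iff₀ hn0 (by norm_num)]
    linarith
  have ht0 : 0 < t := by
    have : -1 / n = -(1 / n) := by ring
    rw [ht, this]
    linarith
  have ht1 : t ≤ 1 := by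
    have : -1 / n = -(1 / n) := by ring
    have h0 : 0 < 1 / n := by positivity
    rw [ht, this]
    linarith
  have hhalf : (1 / 2 : ℝ) ≤ t ^ (n / 2) := by
    have := one_add_mul_self_le_rpow_one_add (s := -1 / n) (by
      have : -1 / n = -(1 / n) := by ring
      rw [this]; linarith) (p := n / 2) (by linarith)
    refine le_trans (le_of_eq ?_) this
    field_simp
    norm_num
  have hq2 : (1 / 4 : ℝ) ≤ t ^ (q ^ 2) := by
    have h5 : t ^ (q ^ 2) = (t ^ (n / 2)) ^ 2 := by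
      rw [← Real.rpow_natCast (t ^ (n / 2)) 2, ← Real.rpow_mul ht0.le, ← Real.rpow_natCast]
      congr 1
      push_cast
      rw [← hn]
      ring
    rw [h5]
    nlinarith
  have hk4 : (1 / 4 : ℝ) ≤ t ^ k := hq2.trans (pow_le_pow_of_le_one ht0.le ht1 hk)
  rw [hb, mul_inv, mul_pow, inv_pow, inv_pow]
  have h6 : (t ^ k)⁻¹ ≤ 4 := by
    rw [inv_le_comm₀ (by positivity) (by norm_num)]
    linarith
  have h7 : E2 (2 - k) = ((2 : ℝ) ^ k)⁻¹ * 4 := by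
    have : (2 : ℝ) - k = -(k : ℝ) + (2 : ℕ) := by push_cast; ring
    rw [this, ← E2_add, E2_nat, ← E2_inv, E2_nat]
    norm_num
  rw [h7]
  exact mul_le_mul_of_nonneg_left h6 (by positivity)

lemma bb_inv_pow_ge {q : ℕ} (k : ℕ) (hq : 2 ≤ q) : E2 (-(k : ℝ)) ≤ (bb q)⁻¹ ^ k := by
  have h : bb q ≤ 2 := by
    unfold bb
    have : 0 ≤ 2 / ((q : ℝ) ^ 2) := by positivity
    linarith
  rw [← E2_inv, E2_nat, ← inv_pow]
  apply pow_le_pow_left₀ (by norm_num)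
  exact inv_anti₀ (bb_pos hq) h

lemma bb_pow_le {q : ℕ} (k : ℕ) (hq : 2 ≤ q) : (bb q) ^ k ≤ E2 (k : ℝ) := by
  have h : bb q ≤ 2 := by
    unfold bb
    have : 0 ≤ 2 / ((q : ℝ) ^ 2) := by positivity
    linarith
  rw [E2_nat]
  exact pow_le_pow_left₀ (bb_pos hq).le h k

/-- the base of type II -/
noncomputable def fb : ℝ := 149 / 100

lemma fb_pos : 0 < fb := by unfold fb; norm_num

lemma fb_ge : E2 (4 / 7) ≤ fb := by
  have h : (E2 (4 / 7)) ^ 7 ≤ fb ^ 7 := by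
    rw [E2_pow]
    have : ((7 : ℕ) : ℝ) * (4 / 7) = ((4 : ℕ) : ℝ) := by norm_num
    rw [this, E2_nat]
    unfold fb
    norm_num
  exact le_of_pow_le_pow_left₀ (by norm_num) fb_pos.le h

lemma fb_le : fb ≤ E2 1 := by
  have : E2 1 = 2 := by simp [E2]
  rw [this]; unfold fb; norm_num

lemma fb_pow_ge (k : ℕ) : E2 (4 / 7 * k) ≤ fb ^ k := by
  have := pow_le_pow_left₀ (E2_pos _).le fb_ge k
  rwa [E2_pow, mul_comm] at this

lemma fb_inv_pow_le (k : ℕ) : fb⁻¹ ^ k ≤ E2 (-(4 / 7 * k)) := by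
  rw [← E2_inv, inv_pow]
  exact inv_anti₀ (E2_pos _) (fb_pow_ge k)

lemma fb_inv_pow_ge (k : ℕ) : E2 (-(k : ℝ)) ≤ fb⁻¹ ^ k := by
  rw [← E2_inv, inv_pow]
  apply inv_anti₀ (pow_pos fb_pos k)
  have := pow_le_pow_left₀ fb_pos.le fb_le k
  rwa [E2_pow, mul_one] at this


theorem num_q (κ : ℕ) (hκ : 50 ≤ κ) : ∃ q0 : ℕ, ∀ q : ℕ, q0 ≤ q → ∀ N : ℕ, 1 ≤ N →
    (N : ℝ) ^ 4 ≤ (2 : ℝ) ^ ((1 - 1 / (κ : ℝ)) * (q : ℝ) ^ 2) →
    ∃ P : Num, P.n = q ^ 2 ∧ P.q = q ∧ P.r = 338 ^ 3 * q ^ 30 ∧ P.e = 338 * q ^ 8 ∧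
      P.d1 = 338 * q ^ 8 * (2 * N + 1) ^ 4 ∧ P.d2 = 676 * q ^ 10 * (2 * N + 1) ^ 2 ∧
      P.cS = N ^ 2 ∧ P.cI = N ^ 2 * (2 * N + 1) ^ 4 := by
  refine ⟨10 ^ 6 * κ ^ 2, ?_⟩
  intro q hq0 N hN1 hNq
  have hκr : (50 : ℝ) ≤ κ := by exact_mod_cast hκ
  have hκ1 : 1 ≤ κ := by omega
  have hκpos : (0 : ℝ) < κ := by linarith
  have hqκ : (10 ^ 6 : ℝ) * (κ : ℝ) ^ 2 ≤ q := by exact_mod_cast hq0
  set u : ℝ := (q : ℝ) with hu
  have hκ2 : (2500 : ℝ) ≤ (κ : ℝ) ^ 2 := by nlinarith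
  have hu1 : (2500000000 : ℝ) ≤ u := by nlinarith
  have hu0 : 0 < u := by linarith
  have hq2 : 2 ≤ q := by
    have : (2 : ℝ) ≤ (q : ℝ) := by linarith
    exact_mod_cast this
  set n : ℝ := u ^ 2 with hn
  set D : ℝ := n / κ with hD
  have hn0 : 0 < n := by positivity
  have hD0 : 0 < D := by positivity
  have hκD : κ * D = n := by rw [hD]; field_simp
  have hDn : 50 * D ≤ n := by rw [← hκD]; nlinarith
  set v : ℝ := κ * u with hv
  have hvD : 10 ^ 6 * v ≤ D := by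
    rw [hD, le_div_iff₀ hκpos, hv, hn]
    nlinarith
  have huv : 50 * u ≤ v := by rw [hv]; nlinarith
  have hκv : (κ : ℝ) ≤ v := by rw [hv]; nlinarith
  -- polynomial factors
  have hpoly : (10 ^ 12 : ℝ) * u ^ 30 ≤ E2 (D / 1000) := by
    have h1 : (10 ^ 12 : ℝ) ≤ 2 ^ 40 := by norm_num
    have h2 : u ≤ 2 ^ q := by
      have : q ≤ 2 ^ q := (Nat.lt_two_pow_self).le
      rw [hu]
      exact_mod_cast this
    have h3 : u ^ 30 ≤ E2 (30 * u) := by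
      have h := pow_le_pow_left₀ hu0.le h2 30
      rw [← E2_nat, E2_pow] at h
      refine h.trans (le_of_eq ?_)
      rw [hu]
      norm_num
    have h4 : (10 ^ 12 : ℝ) ≤ E2 40 := num_le_E2 40 h1 (by norm_num)
    exact mul_le_E2 h4 h3 (by positivity) (by linarith)
  have hu30 : ∀ k : ℕ, k ≤ 30 → u ^ k ≤ u ^ 30 := fun k hk =>
    pow_le_pow_right₀ (by linarith) hk
  have hu30' : (0 : ℝ) < u ^ 30 := by positivity
  have hpolyk : ∀ (k : ℕ) (c : ℝ), k ≤ 30 → 0 ≤ c → c ≤ 10 ^ 12 → c * u ^ k ≤ E2 (D / 1000) := by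
    intro k c hk hc hc'
    refine le_trans ?_ hpoly
    exact mul_le_mul hc' (hu30 k hk) (by positivity) (by positivity)
  -- N
  have hNr : (1 : ℝ) ≤ N := by exact_mod_cast hN1
  have hN4 : (N : ℝ) ^ 4 ≤ E2 (n - D) := by
    refine hNq.trans (le_of_eq ?_)
    unfold E2
    congr 1
    rw [hD, hn]
    ring
  have hN2 : (N : ℝ) ^ 2 ≤ E2 ((n - D) / 2) := by
    apply le_of_pow_le_pow_left₀ (two_ne_zero) (E2_pos _).le
    rw [E2_pow]
    refine le_trans (le_of_eq (by ring)) (hN4.trans (E2_le ?_))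
    push_cast
    linarith
  have h2N : (2 * (N : ℝ) + 1) ≤ 3 * N := by linarith
  have h2N0 : (0 : ℝ) ≤ 2 * (N : ℝ) + 1 := by linarith
  -- nat parameters
  have hqq : ((q ^ 2 : ℕ) : ℝ) = n := by push_cast; rfl
  set r0 : ℕ := q ^ 2 / κ with hr0
  set h : ℕ := q ^ 2 / (100 * κ) with hh
  have hr0le : (r0 : ℝ) ≤ D := by
    rw [hD, ← hqq]
    exact Nat.cast_div_le
  have hr0ge : D - 1 ≤ (r0 : ℝ) := by
    have h1 : q ^ 2 < κ * (r0 + 1) := Nat.lt_mul_div_succ _ (by omega)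
    have h2 : n < κ * ((r0 : ℝ) + 1) := by rw [← hqq]; exact_mod_cast h1
    rw [hD]
    have : n / κ < (r0 : ℝ) + 1 := by
      rw [div_lt_iff₀ hκpos]; linarith
    linarith
  have hhle : (h : ℝ) ≤ D / 100 := by
    have h1 : (h : ℝ) ≤ ((q ^ 2 : ℕ) : ℝ) / ((100 * κ : ℕ) : ℝ) := Nat.cast_div_le
    rw [hqq] at h1
    refine h1.trans (le_of_eq ?_)
    rw [hD]
    push_cast
    field_simp
  have hhge : D / 100 - 1 ≤ (h : ℝ) := by
    have h1 : q ^ 2 < (100 * κ) * (h + 1) := Nat.lt_mul_div_succ _ (by omega)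
    have h2 : n < (100 * κ) * ((h : ℝ) + 1) := by rw [← hqq]; exact_mod_cast h1
    have h3 : D < 100 * ((h : ℝ) + 1) := by
      rw [hD, div_lt_iff₀ hκpos]; linarith
    linarith
  have h8 : 8 * h ≤ r0 := by
    have : (8 : ℝ) * h ≤ r0 := by nlinarith
    exact_mod_cast this
  have hmq : 5 * κ * q ≤ h := by
    have : (5 : ℝ) * κ * q ≤ h := by
      have : (5 : ℝ) * κ * q = 5 * v := by rw [hv]; ring
      rw [this]; linarith
    exact_mod_cast this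
  have hr0n : r0 + 5 * κ * q ≤ q ^ 2 := by
    have : (r0 : ℝ) + 5 * κ * q ≤ ((q ^ 2 : ℕ) : ℝ) := by
      have : (5 : ℝ) * κ * q = 5 * v := by rw [hv]; ring
      rw [this, hqq]; linarith
    exact_mod_cast this
  have h30q : 30 * q ≤ q ^ 2 := by
    have : (30 : ℝ) * q ≤ ((q ^ 2 : ℕ) : ℝ) := by
      rw [hqq]
      show 30 * u ≤ n
      linarith
    exact_mod_cast this
  have h900 : 900 * q ≤ 30 * q ^ 2 := by omega
  have hr08 : (((r0 - 8 * h : ℕ)) : ℝ) = (r0 : ℝ) - 8 * h := by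
    rw [Nat.cast_sub h8]; push_cast; ring
  have hbm : ((q ^ 2 - 5 * κ * q : ℕ) : ℝ) = n - 5 * v := by
    rw [Nat.cast_sub (by omega), hqq]; push_cast; rw [hv]; ring
  have hb0 := bb_pos hq2
  have hfp := fb_pos
  have hfi : (0 : ℝ) < fb⁻¹ := inv_pos.2 hfp
  have hn12 : 12 * 10 ^ 6 ≤ n := by nlinarith
  -- the base of hT1
  set W : ℝ := (bb q)⁻¹ ^ r0 * fb ^ (r0 - 8 * h) with hW
  have hWpos : 0 < W := by positivity
  have hWge : E2 (-D + 4 / 7 * (23 / 25 * D - 1)) ≤ W := by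
    have h1 := bb_inv_pow_ge r0 hq2
    have h2 := fb_pow_ge (r0 - 8 * h)
    have h3 : E2 (-(r0 : ℝ)) * E2 (4 / 7 * ((r0 - 8 * h : ℕ) : ℝ)) ≤ W :=
      mul_le_mul h1 h2 (E2_pos _).le (by positivity)
    refine le_trans ?_ h3
    rw [E2_add, hr08]
    apply E2_le
    linarith
  set K : ℝ := E2 (-(95 / 100 * D)) with hK
  have hKpos : 0 < K := E2_pos _
  set β : ℝ := E2 (-(9 / 10 * D)) with hβ
  have hβpos : 0 < β := E2_pos _
  refine ⟨{
    n := q ^ 2, q := q, r := 338 ^ 3 * q ^ 30, e := 338 * q ^ 8,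
    d1 := 338 * q ^ 8 * (2 * N + 1) ^ 4, d2 := 676 * q ^ 10 * (2 * N + 1) ^ 2, cS := N ^ 2,
    cI := N ^ 2 * (2 * N + 1) ^ 4, m := 5 * κ, Q := 30, h := h, r0 := r0, b := bb q, f := fb,
    β := β, η := 1 / n, K := K, l1 := 2 / W ^ (5 * κ), l2 := 2 / (K / 2) ^ 30,
    l3 := 2 / fb⁻¹ ^ (24 * h),
    hqn := ?_, hf1 := ?_, hfb := ?_, hη := ?_, hbη := ?_, hfη := ?_, hβ := ?_, hl1 := ?_,
    hl2 := ?_, hl3 := ?_, hr0n := ?_, hQn := ?_, h3n := ?_, hβ1 := ?_, hT1 := ?_, hC1 := ?_,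
    hK := ?_, hKr := ?_, hC2 := ?_, hT2 := ?_, hC3 := ?_, hT3 := ?_, hzone := ?_, hmq := ?_,
    hqh := ?_, h8 := ?_, hPB := ?_ }, rfl, rfl, rfl, rfl, rfl, rfl, rfl, rfl⟩
  · nlinarith
  · unfold fb; norm_num
  · unfold fb bb
    have : 2 / ((q : ℝ) ^ 2) ≤ 1 / 2 := by
      rw [div_le_div_iff₀ (by positivity) (by norm_num)]
      show (2 : ℝ) * 2 ≤ 1 * n
      linarith
    linarith
  · positivity
  · unfold bb
    show 2 - 2 / n - 1 + 1 / n ≤ 1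
    have : 2 / n = 2 * (1 / n) := by ring
    have h0 : 0 < 1 / n := by positivity
    rw [this]; linarith
  · unfold fb
    have : 1 / n ≤ 1 / 100 := by
      rw [div_le_div_iff₀ (by positivity) (by norm_num)]
      linarith
    linarith
  · exact hβpos
  · positivity
  · positivity
  · positivity
  · exact hr0n
  · exact h30q
  · omega
  · -- hβ1
    have h1 : ((q ^ 2 : ℕ) : ℝ) * ((338 * q ^ 8 * (2 * N + 1) ^ 4 : ℕ) : ℝ)
        ≤ (27378 * u ^ 10) * (N : ℝ) ^ 4 := by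
      push_cast
      have h2 : (2 * (N : ℝ) + 1) ^ 4 ≤ (3 * N) ^ 4 := pow_le_pow_left₀ h2N0 h2N 4
      calc (q : ℝ) ^ 2 * (338 * (q : ℝ) ^ 8 * (2 * (N : ℝ) + 1) ^ 4)
          = (338 * u ^ 10) * (2 * (N : ℝ) + 1) ^ 4 := by rw [hu]; ring
        _ ≤ (338 * u ^ 10) * (3 * N) ^ 4 := mul_le_mul_of_nonneg_left h2 (by positivity)
        _ = _ := by ring
    have h3 : ((q ^ 2 : ℕ) : ℝ) * ((338 * q ^ 8 * (2 * N + 1) ^ 4 : ℕ) : ℝ)
        ≤ E2 (D / 1000 + (n - D)) :=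
      h1.trans (mul_le_E2 (hpolyk 10 _ (by norm_num) (by norm_num) (by norm_num)) hN4
        (by positivity) le_rfl)
    refine mul_le_E2 h3 (bb_inv_pow hq2 (Nat.sub_le _ _)) (by positivity) ?_
    rw [hbm]
    linarith
  · -- hT1
    have hWm : 2 / W ^ (5 * κ) ≤ E2 (1 + (83 / 35 * n + 3 * v)) := by
      have h1 : E2 (-(83 / 35 * n + 3 * v)) ≤ W ^ (5 * κ) := by
        have h2 := pow_le_pow_left₀ (E2_pos _).le hWge (5 * κ)
        rw [E2_pow] at h2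
        refine le_trans (E2_le ?_) h2
        push_cast
        have : 5 * (κ : ℝ) * (-D + 4 / 7 * (23 / 25 * D - 1))
            = -(83 / 35 * (κ * D)) - 20 / 7 * κ := by ring
        rw [this, hκD]
        linarith
      rw [div_eq_mul_inv]
      refine mul_le_E2 (x := 1) (y := 83 / 35 * n + 3 * v) (num_le_E2 1 (by norm_num) (by norm_num))
        ?_ (by positivity) le_rfl
      have h3 := inv_anti₀ (E2_pos _) h1
      rw [E2_inv, neg_neg] at h3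
      exact h3
    have hβm : β ^ (5 * κ) ≤ E2 (-(9 / 2 * n)) := by
      rw [hβ, E2_pow]
      apply E2_le
      push_cast
      have : 5 * (κ : ℝ) * -(9 / 10 * D) = -(9 / 2 * (κ * D)) := by ring
      rw [this, hκD]
    have hm1 : (((5 * κ : ℕ) : ℝ) + 1) ≤ E2 (D / 1000) := by
      have h1 := hpolyk 1 1 (by norm_num) (by norm_num) (by norm_num)
      refine le_trans ?_ h1
      push_cast
      rw [one_mul, pow_one]
      nlinarith
    have hcI : ((N ^ 2 * (2 * N + 1) ^ 4 : ℕ) : ℝ) ≤ E2 (7 + 3 / 2 * (n - D)) := by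
      push_cast
      have h2 : (2 * (N : ℝ) + 1) ^ 4 ≤ (3 * N) ^ 4 := pow_le_pow_left₀ h2N0 h2N 4
      have h3 : (N : ℝ) ^ 2 * (2 * (N : ℝ) + 1) ^ 4 ≤ 81 * ((N : ℝ) ^ 2 * (N : ℝ) ^ 4) := by
        calc (N : ℝ) ^ 2 * (2 * (N : ℝ) + 1) ^ 4 ≤ (N : ℝ) ^ 2 * (3 * N) ^ 4 :=
              mul_le_mul_of_nonneg_left h2 (by positivity)
          _ = _ := by ring
      refine h3.trans ?_
      refine mul_le_E2 (x := 7) (num_le_E2 7 (by norm_num) (by norm_num))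
        (mul_le_E2 hN2 hN4 (by positivity) le_rfl) (by positivity) ?_
      linarith
    have h5 : 2 / W ^ (5 * κ) * β ^ (5 * κ) * (((5 * κ : ℕ) : ℝ) + 1)
        * ((N ^ 2 * (2 * N + 1) ^ 4 : ℕ) : ℝ) ≤ E2 (-4) := by
      refine mul_le_E2 (mul_le_E2 (mul_le_E2 hWm hβm (by positivity) le_rfl) hm1
        (by positivity) le_rfl) hcI (by positivity) ?_
      linarith
    refine h5.trans ?_
    have : E2 (-4) = 1 / 16 := by
      have h6 : (-4 : ℝ) = -((4 : ℕ) : ℝ) := by norm_num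
      rw [h6, ← E2_inv, E2_nat]; norm_num
    rw [this]; norm_num
  · -- hC1
    rw [div_mul_cancel₀ _ (by positivity)]
    norm_num
  · exact hKpos
  · -- hKr
    push_cast
    have h1 : 2 * (30 * (38614472 * (q : ℝ) ^ 30 * (bb q)⁻¹ ^ r0))
        = (60 * 338 ^ 3 * u ^ 30) * (bb q)⁻¹ ^ r0 := by rw [hu]; ring
    rw [h1]
    refine mul_le_E2 (hpolyk 30 _ le_rfl (by norm_num) (by norm_num))
      (bb_inv_pow hq2 (by omega)) (by positivity) ?_
    linarith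
  · -- hC2
    rw [div_mul_cancel₀ _ (by positivity)]
    norm_num
  · -- hT2
    have hl2 : 2 / (K / 2) ^ 30 ≤ E2 (31 + 57 / 2 * D) := by
      have h1 : K / 2 = E2 (-(95 / 100 * D) - 1) := by
        have h2 : E2 (-1) = 1 / 2 := by
          have h6 : (-1 : ℝ) = -((1 : ℕ) : ℝ) := by norm_num
          rw [h6, ← E2_inv, E2_nat]; norm_num
        have h3 : -(95 / 100 * D) - 1 = -(95 / 100 * D) + (-1) := by ring
        rw [h3, ← E2_add, h2, hK]; ring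
      rw [h1, E2_pow, div_eq_mul_inv, E2_inv]
      refine mul_le_E2 (x := 1) (num_le_E2 1 (by norm_num) (by norm_num)) le_rfl (E2_pos _).le ?_
      push_cast
      linarith
    have hcS : ((N ^ 2 : ℕ) : ℝ) ^ 2 ≤ E2 (n - D) := by
      push_cast
      refine le_trans (le_of_eq (by ring)) hN4
    have hd2 : ((676 * q ^ 10 * (2 * N + 1) ^ 2 : ℕ) : ℝ) ^ 30
        ≤ E2 (30 * (D / 1000 + (n - D) / 2)) := by
      have h1 : ((676 * q ^ 10 * (2 * N + 1) ^ 2 : ℕ) : ℝ) ≤ E2 (D / 1000 + (n - D) / 2) := by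
        push_cast
        have h2 : (2 * (N : ℝ) + 1) ^ 2 ≤ (3 * N) ^ 2 := pow_le_pow_left₀ h2N0 h2N 2
        have h3 : 676 * (q : ℝ) ^ 10 * (2 * (N : ℝ) + 1) ^ 2 ≤ (6084 * u ^ 10) * (N : ℝ) ^ 2 := by
          calc 676 * (q : ℝ) ^ 10 * (2 * (N : ℝ) + 1) ^ 2
              ≤ 676 * (q : ℝ) ^ 10 * (3 * N) ^ 2 := mul_le_mul_of_nonneg_left h2 (by positivity)
            _ = _ := by rw [hu]; ring
        exact h3.trans (mul_le_E2 (hpolyk 10 _ (by norm_num) (by norm_num) (by norm_num)) hN2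
          (by positivity) le_rfl)
      exact pow_le_E2 (by positivity) h1 (by norm_num)
    have hff : fb⁻¹ ^ (30 * q ^ 2 - 30 ^ 2 * q) ≤ E2 (-(4 / 7 * (30 * n - 900 * u))) := by
      refine (fb_inv_pow_le _).trans (le_of_eq ?_)
      congr 3
      rw [Nat.cast_sub (by omega)]
      push_cast
      rw [hn]
    have h5 : 2 / (K / 2) ^ 30 * ((N ^ 2 : ℕ) : ℝ) ^ 2
        * ((676 * q ^ 10 * (2 * N + 1) ^ 2 : ℕ) : ℝ) ^ 30
        * fb⁻¹ ^ (30 * q ^ 2 - 30 ^ 2 * q) ≤ E2 (-4) := by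
      refine mul_le_E2 (mul_le_E2 (mul_le_E2 hl2 hcS (by positivity) le_rfl) hd2
        (by positivity) le_rfl) hff (by positivity) ?_
      linarith
    refine h5.trans ?_
    have : E2 (-4) = 1 / 16 := by
      have h6 : (-4 : ℝ) = -((4 : ℕ) : ℝ) := by norm_num
      rw [h6, ← E2_inv, E2_nat]; norm_num
    rw [this]; norm_num
  · -- hC3
    rw [div_mul_cancel₀ _ (by positivity)]
    norm_num
  · -- hT3
    have hl3 : 2 / fb⁻¹ ^ (24 * h) ≤ E2 (1 + 6 / 25 * D) := by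
      have h1 := fb_inv_pow_ge (24 * h)
      have h3 := inv_anti₀ (E2_pos _) h1
      rw [E2_inv, neg_neg] at h3
      rw [div_eq_mul_inv]
      refine mul_le_E2 (x := 1) (num_le_E2 1 (by norm_num) (by norm_num)) h3 (by positivity) ?_
      push_cast
      linarith
    have hcI : ((N ^ 2 * (2 * N + 1) ^ 4 : ℕ) : ℝ) ≤ E2 (7 + 3 / 2 * (n - D)) := by
      push_cast
      have h2 : (2 * (N : ℝ) + 1) ^ 4 ≤ (3 * N) ^ 4 := pow_le_pow_left₀ h2N0 h2N 4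
      have h3 : (N : ℝ) ^ 2 * (2 * (N : ℝ) + 1) ^ 4 ≤ 81 * ((N : ℝ) ^ 2 * (N : ℝ) ^ 4) := by
        calc (N : ℝ) ^ 2 * (2 * (N : ℝ) + 1) ^ 4 ≤ (N : ℝ) ^ 2 * (3 * N) ^ 4 :=
              mul_le_mul_of_nonneg_left h2 (by positivity)
          _ = _ := by ring
      refine h3.trans ?_
      refine mul_le_E2 (x := 7) (num_le_E2 7 (by norm_num) (by norm_num))
        (mul_le_E2 hN2 hN4 (by positivity) le_rfl) (by positivity) ?_
      linarith
    have hr3 : ((338 ^ 3 * q ^ 30 : ℕ) : ℝ) ^ 3 ≤ E2 (3 * (D / 1000)) := by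
      refine pow_le_E2 (x := D / 1000) (by positivity) ?_ (by norm_num)
      push_cast
      exact hpolyk 30 _ le_rfl (by norm_num) (by norm_num)
    have hff : fb⁻¹ ^ (3 * q ^ 2 - 9 * q) ≤ E2 (-(4 / 7 * (3 * n - 9 * u))) := by
      refine (fb_inv_pow_le _).trans (le_of_eq ?_)
      congr 3
      rw [Nat.cast_sub (by nlinarith)]
      push_cast
      rw [hn]
    have h5 : 2 / fb⁻¹ ^ (24 * h) * ((N ^ 2 * (2 * N + 1) ^ 4 : ℕ) : ℝ)
        * ((338 ^ 3 * q ^ 30 : ℕ) : ℝ) ^ 3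
        * fb⁻¹ ^ (3 * q ^ 2 - 9 * q) ≤ E2 (-4) := by
      refine mul_le_E2 (mul_le_E2 (mul_le_E2 hl3 hcI (by positivity) le_rfl) hr3
        (by positivity) le_rfl) hff (by positivity) ?_
      linarith
    refine h5.trans ?_
    have : E2 (-4) = 1 / 16 := by
      have h6 : (-4 : ℝ) = -((4 : ℕ) : ℝ) := by norm_num
      rw [h6, ← E2_inv, E2_nat]; norm_num
    rw [this]; norm_num
  · -- hzone
    push_cast
    have h1 : 3 * (38614472 * (q : ℝ) ^ 30 * fb⁻¹ ^ h)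
        = (3 * 338 ^ 3 * u ^ 30) * fb⁻¹ ^ h := by rw [hu]; ring
    rw [h1]
    have h2 : E2 (-1) = 1 / 2 := by
      have h6 : (-1 : ℝ) = -((1 : ℕ) : ℝ) := by norm_num
      rw [h6, ← E2_inv, E2_nat]; norm_num
    rw [← h2]
    refine mul_le_E2 (hpolyk 30 _ le_rfl (by norm_num) (by norm_num))
      (fb_inv_pow_le h) (by positivity) ?_
    linarith
  · exact hmq
  · -- hqh
    have : q < 5 * κ * q := by nlinarith
    omega
  · exact h8
  · -- hPB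
    have h1 : β⁻¹ = E2 (9 / 10 * D) := by rw [hβ, E2_inv, neg_neg]
    have h2 : bb q ^ (2 * (5 * κ * q)) ≤ E2 (10 * v) := by
      refine (bb_pow_le _ hq2).trans (le_of_eq ?_)
      congr 1
      push_cast
      rw [hv, hu]; ring
    have h3 : (((338 * q ^ 8 : ℕ) : ℝ) + ((q ^ 2 : ℕ) : ℝ)) ≤ E2 (D / 1000) := by
      push_cast
      refine le_trans ?_ (hpolyk 8 339 (by norm_num) (by norm_num) (by norm_num))
      have h4 : (q : ℝ) ^ 2 ≤ u ^ 8 := pow_le_pow_right₀ (by linarith) (by norm_num)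
      have h5 : (q : ℝ) ^ 8 = u ^ 8 := rfl
      rw [h5]
      linarith
    have h6 : E2 (-(D / 1000)) ≤ 1 / n := by
      rw [← E2_inv, one_div]
      apply inv_anti₀ hn0
      have := hpolyk 2 1 (by norm_num) (by norm_num) (by norm_num)
      rw [one_mul] at this
      exact this
    refine le_trans ?_ h6
    refine mul_le_E2 (mul_le_E2 (mul_le_E2 h1.le h2 (by positivity) le_rfl) h3
      (by positivity) le_rfl) hK.le hKpos.le ?_
    linarith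


/-- final form -/
theorem num (c : ℝ) (hc : 2 < c) : ∃ N0 : ℕ, ∀ N : ℕ, N0 ≤ N →
    ∀ q : ℕ, q = ⌊c * Real.sqrt (Real.logb 2 (N : ℝ))⌋₊ →
    2 ≤ q ∧ ∃ P : Num, P.n = q ^ 2 ∧ P.q = q ∧ P.r = 338 ^ 3 * q ^ 30 ∧ P.e = 338 * q ^ 8 ∧
      P.d1 = 338 * q ^ 8 * (2 * N + 1) ^ 4 ∧ P.d2 = 676 * q ^ 10 * (2 * N + 1) ^ 2 ∧
      P.cS = N ^ 2 ∧ P.cI = N ^ 2 * (2 * N + 1) ^ 4 := by
  set c' : ℝ := (c + 2) / 2 with hc'
  have hc'2 : 2 < c' := by rw [hc']; linarith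
  have hc'c : c' < c := by rw [hc']; linarith
  have hgap : 0 < 1 - 4 / c' ^ 2 := by
    have : 4 / c' ^ 2 < 1 := by
      rw [div_lt_one (by positivity)]
      nlinarith
    linarith
  obtain ⟨κ', hκ'⟩ := exists_nat_gt (1 / (1 - 4 / c' ^ 2))
  set κ : ℕ := max κ' 50 with hκdef
  have hκ50 : 50 ≤ κ := le_max_right _ _
  have hκr : (50 : ℝ) ≤ κ := by exact_mod_cast hκ50
  have hκ1 : 1 / (1 - 4 / c' ^ 2) < κ := by
    refine hκ'.trans_le ?_
    exact_mod_cast le_max_left _ _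
  have hκ2 : 1 / (κ : ℝ) < 1 - 4 / c' ^ 2 := by
    rw [div_lt_comm₀ hgap (by linarith)] at hκ1
    exact hκ1
  have hκ3 : 4 ≤ (1 - 1 / (κ : ℝ)) * c' ^ 2 := by
    have h1 : 4 / c' ^ 2 ≤ 1 - 1 / (κ : ℝ) := by linarith
    rwa [div_le_iff₀ (by positivity)] at h1
  obtain ⟨q0, hq0⟩ := num_q κ hκ50
  -- the threshold for sqrt L
  set T : ℝ := max (1 / (c - c')) (max (q0 : ℝ) 2) with hT
  have hlim : Filter.Tendsto (fun N : ℕ => Real.sqrt (Real.logb 2 (N : ℝ))) Filter.atTop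
      Filter.atTop := by
    refine Real.tendsto_sqrt_atTop.comp ?_
    exact (Real.tendsto_logb_atTop one_lt_two).comp tendsto_natCast_atTop_atTop
  obtain ⟨N0, hN0⟩ := (hlim.eventually_ge_atTop T).exists_forall_of_atTop
  refine ⟨max N0 1, ?_⟩
  intro N hN q hq
  have hN1 : 1 ≤ N := (le_max_right _ _).trans hN
  have hTN := hN0 N ((le_max_left _ _).trans hN)
  set s : ℝ := Real.sqrt (Real.logb 2 (N : ℝ)) with hs
  have hs1 : 1 / (c - c') ≤ s := (le_max_left _ _).trans hTN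
  have hs2 : (q0 : ℝ) ≤ s := ((le_max_left _ _).trans (le_max_right _ _)).trans hTN
  have hs3 : (2 : ℝ) ≤ s := ((le_max_right _ _).trans (le_max_right _ _)).trans hTN
  have hqge : c' * s ≤ q := by
    have h1 : c * s < (q : ℝ) + 1 := by
      rw [hq]; exact Nat.lt_floor_add_one _
    have h2 : 1 ≤ (c - c') * s := by
      rw [div_le_iff₀ (by linarith)] at hs1
      linarith
    nlinarith
  have hqs : s ≤ q := by nlinarith
  have hq0' : q0 ≤ q := by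
    have : (q0 : ℝ) ≤ q := hs2.trans hqs
    exact_mod_cast this
  have hq2' : 2 ≤ q := by
    have : (2 : ℝ) ≤ q := hs3.trans hqs
    exact_mod_cast this
  refine ⟨hq2', hq0 q hq0' N hN1 ?_⟩
  have hNr : (1 : ℝ) ≤ N := by exact_mod_cast hN1
  have hNpos : (0 : ℝ) < N := by linarith
  have hL : s ^ 2 = Real.logb 2 (N : ℝ) :=
    Real.sq_sqrt (Real.logb_nonneg one_lt_two hNr)
  have hNe : (N : ℝ) = (2 : ℝ) ^ (s ^ 2) := by
    rw [hL, Real.rpow_logb two_pos (by norm_num) hNpos]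
  have h4 : (N : ℝ) ^ 4 = (2 : ℝ) ^ (s ^ 2 * 4) := by
    rw [Real.rpow_mul two_pos.le, ← hNe]
    norm_cast
  rw [h4]
  apply Real.rpow_le_rpow_of_exponent_le one_le_two
  have h5 : (c' * s) ^ 2 ≤ (q : ℝ) ^ 2 := pow_le_pow_left₀ (by positivity) hqge 2
  have h6 : 0 ≤ 1 - 1 / (κ : ℝ) := by
    have : 1 / (κ : ℝ) ≤ 1 := by
      rw [div_le_one (by linarith)]; linarith
    linarith
  have h7 : (1 - 1 / (κ : ℝ)) * (c' * s) ^ 2 ≤ (1 - 1 / (κ : ℝ)) * (q : ℝ) ^ 2 :=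
    mul_le_mul_of_nonneg_left h5 h6
  have h8 : s ^ 2 * 4 ≤ (1 - 1 / (κ : ℝ)) * (c' * s) ^ 2 := by
    have : (1 - 1 / (κ : ℝ)) * (c' * s) ^ 2 = s ^ 2 * ((1 - 1 / (κ : ℝ)) * c' ^ 2) := by ring
    rw [this]
    exact mul_le_mul_of_nonneg_left hκ3 (by positivity)
  linarith

end Pool.Agent.Helper32.Lat
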