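import Mathlib

set_option autoImplicit false

namespace Pool.Agent.Helper32.Lat

open Finset

/-- MODULE W1: positional strategy from an existential invariant -/
theorem strategy_of_inv {V : Type} [DecidableEq V] (S : Finset V) (Bad : Finset V → Prop)
    (Inv : Finset V → Finset V → Prop) (h0 : Inv ∅ ∅)
    (hround : ∀ X Y Δ : Finset V, Inv X Y → X ⊆ S → Y ⊆ S → Disjoint X Y → Δ ⊆ S \ (X ∪ Y) →
        Δ.card ≤ 2 →
        ¬ Bad (X ∪ Δ) ∧ ∃ R : Finset V, R ⊆ S \ (X ∪ Δ ∪ Y) ∧ R.card ≤ 2 ∧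
          ∀ R' : Finset V, R ⊆ R' → R' ⊆ S \ (X ∪ Δ ∪ Y) → Inv (X ∪ Δ) (Y ∪ R')) :
    ∃ σ : Finset V → Finset V → Finset V,
      (∀ X Y : Finset V, X ⊆ S → Y ⊆ S → Disjoint X Y →
        σ X Y ⊆ S \ (X ∪ Y) ∧ (σ X Y).card = min 2 (S \ (X ∪ Y)).card) ∧
      ∀ M B : ℕ → Finset V, M 0 = ∅ → B 0 = ∅ →
        (∀ k : ℕ, M k ⊆ M (k + 1) ∧
          M (k + 1) \ M k ⊆ S \ (M k ∪ B k) ∧
          (M (k + 1) \ M k).card = min 2 (S \ (M k ∪ B k)).card ∧
          B (k + 1) = B k ∪ σ (M (k + 1)) (B k)) →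
        ∀ k : ℕ, ¬ Bad (M k) := by
  classical
  have hex : ∀ X Y : Finset V, ∃ R : Finset V,
      (R ⊆ S \ (X ∪ Y) ∧ R.card = min 2 (S \ (X ∪ Y)).card) ∧
      ((∃ R' : Finset V, (R' ⊆ S \ (X ∪ Y) ∧ R'.card = min 2 (S \ (X ∪ Y)).card) ∧
        Inv X (Y ∪ R')) → Inv X (Y ∪ R)) := by
    intro X Y
    by_cases h : ∃ R' : Finset V, (R' ⊆ S \ (X ∪ Y) ∧ R'.card = min 2 (S \ (X ∪ Y)).card) ∧
        Inv X (Y ∪ R')
    · obtain ⟨R', h1, h2⟩ := h
      exact ⟨R', h1, fun _ => h2⟩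
    · obtain ⟨R, hR1, hR2⟩ := Finset.exists_subset_card_eq
        (min_le_right 2 (S \ (X ∪ Y)).card)
      exact ⟨R, ⟨hR1, hR2⟩, fun h' => absurd h' h⟩
  choose σ hσ1 hσ2 using hex
  refine ⟨σ, fun X Y _ _ _ => hσ1 X Y, ?_⟩
  intro M B hM0 hB0 hk
  have key : ∀ k : ℕ, Inv (M k) (B k) ∧ M k ⊆ S ∧ B k ⊆ S ∧ Disjoint (M k) (B k) := by
    intro k
    induction k with
    | zero => rw [hM0, hB0]; exact ⟨h0, empty_subset _, empty_subset _, disjoint_empty_left _⟩
    | succ k ih =>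
      obtain ⟨hI, hMS, hBS, hd⟩ := ih
      obtain ⟨h1, h2, h3, h4⟩ := hk k
      have hMk : M k ∪ (M (k + 1) \ M k) = M (k + 1) := Finset.union_sdiff_of_subset h1
      have h5 : (M (k + 1) \ M k).card ≤ 2 := by rw [h3]; exact min_le_left _ _
      obtain ⟨-, R, hR1, hR2, hR3⟩ := hround (M k) (B k) (M (k + 1) \ M k) hI hMS hBS hd h2 h5
      rw [hMk] at hR1 hR3
      have hR4 : R.card ≤ min 2 (S \ (M (k + 1) ∪ B k)).card :=
        le_min hR2 (Finset.card_le_card hR1)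
      obtain ⟨R', hRR', hR'1, hR'2⟩ := Finset.exists_subsuperset_card_eq hR1 hR4
        (min_le_right 2 (S \ (M (k + 1) ∪ B k)).card)
      have h6 : Inv (M (k + 1)) (B k ∪ σ (M (k + 1)) (B k)) :=
        hσ2 _ _ ⟨R', ⟨hR'1, hR'2⟩, hR3 R' hRR' hR'1⟩
      have h7 := (hσ1 (M (k + 1)) (B k)).1
      have hMS' : M (k + 1) ⊆ S := by
        rw [← hMk]
        exact Finset.union_subset hMS (h2.trans Finset.sdiff_subset)
      refine ⟨by rw [h4]; exact h6, hMS', ?_, ?_⟩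
      · rw [h4]
        exact Finset.union_subset hBS (h7.trans Finset.sdiff_subset)
      · rw [h4, Finset.disjoint_union_right]
        constructor
        · rw [← hMk, Finset.disjoint_union_left]
          refine ⟨hd, ?_⟩
          rw [Finset.disjoint_left]
          intro a ha hb
          have := h2 ha
          rw [Finset.mem_sdiff, Finset.mem_union] at this
          exact this.2 (Or.inr hb)
        · rw [Finset.disjoint_left]
          intro a ha hb
          have := h7 hb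
          rw [Finset.mem_sdiff, Finset.mem_union] at this
          exact this.2 (Or.inl ha)
  intro k
  obtain ⟨hI, hMS, hBS, hd⟩ := key k
  have := (hround (M k) (B k) ∅ hI hMS hBS hd (Finset.empty_subset _) (by simp)).1
  rwa [Finset.union_empty] at this

end Pool.Agent.Helper32.Lat
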