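import Mathlib
import Pool.Agent.Helper32.Lat.ExSys
import Pool.Agent.Helper32.Lat.Strat
import Pool.Agent.Helper32.Lat.Numerics

set_option autoImplicit false

namespace Pool.Agent.Helper32.Lat

open Finset

/-- parameters of a lattice inside the board -/
theorem params_mem (N q : ℕ) (hq : 2 ≤ q) (X : Finset (ℤ × ℤ)) (hX : X ⊆ board N) (P u v : ℤ × ℤ)
    (hd : u.1 * v.2 - u.2 * v.1 ≠ 0)
    (h : ∀ i j : ℕ, i < q → j < q → P + (i : ℤ) • u + (j : ℤ) • v ∈ X) :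
    (P, u, v) ∈ Idx N q ∧ lat q (P, u, v) ⊆ X := by
  have hsub : lat q (P, u, v) ⊆ X := by
    intro x hx
    unfold lat at hx
    rw [mem_image] at hx
    obtain ⟨ij, hij, rfl⟩ := hx
    rw [mem_product, mem_range, mem_range] at hij
    exact h ij.1 ij.2 hij.1 hij.2
  refine ⟨?_, hsub⟩
  have h00 := hX (h 0 0 (by omega) (by omega))
  have h10 := hX (h 1 0 (by omega) (by omega))
  have h01 := hX (h 0 1 (by omega) (by omega))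
  simp only [Nat.cast_zero, Nat.cast_one, zero_smul, one_smul, add_zero] at h00 h10 h01
  unfold board at h00 h10 h01
  rw [mem_product, mem_Icc, mem_Icc] at h00 h10 h01
  obtain ⟨⟨a1, a2⟩, a3, a4⟩ := h00
  obtain ⟨⟨b1, b2⟩, b3, b4⟩ := h10
  obtain ⟨⟨c1, c2⟩, c3, c4⟩ := h01
  simp only [Prod.fst_add, Prod.snd_add] at b1 b2 b3 b4 c1 c2 c3 c4
  unfold Idx
  rw [mem_filter, mem_product, mem_product, mem_product, mem_product]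
  unfold board
  rw [mem_product]
  simp only [mem_Icc]
  refine ⟨⟨⟨⟨a1, a2⟩, a3, a4⟩, ⟨⟨?_, ?_⟩, ?_, ?_⟩, ⟨?_, ?_⟩, ?_, ?_⟩, hd, hsub.trans hX⟩ <;>
    linarith

/-- the frozen statement, from the invariant -/
theorem final_of_round
    (H : ∀ (N q : ℕ) (s : Sys (ℤ × ℤ) ↥(Idx N q)),
      ∃ Inv : Finset (ℤ × ℤ) → Finset (ℤ × ℤ) → Prop, Inv ∅ ∅ ∧
      ∀ X Y Δ : Finset (ℤ × ℤ), Inv X Y → X ⊆ s.S → Y ⊆ s.S → Disjoint X Y → Δ ⊆ s.S \ (X ∪ Y) →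
        Δ.card ≤ 2 →
        (∀ a, ¬ s.A a ⊆ X ∪ Δ) ∧ ∃ R : Finset (ℤ × ℤ), R ⊆ s.S \ (X ∪ Δ ∪ Y) ∧ R.card ≤ 2 ∧
          ∀ R' : Finset (ℤ × ℤ), R ⊆ R' → R' ⊆ s.S \ (X ∪ Δ ∪ Y) → Inv (X ∪ Δ) (Y ∪ R')) :
    ∀ c : ℝ, 2 < c → ∃ N₀ : ℕ, ∀ N : ℕ, N₀ ≤ N →
      ∀ S : Finset (ℤ × ℤ),
        S = (Finset.Icc (1 : ℤ) (N : ℤ)) ×ˢ (Finset.Icc (1 : ℤ) (N : ℤ)) →
        ∃ σ : Finset (ℤ × ℤ) → Finset (ℤ × ℤ) → Finset (ℤ × ℤ),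
          (∀ X Y : Finset (ℤ × ℤ), X ⊆ S → Y ⊆ S → Disjoint X Y →
            σ X Y ⊆ S \ (X ∪ Y) ∧ (σ X Y).card = min 2 (S \ (X ∪ Y)).card) ∧
          ∀ M B : ℕ → Finset (ℤ × ℤ), M 0 = ∅ → B 0 = ∅ →
            (∀ k : ℕ, M k ⊆ M (k + 1) ∧
              M (k + 1) \ M k ⊆ S \ (M k ∪ B k) ∧
              (M (k + 1) \ M k).card = min 2 (S \ (M k ∪ B k)).card ∧
              B (k + 1) = B k ∪ σ (M (k + 1)) (B k)) →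
            ∀ k : ℕ, ¬ ∃ P u v : ℤ × ℤ, u.1 * v.2 - u.2 * v.1 ≠ 0 ∧
              ∀ i j : ℕ, i < ⌊c * Real.sqrt (Real.logb 2 (N : ℝ))⌋₊ →
                j < ⌊c * Real.sqrt (Real.logb 2 (N : ℝ))⌋₊ →
                P + (i : ℤ) • u + (j : ℤ) • v ∈ M k := by
  intro c hc
  obtain ⟨N₀, hN₀⟩ := num c hc
  refine ⟨N₀, fun N hN S hS => ?_⟩
  obtain ⟨hq, P, hn, hq', hr, he, hd1, hd2, hcS, hcI⟩ := hN₀ N hN _ rfl
  generalize ⌊c * Real.sqrt (Real.logb 2 (N : ℝ))⌋₊ = q at *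
  obtain ⟨s, hsS, hsA⟩ := exists_sys N q hq P hn hq' hr he hd1 hd2 hcS hcI
  obtain ⟨Inv, hI0, hI⟩ := H N q s
  have hSb : S = s.S := by rw [hS, hsS]; rfl
  subst hSb
  refine strategy_of_inv s.S (fun X => ∃ P u v : ℤ × ℤ, u.1 * v.2 - u.2 * v.1 ≠ 0 ∧
      ∀ i j : ℕ, i < q → j < q → P + (i : ℤ) • u + (j : ℤ) • v ∈ X) Inv hI0 ?_
  intro X Y Δ hXY hX hY hXYd hΔ hΔc
  obtain ⟨h1, h2⟩ := hI X Y Δ hXY hX hY hXYd hΔ hΔc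
  refine ⟨?_, h2⟩
  rintro ⟨P', u, v, hd, hm⟩
  have hXΔ : X ∪ Δ ⊆ board N := by
    rw [← hsS]
    exact Finset.union_subset hX (hΔ.trans Finset.sdiff_subset)
  obtain ⟨g1, g2⟩ := params_mem N q hq (X ∪ Δ) hXΔ P' u v hd hm
  apply h1 ⟨(P', u, v), g1⟩
  rw [hsA]
  exact g2

end Pool.Agent.Helper32.Lat
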