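import Mathlib
import Pool.Agent.Helper32.Lat.Sys

set_option autoImplicit false
set_option linter.unusedSectionVars false
set_option linter.unusedVariables false
set_option linter.unusedSimpArgs false

namespace Pool.Agent.Helper32.Lat

open Finset

/-- reindexing by erasing an element -/
theorem sum_erase_le {I : Type} [DecidableEq I] [Fintype I] (B : I) (G : Finset I → ℝ)
    (hG : ∀ T, 0 ≤ G T) :
    ∑ T : Finset I, (if B ∈ T then G (T.erase B) else 0) ≤ ∑ T : Finset I, G T := by
  rw [← Finset.sum_filter]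
  have hinj : Set.InjOn (fun T : Finset I => T.erase B)
      ((univ.filter fun T : Finset I => B ∈ T : Finset (Finset I)) : Set (Finset I)) := by
    intro T hT T' hT' h
    simp only [Finset.coe_filter, Finset.mem_univ, true_and, Set.mem_ofPred_eq] at hT hT'
    have h' : T.erase B = T'.erase B := h
    rw [← Finset.insert_erase hT, ← Finset.insert_erase hT', h']
  rw [← Finset.sum_image (f := G) hinj]
  exact Finset.sum_le_univ_sum_of_nonneg hG

theorem sum_erase_le' {I : Type} [DecidableEq I] [Fintype I] (B : I) (G : I × Finset I → ℝ)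
    (hG : ∀ c, 0 ≤ G c) :
    ∑ c : I × Finset I, (if B ∈ c.2 then G (c.1, c.2.erase B) else 0) ≤ ∑ c, G c := by
  rw [Fintype.sum_prod_type, Fintype.sum_prod_type]
  exact Finset.sum_le_sum fun a _ => sum_erase_le B (fun T => G (a, T)) fun T => hG _

namespace Sys

variable {V I : Type} [DecidableEq V] [DecidableEq I] [Fintype I] (s : Sys V I)

/-- weight of a single lattice (before normalisation) -/
noncomputable def om (M : Finset V) (B : I) : ℝ := s.b⁻¹ ^ ((s.A B \ M).card)

theorem om_nonneg (M : Finset V) (B : I) : 0 ≤ s.om M B := by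
  have := s.b_pos
  unfold om; positivity

theorem A_sub_E (B : I) : s.A B ⊆ s.E B := by
  apply s.hAE
  rw [Finset.inter_self, s.hn]
  exact s.hqn

theorem card_A_sdiff_le (M : Finset V) {T : Finset I} (B : I) (hB : B ∈ T) (hT : T.card ≤ s.m)
    (hpair : ∀ B ∈ T, ∀ C ∈ T, B ≠ C → (s.A B ∩ s.A C).card ≤ s.q) :
    (s.A B \ M).card ≤ (s.pr T B \ M).card + s.m * s.q := by
  have h1 : s.A B \ M ⊆ (s.pr T B \ M) ∪ (T.erase B).biUnion (fun C => s.A B ∩ s.A C) := by
    intro x hx
    rw [Finset.mem_sdiff] at hx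
    rw [Finset.mem_union]
    by_cases h : x ∈ (T.erase B).biUnion s.A
    · right
      rw [Finset.mem_biUnion] at h ⊢
      obtain ⟨C, hC, hxC⟩ := h
      exact ⟨C, hC, Finset.mem_inter.mpr ⟨hx.1, hxC⟩⟩
    · left
      exact Finset.mem_sdiff.mpr ⟨Finset.mem_sdiff.mpr ⟨hx.1, h⟩, hx.2⟩
  have h2 : ((T.erase B).biUnion (fun C => s.A B ∩ s.A C)).card ≤ (T.erase B).card * s.q := by
    apply Finset.card_biUnion_le_card_mul
    intro C hC
    have hC' := Finset.mem_erase.mp hC
    exact hpair B hB C hC'.2 hC'.1.symm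
  have h3 : (T.erase B).card * s.q ≤ s.m * s.q :=
    Nat.mul_le_mul_right _ ((Finset.card_le_card (Finset.erase_subset B T)).trans hT)
  calc (s.A B \ M).card ≤ _ := Finset.card_le_card h1
    _ ≤ (s.pr T B \ M).card + ((T.erase B).biUnion (fun C => s.A B ∩ s.A C)).card :=
        Finset.card_union_le _ _
    _ ≤ _ := by omega

theorem card_pr_erase_le (M : Finset V) {T : Finset I} (B C : I) (hB : B ∈ T)
    (hC : C ∈ T.erase B)
    (hpair : ∀ B ∈ T, ∀ C ∈ T, B ≠ C → (s.A B ∩ s.A C).card ≤ s.q) :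
    (s.pr (T.erase B) C \ M).card ≤ (s.pr T C \ M).card + s.q := by
  have hC' := Finset.mem_erase.mp hC
  have h1 : s.pr (T.erase B) C \ M ⊆ (s.pr T C \ M) ∪ (s.A B ∩ s.A C) := by
    intro x hx
    unfold pr at hx ⊢
    simp only [Finset.mem_sdiff, Finset.mem_union, Finset.mem_inter, Finset.mem_biUnion,
      Finset.mem_erase, not_exists, not_and] at hx ⊢
    by_cases hxB : x ∈ s.A B
    · exact Or.inr ⟨hxB, hx.1.1⟩
    · left
      refine ⟨⟨hx.1.1, ?_⟩, hx.2⟩
      intro D hD hxD
      by_cases hDB : D = B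
      · rw [hDB] at hxD; exact hxB hxD
      · exact hx.1.2 D ⟨hD.1, hDB, hD.2⟩ hxD
  calc (s.pr (T.erase B) C \ M).card ≤ _ := Finset.card_le_card h1
    _ ≤ (s.pr T C \ M).card + (s.A B ∩ s.A C).card := Finset.card_union_le _ _
    _ ≤ _ := by
      have := hpair B hB C hC'.2 hC'.1.symm
      omega

theorem valid_erase {Y : Finset V} {L : I → Finset V} {a : I} {T : Finset I} (B : I)
    (hv : s.valid Y L (a, T)) : s.valid Y L (a, T.erase B) := by
  obtain ⟨h1, h2, h3, h4⟩ := hv
  refine ⟨h1, (Finset.card_le_card (Finset.erase_subset B T)).trans h2, ?_, ?_⟩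
  · intro C hC; exact h3 C (Finset.mem_of_mem_erase hC)
  · intro C hC D hD hCD
    exact h4 C (Finset.mem_of_mem_erase hC) D (Finset.mem_of_mem_erase hD) hCD

/-- removing a type I lattice from a configuration -/
theorem removal (M Y : Finset V) (L : I → Finset V) (a : I) (T : Finset I) (B : I)
    (hB : B ∈ T) (hv : s.valid Y L (a, T)) (hr : s.r0 < (s.pr T B \ M).card) :
    s.wT M Y L (a, T) ≤ s.β⁻¹ * s.b ^ (2 * (s.m * s.q)) * s.om M B *
      s.wT M Y L (a, T.erase B) := by
  have hv' := s.valid_erase B hv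
  obtain ⟨h1, h2, h3, h4⟩ := hv
  simp only at h1 h2 h3 h4
  have hvv : s.valid Y L (a, T) := ⟨h1, h2, h3, h4⟩
  have hβ := s.hβ
  have hb := s.b_pos
  have hb1 := s.b_gt1
  unfold wT
  rw [if_pos hvv, if_pos hv']
  simp only
  have hT0 : 0 < T.card := Finset.card_pos.mpr ⟨B, hB⟩
  have hexp : s.m - (T.erase B).card = (s.m - T.card) + 1 := by
    rw [Finset.card_erase_of_mem hB]; omega
  rw [hexp, ← Finset.mul_prod_erase T (fun C => s.gf ((s.pr T C \ M).card)) hB]
  have e1 : s.gf ((s.pr T B \ M).card) ≤ s.b ^ (s.m * s.q) * s.om M B := by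
    have := s.gf_le_of (r := (s.pr T B \ M).card) (r' := (s.A B \ M).card) (j := s.m * s.q)
      (s.card_A_sdiff_le M B hB h2 h4)
    refine this.trans (le_of_eq ?_)
    rw [s.gf_big]
    · rfl
    · have : (s.pr T B \ M).card ≤ (s.A B \ M).card :=
        Finset.card_le_card (Finset.sdiff_subset_sdiff (s.pr_sub T B) (Finset.Subset.refl _))
      omega
  have e2 : ∏ C ∈ T.erase B, s.gf ((s.pr T C \ M).card) ≤
      s.b ^ (s.m * s.q) * ∏ C ∈ T.erase B, s.gf ((s.pr (T.erase B) C \ M).card) := by
    calc ∏ C ∈ T.erase B, s.gf ((s.pr T C \ M).card)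
        ≤ ∏ C ∈ T.erase B, (s.b ^ s.q * s.gf ((s.pr (T.erase B) C \ M).card)) := by
          apply Finset.prod_le_prod
          · intro C _; exact (s.gf_pos _).le
          · intro C hC
            exact s.gf_le_of (s.card_pr_erase_le M B C hB hC h4)
      _ = (s.b ^ s.q) ^ (T.erase B).card *
            ∏ C ∈ T.erase B, s.gf ((s.pr (T.erase B) C \ M).card) := by
          rw [Finset.prod_mul_distrib, Finset.prod_const]
      _ ≤ _ := by
          apply mul_le_mul_of_nonneg_right
          · rw [← pow_mul]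
            apply pow_le_pow_right₀ hb1.le
            rw [mul_comm s.q]
            exact Nat.mul_le_mul_right _
              ((Finset.card_le_card (Finset.erase_subset B T)).trans h2)
          · exact Finset.prod_nonneg fun C _ => (s.gf_pos _).le
  have hl1 := s.hl1
  set P0 : ℝ := ∏ C ∈ T.erase B, s.gf ((s.pr (T.erase B) C \ M).card) with hP0
  have hP00 : 0 ≤ P0 := Finset.prod_nonneg fun C _ => (s.gf_pos _).le
  have hom := s.om_nonneg M B
  have e3 : s.gf ((s.pr T B \ M).card) * ∏ C ∈ T.erase B, s.gf ((s.pr T C \ M).card) ≤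
      (s.b ^ (s.m * s.q) * s.om M B) * (s.b ^ (s.m * s.q) * P0) := by
    apply mul_le_mul e1 e2
    · exact Finset.prod_nonneg fun C _ => (s.gf_pos _).le
    · positivity
  calc s.l1 * s.β ^ (s.m - T.card) * (s.gf ((s.pr T B \ M).card) *
        ∏ C ∈ T.erase B, s.gf ((s.pr T C \ M).card))
      ≤ s.l1 * s.β ^ (s.m - T.card) * ((s.b ^ (s.m * s.q) * s.om M B) *
        (s.b ^ (s.m * s.q) * P0)) := by
        apply mul_le_mul_of_nonneg_left e3; positivity
    _ = s.β⁻¹ * s.b ^ (2 * (s.m * s.q)) * s.om M B *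
        (s.l1 * s.β ^ (s.m - T.card + 1) * P0) := by
        rw [pow_succ, two_mul, pow_add]
        field_simp

open Classical in
/-- sum of the weights of the type I lattices through `x` with `z` in the neighbourhood -/
noncomputable def Ksum (M Y : Finset V) (x z : V) : ℝ :=
  ∑ B, if x ∈ s.A B ∧ z ∈ s.E B ∧ Disjoint (s.A B) Y ∧ s.r0 < (s.A B \ M).card then s.om M B else 0

open Classical in
/-- The pair bound. -/
theorem pairBound (M Y : Finset V) (L : I → Finset V) (F : Finset V) (D : ℝ) (x u : V)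
    (hxu : u ≠ x) (hu : u ∈ F)
    (hD : ∀ z ∈ F, z ≠ x → Val s.ptsT (s.wT M Y L) z ≤ D) (hD0 : 0 ≤ D)
    (hL : ∀ B, x ∈ s.A B → L B ⊆ s.E B ∩ F ∧ x ∉ L B)
    (hKs : ∀ z, z ∈ s.S → z ≠ x → s.Ksum M Y x z ≤ s.K) (huS : F ⊆ s.S) :
    ∑ c, (if s.tIT M x c ∧ u ∈ s.ptsT c then s.wT M Y L c else 0) ≤ s.η * D := by
  have hβ := s.hβ
  have hb := s.b_pos
  have hK0 := s.hK
  set κ : ℝ := s.β⁻¹ * s.b ^ (2 * (s.m * s.q)) with hκ
  have hκ0 : 0 ≤ κ := by positivity
  set om' : I → ℝ := fun B => if x ∈ s.A B ∧ Disjoint (s.A B) Y ∧ s.r0 < (s.A B \ M).card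
    then s.om M B else 0 with hom'
  have hom'0 : ∀ B, 0 ≤ om' B := fun B => by
    simp only [hom']; split_ifs; exacts [s.om_nonneg M B, le_rfl]
  have hK' : ∀ z ∈ s.S, z ≠ x → ∑ B, (if z ∈ s.E B then om' B else 0) ≤ s.K := by
    intro z hz hzx
    refine le_trans (le_of_eq ?_) (hKs z hz hzx)
    unfold Ksum
    refine Finset.sum_congr rfl fun B _ => ?_
    simp only [hom']
    by_cases h1 : z ∈ s.E B <;> by_cases h2 : x ∈ s.A B <;>
      by_cases h3 : Disjoint (s.A B) Y <;> by_cases h4 : s.r0 < (s.A B \ M).card <;>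
      simp [h1, h2, h3, h4]
  set w : I → Finset I → ℝ := fun a T => s.wT M Y L (a, T) with hw
  have hw0 : ∀ a T, 0 ≤ w a T := fun a T => s.wT_nonneg M Y L (a, T)
  -- pointwise bound
  have hpt : ∀ c : I × Finset I, (if s.tIT M x c ∧ u ∈ s.ptsT c then s.wT M Y L c else 0) ≤
      ∑ B, (if B ∈ c.2 then
        (κ * ((if u ∈ s.E B then om' B else 0) *
            ∑ z ∈ (s.E B ∩ F).erase x, (if z ∈ s.ptsT (c.1, c.2.erase B)
              then w c.1 (c.2.erase B) else 0)) +
         κ * ((if u ∈ s.ptsT (c.1, c.2.erase B) then w c.1 (c.2.erase B) else 0) *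
            ∑ z ∈ (s.A c.1).erase x, (if z ∈ s.E B then om' B else 0))) else 0) := by
    rintro ⟨a, T⟩
    simp only
    have hterm0 : ∀ B, 0 ≤ (if B ∈ T then
        (κ * ((if u ∈ s.E B then om' B else 0) *
            ∑ z ∈ (s.E B ∩ F).erase x, (if z ∈ s.ptsT (a, T.erase B)
              then w a (T.erase B) else 0)) +
         κ * ((if u ∈ s.ptsT (a, T.erase B) then w a (T.erase B) else 0) *
            ∑ z ∈ (s.A a).erase x, (if z ∈ s.E B then om' B else 0))) else 0) := by
      intro B
      split_ifs <;> first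
        | exact le_rfl
        | (apply add_nonneg <;> apply mul_nonneg hκ0 <;> apply mul_nonneg <;>
            first
              | exact hom'0 B
              | exact hw0 _ _
              | exact le_rfl
              | (apply Finset.sum_nonneg; intro z _; split_ifs <;>
                  first | exact hom'0 B | exact hw0 _ _ | exact le_rfl))
    by_cases hc : s.tIT M x (a, T) ∧ u ∈ s.ptsT (a, T)
    swap
    · rw [if_neg hc]
      exact Finset.sum_nonneg fun B _ => hterm0 B
    rw [if_pos hc]
    by_cases hv : s.valid Y L (a, T)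
    swap
    · have : s.wT M Y L (a, T) = 0 := by unfold wT; rw [if_neg hv]
      rw [this]
      exact Finset.sum_nonneg fun B _ => hterm0 B
    obtain ⟨⟨B, hB, hxB, hr⟩, huc⟩ := hc
    simp only at hB hxB hr
    refine le_trans ?_ (Finset.single_le_sum (fun B _ => hterm0 B) (Finset.mem_univ B))
    rw [if_pos hB]
    have hrem := s.removal M Y L a T B hB hv hr
    have hxA : x ∈ s.A B := s.pr_sub T B hxB
    have hrA : s.r0 < (s.A B \ M).card := lt_of_lt_of_le hr
      (Finset.card_le_card (Finset.sdiff_subset_sdiff (s.pr_sub T B) (Finset.Subset.refl _)))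
    have homB : om' B = s.om M B := by
      simp only [hom']
      rw [if_pos ⟨hxA, (hv.2.2.1 B hB).1, hrA⟩]
    obtain ⟨z, hz⟩ := (hv.2.2.1 B hB).2
    rw [Finset.mem_inter] at hz
    simp only at hz
    have hLB := hL B hxA
    have hzEF := Finset.mem_inter.mp (hLB.1 hz.2)
    have hzx : z ≠ x := fun h => hLB.2 (h ▸ hz.2)
    rw [← homB] at hrem
    have hW0 := hw0 a (T.erase B)
    have hrem' : s.wT M Y L (a, T) ≤ κ * (om' B * w a (T.erase B)) := by
      refine hrem.trans (le_of_eq ?_)
      simp only [hκ, hw]; ring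
    by_cases huB : u ∈ s.A B
    · -- first part
      have h1 : w a (T.erase B) ≤ ∑ z ∈ (s.E B ∩ F).erase x, (if z ∈ s.ptsT (a, T.erase B)
              then w a (T.erase B) else 0) := by
        have h2 : z ∈ (s.E B ∩ F).erase x :=
          Finset.mem_erase.mpr ⟨hzx, Finset.mem_inter.mpr hzEF⟩
        have h3 : z ∈ s.ptsT (a, T.erase B) := Finset.mem_union_left _ hz.1
        refine le_trans (le_of_eq ?_) (Finset.single_le_sum (fun z _ => ?_) h2)
        · rw [if_pos h3]
        · split_ifs; exacts [hW0, le_rfl]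
      have h4 : u ∈ s.E B := s.A_sub_E B huB
      have h5 : 0 ≤ κ * ((if u ∈ s.ptsT (a, T.erase B) then w a (T.erase B) else 0) *
            ∑ z ∈ (s.A a).erase x, (if z ∈ s.E B then om' B else 0)) := by
        apply mul_nonneg hκ0
        apply mul_nonneg
        · split_ifs; exacts [hW0, le_rfl]
        · apply Finset.sum_nonneg; intro z _; split_ifs; exacts [hom'0 B, le_rfl]
      rw [if_pos h4]
      have h6 : κ * (om' B * w a (T.erase B)) ≤ κ * (om' B *
          ∑ z ∈ (s.E B ∩ F).erase x, (if z ∈ s.ptsT (a, T.erase B)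
              then w a (T.erase B) else 0)) :=
        mul_le_mul_of_nonneg_left (mul_le_mul_of_nonneg_left h1 (hom'0 B)) hκ0
      linarith
    · -- second part
      have hu' : u ∈ s.ptsT (a, T.erase B) := by
        unfold ptsT at huc ⊢
        simp only [Finset.mem_union, Finset.mem_biUnion] at huc ⊢
        rcases huc with h | ⟨C, hC, huC⟩
        · exact Or.inl h
        · right
          refine ⟨C, Finset.mem_erase.mpr ⟨?_, hC⟩, huC⟩
          rintro rfl
          exact huB huC
      have h1 : om' B ≤ ∑ z ∈ (s.A a).erase x, (if z ∈ s.E B then om' B else 0) := by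
        have h2 : z ∈ (s.A a).erase x := Finset.mem_erase.mpr ⟨hzx, hz.1⟩
        refine le_trans (le_of_eq ?_) (Finset.single_le_sum (fun z _ => ?_) h2)
        · rw [if_pos hzEF.1]
        · split_ifs; exacts [hom'0 B, le_rfl]
      have h5 : 0 ≤ κ * ((if u ∈ s.E B then om' B else 0) *
            ∑ z ∈ (s.E B ∩ F).erase x, (if z ∈ s.ptsT (a, T.erase B)
              then w a (T.erase B) else 0)) := by
        apply mul_nonneg hκ0
        apply mul_nonneg
        · split_ifs; exacts [hom'0 B, le_rfl]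
        · apply Finset.sum_nonneg; intro z _; split_ifs; exacts [hW0, le_rfl]
      rw [if_pos hu']
      have h6 : κ * (om' B * w a (T.erase B)) ≤ κ * (w a (T.erase B) *
          ∑ z ∈ (s.A a).erase x, (if z ∈ s.E B then om' B else 0)) := by
        rw [mul_comm (om' B)]
        exact mul_le_mul_of_nonneg_left (mul_le_mul_of_nonneg_left h1 hW0) hκ0
      linarith
  have hval : ∀ z ∈ F, z ≠ x → ∑ c : I × Finset I, (if z ∈ s.ptsT c then w c.1 c.2 else 0) ≤ D := by
    intro z hz hzx
    exact hD z hz hzx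
  -- first sum
  have hsum1 : ∀ B, ∑ c : I × Finset I, (if B ∈ c.2 then
        (κ * ((if u ∈ s.E B then om' B else 0) *
            ∑ z ∈ (s.E B ∩ F).erase x, (if z ∈ s.ptsT (c.1, c.2.erase B)
              then w c.1 (c.2.erase B) else 0))) else 0) ≤
        κ * ((if u ∈ s.E B then om' B else 0) * (s.e * D)) := by
    intro B
    have hoB : 0 ≤ (if u ∈ s.E B then om' B else 0) := by split_ifs; exacts [hom'0 B, le_rfl]
    have h2 := sum_erase_le' B (fun c => κ * ((if u ∈ s.E B then om' B else 0) *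
            ∑ z ∈ (s.E B ∩ F).erase x, (if z ∈ s.ptsT (c.1, c.2)
              then w c.1 c.2 else 0))) (fun c => by
              apply mul_nonneg hκ0
              apply mul_nonneg hoB
              apply Finset.sum_nonneg; intro z _; split_ifs; exacts [hw0 _ _, le_rfl])
    refine h2.trans ?_
    rw [← Finset.mul_sum, ← Finset.mul_sum]
    apply mul_le_mul_of_nonneg_left _ hκ0
    apply mul_le_mul_of_nonneg_left _ hoB
    rw [Finset.sum_comm]
    calc ∑ z ∈ (s.E B ∩ F).erase x, ∑ c : I × Finset I, (if z ∈ s.ptsT (c.1, c.2) then w c.1 c.2 else 0)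
        ≤ ∑ z ∈ (s.E B ∩ F).erase x, D := by
          refine Finset.sum_le_sum fun z hz => ?_
          have hz' := Finset.mem_erase.mp hz
          exact hval z (Finset.mem_inter.mp hz'.2).2 hz'.1
      _ ≤ s.e * D := by
          rw [Finset.sum_const, nsmul_eq_mul]
          apply mul_le_mul_of_nonneg_right _ hD0
          have : ((s.E B ∩ F).erase x).card ≤ s.e :=
            (Finset.card_le_card ((Finset.erase_subset _ _).trans
              Finset.inter_subset_left)).trans (s.he B)
          exact_mod_cast this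
  have htot1 : ∑ c : I × Finset I, ∑ B, (if B ∈ c.2 then
        (κ * ((if u ∈ s.E B then om' B else 0) *
            ∑ z ∈ (s.E B ∩ F).erase x, (if z ∈ s.ptsT (c.1, c.2.erase B)
              then w c.1 (c.2.erase B) else 0))) else 0) ≤ κ * (s.K * (s.e * D)) := by
    rw [Finset.sum_comm]
    refine (Finset.sum_le_sum fun B _ => hsum1 B).trans ?_
    rw [← Finset.mul_sum, ← Finset.sum_mul]
    apply mul_le_mul_of_nonneg_left _ hκ0
    apply mul_le_mul_of_nonneg_right (hK' u (huS hu) hxu)
    positivity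
  -- second sum
  have hK'' : ∀ a : I, ∑ B, ∑ z ∈ (s.A a).erase x, (if z ∈ s.E B then om' B else 0) ≤
      s.n * s.K := by
    intro a
    rw [Finset.sum_comm]
    calc ∑ z ∈ (s.A a).erase x, ∑ B, (if z ∈ s.E B then om' B else 0)
        ≤ ∑ z ∈ (s.A a).erase x, s.K := by
          refine Finset.sum_le_sum fun z hz => ?_
          have hz' := Finset.mem_erase.mp hz
          exact hK' z (s.hA a hz'.2) hz'.1
      _ ≤ s.n * s.K := by
          rw [Finset.sum_const, nsmul_eq_mul]
          apply mul_le_mul_of_nonneg_right _ hK0.le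
          have : ((s.A a).erase x).card ≤ s.n :=
            (Finset.card_le_card (Finset.erase_subset _ _)).trans (s.hn a).le
          exact_mod_cast this
  have hsum2 : ∀ B, ∑ c : I × Finset I, (if B ∈ c.2 then
         κ * ((if u ∈ s.ptsT (c.1, c.2.erase B) then w c.1 (c.2.erase B) else 0) *
            ∑ z ∈ (s.A c.1).erase x, (if z ∈ s.E B then om' B else 0)) else 0) ≤
      ∑ c : I × Finset I, κ * ((if u ∈ s.ptsT (c.1, c.2) then w c.1 c.2 else 0) *
            ∑ z ∈ (s.A c.1).erase x, (if z ∈ s.E B then om' B else 0)) := by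
    intro B
    exact sum_erase_le' B (fun c => κ * ((if u ∈ s.ptsT (c.1, c.2) then w c.1 c.2 else 0) *
            ∑ z ∈ (s.A c.1).erase x, (if z ∈ s.E B then om' B else 0))) (fun c => by
              apply mul_nonneg hκ0
              apply mul_nonneg
              · split_ifs; exacts [hw0 _ _, le_rfl]
              · apply Finset.sum_nonneg; intro z _; split_ifs; exacts [hom'0 B, le_rfl])
  have htot2 : ∑ c : I × Finset I, ∑ B, (if B ∈ c.2 then
         κ * ((if u ∈ s.ptsT (c.1, c.2.erase B) then w c.1 (c.2.erase B) else 0) *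
            ∑ z ∈ (s.A c.1).erase x, (if z ∈ s.E B then om' B else 0)) else 0) ≤
      κ * ((s.n * s.K) * D) := by
    rw [Finset.sum_comm]
    refine (Finset.sum_le_sum fun B _ => hsum2 B).trans ?_
    rw [Finset.sum_comm]
    calc ∑ c : I × Finset I, ∑ B, κ * ((if u ∈ s.ptsT (c.1, c.2) then w c.1 c.2 else 0) *
            ∑ z ∈ (s.A c.1).erase x, (if z ∈ s.E B then om' B else 0))
        = ∑ c : I × Finset I, κ * ((if u ∈ s.ptsT (c.1, c.2) then w c.1 c.2 else 0) *
            ∑ B, ∑ z ∈ (s.A c.1).erase x, (if z ∈ s.E B then om' B else 0)) := by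
          refine Finset.sum_congr rfl fun c _ => ?_
          rw [← Finset.mul_sum, ← Finset.mul_sum]
      _ ≤ ∑ c : I × Finset I, κ * ((if u ∈ s.ptsT (c.1, c.2) then w c.1 c.2 else 0) *
            (s.n * s.K)) := by
          refine Finset.sum_le_sum fun c _ => ?_
          apply mul_le_mul_of_nonneg_left _ hκ0
          apply mul_le_mul_of_nonneg_left (hK'' c.1)
          split_ifs; exacts [hw0 _ _, le_rfl]
      _ = κ * ((s.n * s.K) * ∑ c : I × Finset I,
            (if u ∈ s.ptsT (c.1, c.2) then w c.1 c.2 else 0)) := by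
          rw [Finset.mul_sum, Finset.mul_sum]
          refine Finset.sum_congr rfl fun c _ => ?_
          ring
      _ ≤ κ * ((s.n * s.K) * D) := by
          apply mul_le_mul_of_nonneg_left _ hκ0
          apply mul_le_mul_of_nonneg_left (hval u hu hxu)
          positivity
  calc ∑ c, (if s.tIT M x c ∧ u ∈ s.ptsT c then s.wT M Y L c else 0)
      ≤ ∑ c : I × Finset I, ∑ B, (if B ∈ c.2 then
        (κ * ((if u ∈ s.E B then om' B else 0) *
            ∑ z ∈ (s.E B ∩ F).erase x, (if z ∈ s.ptsT (c.1, c.2.erase B)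
              then w c.1 (c.2.erase B) else 0)) +
         κ * ((if u ∈ s.ptsT (c.1, c.2.erase B) then w c.1 (c.2.erase B) else 0) *
            ∑ z ∈ (s.A c.1).erase x, (if z ∈ s.E B then om' B else 0))) else 0) :=
        Finset.sum_le_sum fun c _ => hpt c
    _ = ∑ c : I × Finset I, ∑ B, (if B ∈ c.2 then
        (κ * ((if u ∈ s.E B then om' B else 0) *
            ∑ z ∈ (s.E B ∩ F).erase x, (if z ∈ s.ptsT (c.1, c.2.erase B)
              then w c.1 (c.2.erase B) else 0))) else 0) +
        ∑ c : I × Finset I, ∑ B, (if B ∈ c.2 then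
         κ * ((if u ∈ s.ptsT (c.1, c.2.erase B) then w c.1 (c.2.erase B) else 0) *
            ∑ z ∈ (s.A c.1).erase x, (if z ∈ s.E B then om' B else 0)) else 0) := by
        rw [← Finset.sum_add_distrib]
        refine Finset.sum_congr rfl fun c _ => ?_
        rw [← Finset.sum_add_distrib]
        refine Finset.sum_congr rfl fun B _ => ?_
        split_ifs <;> simp
    _ ≤ κ * (s.K * (s.e * D)) + κ * ((s.n * s.K) * D) := add_le_add htot1 htot2
    _ = (s.β⁻¹ * s.b ^ (2 * (s.m * s.q)) * ((s.e : ℝ) + s.n) * s.K) * D := by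
        rw [hκ]; ring
    _ ≤ s.η * D := mul_le_mul_of_nonneg_right s.hPB hD0

end Sys

end Pool.Agent.Helper32.Lat
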