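import Mathlib
import Pool.Agent.Helper32.Lat.PB

set_option autoImplicit false
set_option linter.unusedSectionVars false
set_option linter.unusedVariables false
set_option linter.unusedSimpArgs false

namespace Pool.Agent.Helper32.Lat

open Finset

namespace Sys

variable {V I : Type} [DecidableEq V] [DecidableEq I] [Fintype I] (s : Sys V I)

/-- index type of the pair family -/
abbrev J1 := (↥s.S × ↥s.S) × (Fin s.Q → I)
/-- index type of the relation family -/
abbrev J2 (_ : Sys V I) := I × (Fin 3 → I)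

def pw {k : ℕ} (t : Fin k → I) : Prop := ∀ i j, i ≠ j → (s.A (t i) ∩ s.A (t j)).card ≤ s.q

def cond1 (p : s.J1) : Prop :=
  (p.1.1 : V) ≠ p.1.2 ∧ (∀ i, (p.1.1 : V) ∈ s.A (p.2 i) ∧ (p.1.2 : V) ∈ s.E (p.2 i)) ∧ s.pw p.2

def cond2 (p : s.J2) : Prop :=
  (∀ i, s.q < (s.A p.1 ∩ s.E (p.2 i)).card) ∧ s.pw p.2

abbrev J := s.J1 ⊕ s.J2

def U (j : s.J) : Finset V :=
  Sum.elim (fun p : s.J1 => univ.biUnion fun i => s.A (p.2 i))
    (fun p : s.J2 => univ.biUnion fun i => s.A (p.2 i)) j

open Classical in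
noncomputable def co (j : s.J) : ℝ :=
  Sum.elim (fun p : s.J1 => if s.cond1 p then s.l2 else 0)
    (fun p : s.J2 => if s.cond2 p then s.l3 else 0) j

theorem co_nonneg (j : s.J) : 0 ≤ s.co j := by
  have h2 := s.hl2
  have h3 := s.hl3
  rcases j with p | p
  · simp only [co, Sum.elim_inl]; split_ifs; exacts [h2.le, le_rfl]
  · simp only [co, Sum.elim_inr]; split_ifs; exacts [h3.le, le_rfl]

/-- static weights of the big game -/
noncomputable abbrev wJ (M Y : Finset V) : s.J → ℝ := wS s.f s.U s.co M Y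

theorem wJ_nonneg (M Y : Finset V) (j : s.J) : 0 ≤ s.wJ M Y j :=
  wS_nonneg s.f_pos s.co_nonneg M Y j

theorem related_card (C : I) :
    (univ.filter fun B => s.q < (s.A B ∩ s.A C).card).card ≤ s.r := by
  refine (Finset.card_le_card ?_).trans (s.hfar1 C)
  intro B hB
  simp only [Finset.mem_filter, Finset.mem_univ, true_and] at hB ⊢
  exact lt_of_lt_of_le hB
    (Finset.card_le_card (Finset.inter_subset_inter_left (s.A_sub_E C)))

theorem binv_le_one : s.b⁻¹ ≤ 1 := inv_le_one_of_one_le₀ s.b_gt1.le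
theorem binv_pos : 0 < s.b⁻¹ := inv_pos.mpr s.b_pos
theorem finv_le_one : s.f⁻¹ ≤ 1 := inv_le_one_of_one_le₀ s.hf1.le
theorem finv_pos : 0 < s.f⁻¹ := inv_pos.mpr s.f_pos
theorem binv_le_finv : s.b⁻¹ ≤ s.f⁻¹ := inv_anti₀ s.f_pos s.hfb

open Classical in
theorem Ksum_le (M Y : Finset V) (hT : Tot (s.wJ M Y) ≤ 1) (x z : V) (hx : x ∈ s.S)
    (hz : z ∈ s.S) (hxz : x ≠ z) : s.Ksum M Y x z ≤ s.K := by
  by_contra hcon
  push Not at hcon
  set pK : I → Prop := fun B => x ∈ s.A B ∧ z ∈ s.E B ∧ Disjoint (s.A B) Y ∧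
    s.r0 < (s.A B \ M).card with hpK
  set ω : I → ℝ := fun B => if pK B then s.om M B else 0 with hω
  have hω0 : ∀ B, 0 ≤ ω B := fun B => by
    simp only [hω]; split_ifs; exacts [s.om_nonneg M B, le_rfl]
  have hωle : ∀ B, ω B ≤ s.b⁻¹ ^ s.r0 := fun B => by
    simp only [hω]
    split_ifs with h
    · unfold om
      exact pow_le_pow_of_le_one s.binv_pos.le s.binv_le_one h.2.2.2.le
    · exact pow_nonneg s.binv_pos.le _
  have hκ : s.Ksum M Y x z = ∑ B, ω B := rfl
  set κ := ∑ B, ω B with hκd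
  rw [hκ] at hcon
  set ρ : ℝ := (s.r : ℝ) * s.b⁻¹ ^ s.r0 with hρ
  have hρ0 : 0 ≤ ρ := mul_nonneg (Nat.cast_nonneg _) (pow_nonneg s.binv_pos.le _)
  have hrel : ∀ C, ∑ B, (if s.q < (s.A B ∩ s.A C).card then ω B else 0) ≤ ρ := by
    intro C
    rw [← Finset.sum_filter]
    refine (Finset.sum_le_card_nsmul _ _ _ (fun B _ => hωle B)).trans ?_
    rw [nsmul_eq_mul]
    apply mul_le_mul_of_nonneg_right _ (pow_nonneg s.binv_pos.le _)
    exact_mod_cast s.related_card C
  have hKr : (s.Q : ℝ) * ρ ≤ s.K / 2 := by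
    have := s.hKr
    linarith
  have hpos : s.K / 2 ≤ κ - s.Q * ρ := by linarith
  have hK0 := s.hK
  -- induction
  have hind : ∀ k : ℕ, k ≤ s.Q → (κ - s.Q * ρ) ^ k ≤
      ∑ t : Fin k → I, (if s.pw t then ∏ i, ω (t i) else 0) := by
    intro k
    induction k with
    | zero =>
      intro _
      have : ∑ t : Fin 0 → I, (if s.pw t then ∏ i, ω (t i) else 0) = 1 := by
        rw [Fintype.sum_unique]
        have : s.pw (default : Fin 0 → I) := fun i => i.elim0
        rw [if_pos this]; simp
      rw [this, pow_zero]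
    | succ k ih =>
      intro hk
      have ih' := ih (by omega)
      rw [← (Fin.consEquiv (fun _ : Fin (k + 1) => I)).sum_comp, Fintype.sum_prod_type,
        Finset.sum_comm]
      have hstep : ∀ t : Fin k → I, (if s.pw t then ∏ i, ω (t i) else 0) * (κ - s.Q * ρ) ≤
          ∑ B : I, (if s.pw (Fin.consEquiv (fun _ : Fin (k + 1) => I) (B, t)) then
            ∏ i, ω (Fin.consEquiv (fun _ : Fin (k + 1) => I) (B, t) i) else 0) := by
        intro t
        by_cases hpw : s.pw t
        swap
        · rw [if_neg hpw, zero_mul]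
          refine Finset.sum_nonneg fun B _ => ?_
          split_ifs
          · exact Finset.prod_nonneg fun i _ => hω0 _
          · exact le_rfl
        rw [if_pos hpw]
        have hP0 : 0 ≤ ∏ i, ω (t i) := Finset.prod_nonneg fun i _ => hω0 _
        have h1 : κ - s.Q * ρ ≤ ∑ B, (if ∀ i, (s.A B ∩ s.A (t i)).card ≤ s.q then ω B else 0) := by
          have h2 : κ ≤ ∑ B, (if ∀ i, (s.A B ∩ s.A (t i)).card ≤ s.q then ω B else 0) +
              ∑ i : Fin k, ∑ B, (if s.q < (s.A B ∩ s.A (t i)).card then ω B else 0) := by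
            rw [Finset.sum_comm, ← Finset.sum_add_distrib]
            refine Finset.sum_le_sum fun B _ => ?_
            by_cases hB : ∀ i, (s.A B ∩ s.A (t i)).card ≤ s.q
            · rw [if_pos hB]
              have : 0 ≤ ∑ i : Fin k, (if s.q < (s.A B ∩ s.A (t i)).card then ω B else 0) := by
                refine Finset.sum_nonneg fun i _ => ?_
                split_ifs; exacts [hω0 B, le_rfl]
              linarith
            · rw [if_neg hB, zero_add]
              push Not at hB
              obtain ⟨i, hi⟩ := hB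
              refine le_trans (le_of_eq ?_)
                (Finset.single_le_sum (fun i _ => ?_) (Finset.mem_univ i))
              · rw [if_pos hi]
              · split_ifs; exacts [hω0 B, le_rfl]
          have h3 : ∑ i : Fin k, ∑ B, (if s.q < (s.A B ∩ s.A (t i)).card then ω B else 0) ≤
              s.Q * ρ := by
            refine (Finset.sum_le_sum fun i _ => hrel (t i)).trans ?_
            rw [Finset.sum_const, Finset.card_univ, Fintype.card_fin, nsmul_eq_mul]
            apply mul_le_mul_of_nonneg_right _ hρ0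
            exact_mod_cast (by omega : k ≤ s.Q)
          linarith
        calc (∏ i, ω (t i)) * (κ - s.Q * ρ)
            ≤ (∏ i, ω (t i)) * ∑ B, (if ∀ i, (s.A B ∩ s.A (t i)).card ≤ s.q then ω B else 0) :=
              mul_le_mul_of_nonneg_left h1 hP0
          _ = ∑ B, (∏ i, ω (t i)) * (if ∀ i, (s.A B ∩ s.A (t i)).card ≤ s.q then ω B else 0) := by
              rw [Finset.mul_sum]
          _ ≤ _ := by
              refine Finset.sum_le_sum fun B _ => ?_
              by_cases hB : ∀ i, (s.A B ∩ s.A (t i)).card ≤ s.q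
              · have hpw' : s.pw (Fin.consEquiv (fun _ : Fin (k + 1) => I) (B, t)) := by
                  intro i j hij
                  simp only [Fin.consEquiv_apply]
                  rcases Fin.eq_zero_or_eq_succ i with rfl | ⟨i', rfl⟩ <;>
                    rcases Fin.eq_zero_or_eq_succ j with rfl | ⟨j', rfl⟩
                  · exact absurd rfl hij
                  · simpa using hB j'
                  · rw [Finset.inter_comm]; simpa using hB i'
                  · simpa using hpw i' j' (fun e => hij (by rw [e]))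
                rw [if_pos hB, if_pos hpw', Fin.prod_univ_succ]
                simp only [Fin.consEquiv_apply, Fin.cons_zero, Fin.cons_succ]
                rw [mul_comm]
              · rw [if_neg hB, mul_zero]
                split_ifs
                · exact Finset.prod_nonneg fun i _ => hω0 _
                · exact le_rfl
      calc (κ - s.Q * ρ) ^ (k + 1) = (κ - s.Q * ρ) ^ k * (κ - s.Q * ρ) := pow_succ _ _
        _ ≤ (∑ t : Fin k → I, (if s.pw t then ∏ i, ω (t i) else 0)) * (κ - s.Q * ρ) :=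
            mul_le_mul_of_nonneg_right ih' (by linarith)
        _ = ∑ t : Fin k → I, (if s.pw t then ∏ i, ω (t i) else 0) * (κ - s.Q * ρ) := by
            rw [Finset.sum_mul]
        _ ≤ _ := Finset.sum_le_sum fun t _ => hstep t
  have hQ := hind s.Q le_rfl
  have hQ2 : (s.K / 2) ^ s.Q ≤ (κ - s.Q * ρ) ^ s.Q :=
    pow_le_pow_left₀ (by linarith) hpos _
  have hfin : s.l2 * ∑ t : Fin s.Q → I, (if s.pw t then ∏ i, ω (t i) else 0) ≤ Tot (s.wJ M Y) := by
    have h1 : ∀ t : Fin s.Q → I, s.l2 * (if s.pw t then ∏ i, ω (t i) else 0) ≤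
        s.wJ M Y (Sum.inl ((⟨x, hx⟩, ⟨z, hz⟩), t)) := by
      intro t
      by_cases hpw : s.pw t
      swap
      · rw [if_neg hpw, mul_zero]; exact s.wJ_nonneg _ _ _
      rw [if_pos hpw]
      by_cases hall : ∀ i, pK (t i)
      · have hd : Disjoint (s.U (Sum.inl ((⟨x, hx⟩, ⟨z, hz⟩), t))) Y := by
          simp only [U, Sum.elim_inl]
          rw [Finset.disjoint_biUnion_left]
          intro i _
          exact (hall i).2.2.1
        have hc : s.cond1 ((⟨x, hx⟩, ⟨z, hz⟩), t) :=
          ⟨hxz, fun i => ⟨(hall i).1, (hall i).2.1⟩, hpw⟩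
        unfold wJ wS
        rw [if_pos hd]
        have hco : s.co (Sum.inl ((⟨x, hx⟩, ⟨z, hz⟩), t)) = s.l2 := by
          simp only [co, Sum.elim_inl]; rw [if_pos hc]
        rw [hco]
        apply mul_le_mul_of_nonneg_left _ s.hl2.le
        have h2 : ∏ i, ω (t i) = s.b⁻¹ ^ (∑ i, (s.A (t i) \ M).card) := by
          rw [← Finset.prod_pow_eq_pow_sum]
          refine Finset.prod_congr rfl fun i _ => ?_
          simp only [hω]; rw [if_pos (hall i)]; rfl
        rw [h2]
        have h3 : (s.U (Sum.inl ((⟨x, hx⟩, ⟨z, hz⟩), t)) \ M).card ≤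
            ∑ i, (s.A (t i) \ M).card := by
          have : s.U (Sum.inl ((⟨x, hx⟩, ⟨z, hz⟩), t)) \ M ⊆
              univ.biUnion (fun i => s.A (t i) \ M) := by
            intro a ha
            simp only [U, Sum.elim_inl, Finset.mem_sdiff, Finset.mem_biUnion, Finset.mem_univ,
              true_and] at ha ⊢
            obtain ⟨⟨i, hi⟩, hM⟩ := ha
            exact ⟨i, hi, hM⟩
          exact (Finset.card_le_card this).trans Finset.card_biUnion_le
        calc s.b⁻¹ ^ (∑ i, (s.A (t i) \ M).card) ≤ s.f⁻¹ ^ (∑ i, (s.A (t i) \ M).card) :=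
              pow_le_pow_left₀ s.binv_pos.le s.binv_le_finv _
          _ ≤ _ := pow_le_pow_of_le_one s.finv_pos.le s.finv_le_one h3
      · push Not at hall
        obtain ⟨i, hi⟩ := hall
        have : ∏ i, ω (t i) = 0 := by
          apply Finset.prod_eq_zero (Finset.mem_univ i)
          simp only [hω]; rw [if_neg hi]
        rw [this, mul_zero]; exact s.wJ_nonneg _ _ _
    rw [Finset.mul_sum]
    refine (Finset.sum_le_sum fun t _ => h1 t).trans ?_
    unfold Tot
    rw [Fintype.sum_sum_type, Fintype.sum_prod_type]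
    have h4 : ∑ t : Fin s.Q → I, s.wJ M Y (Sum.inl ((⟨x, hx⟩, ⟨z, hz⟩), t)) ≤
        ∑ p : ↥s.S × ↥s.S, ∑ t : Fin s.Q → I, s.wJ M Y (Sum.inl (p, t)) :=
      Finset.single_le_sum (f := fun p : ↥s.S × ↥s.S => ∑ t : Fin s.Q → I,
        s.wJ M Y (Sum.inl (p, t)))
        (fun p _ => Finset.sum_nonneg fun t _ => s.wJ_nonneg _ _ _)
        (Finset.mem_univ ((⟨x, hx⟩, ⟨z, hz⟩) : ↥s.S × ↥s.S))
    have h5 : 0 ≤ ∑ p : s.J2, s.wJ M Y (Sum.inr p) := Finset.sum_nonneg fun p _ => s.wJ_nonneg _ _ _
    linarith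
  have h6 := s.hC2
  have h7 : s.l2 * (s.K / 2) ^ s.Q ≤ Tot (s.wJ M Y) := by
    refine le_trans ?_ hfin
    exact mul_le_mul_of_nonneg_left (hQ2.trans hQ) s.hl2.le
  linarith

end Sys

end Pool.Agent.Helper32.Lat
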