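import Mathlib
import Pool.Agent.Helper32.Lat.KB

set_option autoImplicit false
set_option linter.unusedSectionVars false
set_option linter.unusedVariables false
set_option linter.unusedSimpArgs false

namespace Pool.Agent.Helper32.Lat

open Finset

namespace Sys

variable {V I : Type} [DecidableEq V] [DecidableEq I] [Fintype I] (s : Sys V I)

theorem union_lower {k : ℕ} (t : Fin k → I) (ht : s.pw t) (T : Finset (Fin k)) :
    T.card * s.n ≤ (T.biUnion fun i => s.A (t i)).card + T.card ^ 2 * s.q := by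
  induction T using Finset.induction_on with
  | empty => simp
  | insert i T hi ih =>
    rw [Finset.card_insert_of_notMem hi, Finset.biUnion_insert]
    have h1 := Finset.card_union_add_card_inter (s.A (t i)) (T.biUnion fun i => s.A (t i))
    have h2 : (s.A (t i) ∩ T.biUnion fun i => s.A (t i)).card ≤ T.card * s.q := by
      rw [Finset.inter_biUnion]
      apply Finset.card_biUnion_le_card_mul
      intro j hj
      exact ht i j (fun e => hi (e ▸ hj))
    have h3 := s.hn (t i)
    nlinarith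

theorem union_lower' {k : ℕ} (t : Fin k → I) (ht : s.pw t) :
    k * s.n - k ^ 2 * s.q ≤ (univ.biUnion fun i => s.A (t i)).card := by
  have := s.union_lower t ht univ
  rw [Finset.card_univ, Fintype.card_fin] at this
  omega

open Classical in
theorem wT_init (L : I → Finset V) (hL : ∀ B, L B ⊆ s.E B) : Tot (s.wT ∅ ∅ L) ≤ 1 / 9 := by
  have hβ := s.hβ
  have hl1 := s.hl1
  set ω : ℝ := s.b⁻¹ ^ (s.n - s.m * s.q) with hω
  have hω0 : 0 ≤ ω := pow_nonneg s.binv_pos.le _
  have hone : ∀ a : I, ∑ T : Finset I, s.wT ∅ ∅ L (a, T) ≤ s.l1 * s.β ^ s.m * ((s.m : ℝ) + 1) := by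
    intro a
    set Na : Finset I := univ.filter fun B => (s.A a ∩ L B).Nonempty with hNa
    have hNa_card : (Na.card : ℝ) ≤ (s.n : ℝ) * s.d1 := by
      have h1 : Na ⊆ (s.A a).biUnion (fun z => univ.filter fun B => z ∈ s.E B) := by
        intro B hB
        simp only [hNa, Finset.mem_filter, Finset.mem_univ, true_and] at hB
        obtain ⟨z, hz⟩ := hB
        rw [Finset.mem_inter] at hz
        simp only [Finset.mem_biUnion, Finset.mem_filter, Finset.mem_univ, true_and]
        exact ⟨z, hz.1, hL B hz.2⟩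
      have h2 : Na.card ≤ s.n * s.d1 := by
        refine (Finset.card_le_card h1).trans ?_
        refine (Finset.card_biUnion_le_card_mul _ _ s.d1 (fun z _ => s.hd1 z)).trans ?_
        rw [s.hn]
      exact_mod_cast h2
    have hpt : ∀ T : Finset I, s.wT ∅ ∅ L (a, T) ≤ ∑ j ∈ range (s.m + 1),
        (if T ∈ powersetCard j Na then s.l1 * s.β ^ (s.m - j) * ω ^ j else 0) := by
      intro T
      have hnn : ∀ j ∈ range (s.m + 1), 0 ≤
        (if T ∈ powersetCard j Na then s.l1 * s.β ^ (s.m - j) * ω ^ j else 0) := by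
        intro j _; split_ifs
        · positivity
        · exact le_rfl
      by_cases hv : s.valid ∅ L (a, T)
      swap
      · unfold wT; rw [if_neg hv]; exact Finset.sum_nonneg hnn
      have hv' := hv
      obtain ⟨h1, h2, h3, h4⟩ := hv
      simp only at h1 h2 h3 h4
      refine le_trans ?_ (Finset.single_le_sum hnn (Finset.mem_range.mpr (Nat.lt_succ_of_le h2)))
      have hmem : T ∈ powersetCard T.card Na := by
        rw [Finset.mem_powersetCard]
        refine ⟨fun B hB => ?_, rfl⟩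
        simp only [hNa, Finset.mem_filter, Finset.mem_univ, true_and]
        exact (h3 B hB).2
      rw [if_pos hmem]
      unfold wT
      rw [if_pos hv']
      simp only
      apply mul_le_mul_of_nonneg_left _ (by positivity)
      rw [← Finset.prod_const]
      apply Finset.prod_le_prod
      · intro B _; exact (s.gf_pos _).le
      · intro B hB
        have h5 := s.card_A_sdiff_le ∅ B hB h2 h4
        rw [Finset.sdiff_empty, s.hn] at h5
        have h6 : s.n - s.m * s.q ≤ (s.pr T B \ ∅).card := by omega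
        refine (s.gf_anti h6).trans (le_of_eq ?_)
        rw [s.gf_big (by have := s.hr0n; omega)]
    calc ∑ T : Finset I, s.wT ∅ ∅ L (a, T)
        ≤ ∑ T : Finset I, ∑ j ∈ range (s.m + 1),
          (if T ∈ powersetCard j Na then s.l1 * s.β ^ (s.m - j) * ω ^ j else 0) :=
          Finset.sum_le_sum fun T _ => hpt T
      _ = ∑ j ∈ range (s.m + 1), ∑ T : Finset I,
          (if T ∈ powersetCard j Na then s.l1 * s.β ^ (s.m - j) * ω ^ j else 0) :=
          Finset.sum_comm
      _ ≤ ∑ j ∈ range (s.m + 1), s.l1 * s.β ^ s.m := by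
          refine Finset.sum_le_sum fun j hj => ?_
          have hjm : j ≤ s.m := Nat.lt_succ_iff.mp (Finset.mem_range.mp hj)
          rw [Finset.sum_ite_mem, Finset.univ_inter, Finset.sum_const, Finset.card_powersetCard,
            nsmul_eq_mul]
          have h7 : ((Na.card.choose j : ℕ) : ℝ) ≤ ((s.n : ℝ) * s.d1) ^ j := by
            calc ((Na.card.choose j : ℕ) : ℝ) ≤ ((Na.card ^ j : ℕ) : ℝ) := by
                  exact_mod_cast Nat.choose_le_pow _ _
              _ = (Na.card : ℝ) ^ j := by push_cast; ring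
              _ ≤ _ := pow_le_pow_left₀ (Nat.cast_nonneg _) hNa_card _
          have h8 : ((s.n : ℝ) * s.d1) ^ j * ω ^ j ≤ s.β ^ j := by
            rw [← mul_pow]
            exact pow_le_pow_left₀ (by positivity) s.hβ1 _
          calc ((Na.card.choose j : ℕ) : ℝ) * (s.l1 * s.β ^ (s.m - j) * ω ^ j)
              ≤ ((s.n : ℝ) * s.d1) ^ j * (s.l1 * s.β ^ (s.m - j) * ω ^ j) :=
                mul_le_mul_of_nonneg_right h7 (by positivity)
            _ = s.l1 * s.β ^ (s.m - j) * (((s.n : ℝ) * s.d1) ^ j * ω ^ j) := by ring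
            _ ≤ s.l1 * s.β ^ (s.m - j) * s.β ^ j :=
                mul_le_mul_of_nonneg_left h8 (by positivity)
            _ = s.l1 * s.β ^ s.m := by
                rw [mul_assoc, ← pow_add, Nat.sub_add_cancel hjm]
      _ = s.l1 * s.β ^ s.m * ((s.m : ℝ) + 1) := by
          rw [Finset.sum_const, Finset.card_range, nsmul_eq_mul]; push_cast; ring
  unfold Tot
  rw [Fintype.sum_prod_type]
  calc ∑ a, ∑ T, s.wT ∅ ∅ L (a, T) ≤ ∑ a : I, s.l1 * s.β ^ s.m * ((s.m : ℝ) + 1) :=
        Finset.sum_le_sum fun a _ => hone a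
    _ = s.l1 * s.β ^ s.m * ((s.m : ℝ) + 1) * (Fintype.card I : ℝ) := by
        rw [Finset.sum_const, Finset.card_univ, nsmul_eq_mul]; ring
    _ ≤ s.l1 * s.β ^ s.m * ((s.m : ℝ) + 1) * (s.cI : ℝ) := by
        apply mul_le_mul_of_nonneg_left _ (by positivity)
        exact_mod_cast s.hcI
    _ ≤ 1 / 9 := s.hT1

open Classical in
theorem wJ_init : Tot (s.wJ ∅ ∅) ≤ 2 / 9 := by
  unfold Tot
  rw [Fintype.sum_sum_type]
  have hl2 := s.hl2
  have hl3 := s.hl3
  have hfi := s.finv_pos
  have h1 : ∑ p : s.J1, s.wJ ∅ ∅ (Sum.inl p) ≤ 1 / 9 := by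
    rw [Fintype.sum_prod_type]
    have hone : ∀ p : ↥s.S × ↥s.S, ∑ t : Fin s.Q → I, s.wJ ∅ ∅ (Sum.inl (p, t)) ≤
        s.l2 * (s.d2 : ℝ) ^ s.Q * s.f⁻¹ ^ (s.Q * s.n - s.Q ^ 2 * s.q) := by
      intro p
      set Tp : Finset I := univ.filter fun B => (p.1 : V) ∈ s.A B ∧ (p.2 : V) ∈ s.E B with hTp
      by_cases hp : (p.1 : V) = p.2
      · have : ∀ t : Fin s.Q → I, s.wJ ∅ ∅ (Sum.inl (p, t)) = 0 := by
          intro t
          unfold wJ wS
          have hco : s.co (Sum.inl (p, t)) = 0 := by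
            simp only [co, Sum.elim_inl]; rw [if_neg]; rintro ⟨h, -⟩; exact h hp
          rw [hco]; simp
        simp only [this, Finset.sum_const_zero]
        positivity
      have hTc : Tp.card ≤ s.d2 := s.hd2 _ _ hp
      have hpt : ∀ t : Fin s.Q → I, s.wJ ∅ ∅ (Sum.inl (p, t)) ≤
          (if t ∈ Fintype.piFinset (fun _ : Fin s.Q => Tp) then
            s.l2 * s.f⁻¹ ^ (s.Q * s.n - s.Q ^ 2 * s.q) else 0) := by
        intro t
        by_cases hc : s.cond1 (p, t)
        · have hmem : t ∈ Fintype.piFinset (fun _ : Fin s.Q => Tp) := by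
            rw [Fintype.mem_piFinset]
            intro i
            simp only [hTp, Finset.mem_filter, Finset.mem_univ, true_and]
            exact hc.2.1 i
          rw [if_pos hmem]
          unfold wJ wS
          rw [if_pos (Finset.disjoint_empty_right _)]
          have hco : s.co (Sum.inl (p, t)) = s.l2 := by
            simp only [co, Sum.elim_inl]; rw [if_pos hc]
          rw [hco]
          apply mul_le_mul_of_nonneg_left _ hl2.le
          apply pow_le_pow_of_le_one hfi.le s.finv_le_one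
          rw [Finset.sdiff_empty]
          exact s.union_lower' t hc.2.2
        · have : s.wJ ∅ ∅ (Sum.inl (p, t)) = 0 := by
            unfold wJ wS
            have hco : s.co (Sum.inl (p, t)) = 0 := by
              simp only [co, Sum.elim_inl]; rw [if_neg hc]
            rw [hco]; simp
          rw [this]
          split_ifs
          · positivity
          · exact le_rfl
      refine (Finset.sum_le_sum fun t _ => hpt t).trans ?_
      rw [Finset.sum_ite_mem, Finset.univ_inter, Finset.sum_const, Fintype.card_piFinset_const,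
        nsmul_eq_mul]
      have : ((Tp.card ^ s.Q : ℕ) : ℝ) ≤ (s.d2 : ℝ) ^ s.Q := by
        exact_mod_cast Nat.pow_le_pow_left hTc _
      calc ((Tp.card ^ s.Q : ℕ) : ℝ) * (s.l2 * s.f⁻¹ ^ (s.Q * s.n - s.Q ^ 2 * s.q))
          ≤ (s.d2 : ℝ) ^ s.Q * (s.l2 * s.f⁻¹ ^ (s.Q * s.n - s.Q ^ 2 * s.q)) :=
            mul_le_mul_of_nonneg_right this (by positivity)
        _ = _ := by ring
    calc ∑ p : ↥s.S × ↥s.S, ∑ t : Fin s.Q → I, s.wJ ∅ ∅ (Sum.inl (p, t))
        ≤ ∑ p : ↥s.S × ↥s.S, s.l2 * (s.d2 : ℝ) ^ s.Q * s.f⁻¹ ^ (s.Q * s.n - s.Q ^ 2 * s.q) :=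
          Finset.sum_le_sum fun p _ => hone p
      _ = (s.S.card : ℝ) ^ 2 * (s.l2 * (s.d2 : ℝ) ^ s.Q *
            s.f⁻¹ ^ (s.Q * s.n - s.Q ^ 2 * s.q)) := by
          rw [Finset.sum_const, Finset.card_univ, Fintype.card_prod, Fintype.card_coe,
            nsmul_eq_mul]; push_cast; ring
      _ ≤ (s.cS : ℝ) ^ 2 * (s.l2 * (s.d2 : ℝ) ^ s.Q *
            s.f⁻¹ ^ (s.Q * s.n - s.Q ^ 2 * s.q)) := by
          apply mul_le_mul_of_nonneg_right _ (by positivity)
          apply pow_le_pow_left₀ (Nat.cast_nonneg _)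
          exact_mod_cast s.hcS
      _ = s.l2 * (s.cS : ℝ) ^ 2 * (s.d2 : ℝ) ^ s.Q * s.f⁻¹ ^ (s.Q * s.n - s.Q ^ 2 * s.q) := by
          ring
      _ ≤ 1 / 9 := s.hT2
  have h2 : ∑ p : s.J2, s.wJ ∅ ∅ (Sum.inr p) ≤ 1 / 9 := by
    rw [Fintype.sum_prod_type]
    have hone : ∀ a : I, ∑ t : Fin 3 → I, s.wJ ∅ ∅ (Sum.inr (a, t)) ≤
        s.l3 * (s.r : ℝ) ^ 3 * s.f⁻¹ ^ (3 * s.n - 9 * s.q) := by
      intro a
      set Tp : Finset I := univ.filter fun B => s.q < (s.A a ∩ s.E B).card with hTp
      have hTc : Tp.card ≤ s.r := s.hfar2 a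
      have hpt : ∀ t : Fin 3 → I, s.wJ ∅ ∅ (Sum.inr (a, t)) ≤
          (if t ∈ Fintype.piFinset (fun _ : Fin 3 => Tp) then
            s.l3 * s.f⁻¹ ^ (3 * s.n - 9 * s.q) else 0) := by
        intro t
        by_cases hc : s.cond2 (a, t)
        · have hmem : t ∈ Fintype.piFinset (fun _ : Fin 3 => Tp) := by
            rw [Fintype.mem_piFinset]
            intro i
            simp only [hTp, Finset.mem_filter, Finset.mem_univ, true_and]
            exact hc.1 i
          rw [if_pos hmem]
          unfold wJ wS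
          rw [if_pos (Finset.disjoint_empty_right _)]
          have hco : s.co (Sum.inr (a, t)) = s.l3 := by
            simp only [co, Sum.elim_inr]; rw [if_pos hc]
          rw [hco]
          apply mul_le_mul_of_nonneg_left _ hl3.le
          apply pow_le_pow_of_le_one hfi.le s.finv_le_one
          rw [Finset.sdiff_empty]
          exact le_trans (le_of_eq (by norm_num)) (s.union_lower' t hc.2)
        · have : s.wJ ∅ ∅ (Sum.inr (a, t)) = 0 := by
            unfold wJ wS
            have hco : s.co (Sum.inr (a, t)) = 0 := by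
              simp only [co, Sum.elim_inr]; rw [if_neg hc]
            rw [hco]; simp
          rw [this]
          split_ifs
          · positivity
          · exact le_rfl
      refine (Finset.sum_le_sum fun t _ => hpt t).trans ?_
      rw [Finset.sum_ite_mem, Finset.univ_inter, Finset.sum_const, Fintype.card_piFinset_const,
        nsmul_eq_mul]
      have : ((Tp.card ^ 3 : ℕ) : ℝ) ≤ (s.r : ℝ) ^ 3 := by
        exact_mod_cast Nat.pow_le_pow_left hTc _
      calc ((Tp.card ^ 3 : ℕ) : ℝ) * (s.l3 * s.f⁻¹ ^ (3 * s.n - 9 * s.q))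
          ≤ (s.r : ℝ) ^ 3 * (s.l3 * s.f⁻¹ ^ (3 * s.n - 9 * s.q)) :=
            mul_le_mul_of_nonneg_right this (by positivity)
        _ = _ := by ring
    calc ∑ a : I, ∑ t : Fin 3 → I, s.wJ ∅ ∅ (Sum.inr (a, t))
        ≤ ∑ a : I, s.l3 * (s.r : ℝ) ^ 3 * s.f⁻¹ ^ (3 * s.n - 9 * s.q) :=
          Finset.sum_le_sum fun p _ => hone p
      _ = (Fintype.card I : ℝ) * (s.l3 * (s.r : ℝ) ^ 3 * s.f⁻¹ ^ (3 * s.n - 9 * s.q)) := by
          rw [Finset.sum_const, Finset.card_univ, nsmul_eq_mul]
      _ ≤ (s.cI : ℝ) * (s.l3 * (s.r : ℝ) ^ 3 * s.f⁻¹ ^ (3 * s.n - 9 * s.q)) := by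
          apply mul_le_mul_of_nonneg_right _ (by positivity)
          exact_mod_cast s.hcI
      _ = s.l3 * (s.cI : ℝ) * (s.r : ℝ) ^ 3 * s.f⁻¹ ^ (3 * s.n - 9 * s.q) := by ring
      _ ≤ 1 / 9 := s.hT3
  linarith

open Classical in
/-- too many dangerous lattices around a living one are impossible -/
theorem claimT (M Y : Finset V) (L : I → Finset V) (hT : Tot (s.wT M Y L) ≤ 1) (a : I)
    (T : Finset I) (hv : s.valid Y L (a, T)) (hm : T.card = s.m)
    (hd : ∀ B ∈ T, (s.A B \ M).card ≤ 8 * s.h) : False := by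
  have h1 : s.wT M Y L (a, T) ≤ Tot (s.wT M Y L) :=
    Finset.single_le_sum (f := s.wT M Y L) (fun c _ => s.wT_nonneg _ _ _ _) (Finset.mem_univ _)
  have h2 : s.l1 * (s.b⁻¹ ^ s.r0 * s.f ^ (s.r0 - 8 * s.h)) ^ s.m ≤ s.wT M Y L (a, T) := by
    unfold wT
    rw [if_pos hv]
    simp only
    rw [hm, Nat.sub_self, pow_zero, mul_one]
    apply mul_le_mul_of_nonneg_left _ s.hl1.le
    rw [← hm, ← Finset.prod_const]
    apply Finset.prod_le_prod
    · intro B _
      have := s.b_pos; have := s.f_pos; positivity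
    · intro B hB
      have h3 : (s.pr T B \ M).card ≤ 8 * s.h :=
        (Finset.card_le_card (Finset.sdiff_subset_sdiff (s.pr_sub T B)
          (Finset.Subset.refl _))).trans (hd B hB)
      refine le_trans (le_of_eq ?_) (s.gf_anti h3)
      unfold gf
      rw [if_pos s.h8]
  have h3 := s.hC1
  linarith

open Classical in
theorem claimJ (M Y : Finset V) (hT : Tot (s.wJ M Y) ≤ 1) (a : I)
    (t : Fin 3 → I) (hc : s.cond2 (a, t)) (hY : ∀ i, Disjoint (s.A (t i)) Y)
    (hd : ∀ i, (s.A (t i) \ M).card ≤ 8 * s.h) : False := by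
  have h1 : s.wJ M Y (Sum.inr (a, t)) ≤ Tot (s.wJ M Y) :=
    Finset.single_le_sum (f := s.wJ M Y) (fun c _ => s.wJ_nonneg _ _ _) (Finset.mem_univ _)
  have h2 : s.l3 * s.f⁻¹ ^ (24 * s.h) ≤ s.wJ M Y (Sum.inr (a, t)) := by
    unfold wJ wS
    have hdis : Disjoint (s.U (Sum.inr (a, t))) Y := by
      simp only [U, Sum.elim_inr]
      rw [Finset.disjoint_biUnion_left]
      intro i _; exact hY i
    rw [if_pos hdis]
    have hco : s.co (Sum.inr (a, t)) = s.l3 := by
      simp only [co, Sum.elim_inr]; rw [if_pos hc]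
    rw [hco]
    apply mul_le_mul_of_nonneg_left _ s.hl3.le
    apply pow_le_pow_of_le_one s.finv_pos.le s.finv_le_one
    have h3 : s.U (Sum.inr (a, t)) \ M ⊆ univ.biUnion (fun i => s.A (t i) \ M) := by
      intro x hx
      simp only [U, Sum.elim_inr, Finset.mem_sdiff, Finset.mem_biUnion, Finset.mem_univ,
        true_and] at hx ⊢
      obtain ⟨⟨i, hi⟩, hM⟩ := hx
      exact ⟨i, hi, hM⟩
    refine (Finset.card_le_card h3).trans ?_
    refine (Finset.card_biUnion_le_card_mul _ _ (8 * s.h) (fun i _ => hd i)).trans ?_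
    rw [Finset.card_univ, Fintype.card_fin]
    omega
  have h3 := s.hC3
  linarith

end Sys

end Pool.Agent.Helper32.Lat
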