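import Mathlib
import Pool.Agent.Helper32.Lat.Init

set_option autoImplicit false
set_option linter.unusedSectionVars false
set_option linter.unusedVariables false
set_option linter.unusedSimpArgs false

namespace Pool.Agent.Helper32.Lat

open Finset

namespace Sys

variable {V I : Type} [DecidableEq V] [DecidableEq I] [Fintype I] (s : Sys V I)

/-- weights of the big game -/
noncomputable def wB (M Y : Finset V) (L : I → Finset V) : (I × Finset I) ⊕ s.J → ℝ :=
  Sum.elim (s.wT M Y L) (s.wJ M Y)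

/-- points of the configurations of the big game -/
def ptsB : (I × Finset I) ⊕ s.J → Finset V := Sum.elim s.ptsT s.U

theorem wB_nonneg (M Y : Finset V) (L : I → Finset V) (c) : 0 ≤ s.wB M Y L c := by
  rcases c with c | c
  · exact s.wT_nonneg _ _ _ _
  · exact s.wJ_nonneg _ _ _

theorem Tot_wB (M Y : Finset V) (L : I → Finset V) :
    Tot (s.wB M Y L) = Tot (s.wT M Y L) + Tot (s.wJ M Y) := by
  unfold Tot wB
  rw [Fintype.sum_sum_type]
  rfl

theorem Val_wB (M Y : Finset V) (L : I → Finset V) (u : V) :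
    Val s.ptsB (s.wB M Y L) u = Val s.ptsT (s.wT M Y L) u + Val s.U (s.wJ M Y) u := by
  unfold Val wB ptsB
  rw [Fintype.sum_sum_type]
  rfl

theorem wB_mono {L L' : I → Finset V} (M Y : Finset V) (hL : ∀ B, L' B ⊆ L B) (c) :
    s.wB M Y L' c ≤ s.wB M Y L c := by
  rcases c with c | c
  · exact s.wT_mono M (Finset.Subset.refl _) hL c
  · exact le_rfl

theorem wB_kill (M Y R : Finset V) (L : I → Finset V) (c) :
    s.wB M (Y ∪ R) L c ≤ kill s.ptsB (s.wB M Y L) R c := by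
  rcases c with c | c
  · exact s.wT_kill M Y R L c
  · exact (wS_kill s.f_pos s.co_nonneg M Y R c).le

/-- the invariant of the big game after Breaker's reply -/
def bigOK (M Y F : Finset V) (L : I → Finset V) (c : ℝ) : Prop :=
  ∃ D, 0 ≤ D ∧ (∀ u ∈ F, Val s.ptsB (s.wB M Y L) u ≤ D) ∧ Tot (s.wB M Y L) + c * D ≤ 1

open Classical in
theorem bigMove (M Y F Δ : Finset V) (L L' : I → Finset V) (hbig : s.bigOK M Y F L 2)
    (hΔF : Δ ⊆ F) (hΔ : Δ.card ≤ 2) (hFS : F ⊆ s.S) (hFM : Disjoint F M)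
    (hLL : ∀ B, L' B ⊆ L B)
    (hL' : ∀ B, (∃ x ∈ s.A B, x ∈ F) → L' B ⊆ s.E B ∩ F ∧ Disjoint (L' B) Δ) :
    s.bigOK (M ∪ Δ) Y (F \ Δ) L' (2 - (Δ.card : ℝ)) := by
  obtain ⟨D, hD0, hD, hT⟩ := hbig
  have hw0le : ∀ c, s.wB M Y L' c ≤ s.wB M Y L c := s.wB_mono M Y hLL
  have hD' : ∀ u ∈ F, Val s.ptsB (s.wB M Y L') u ≤ D := fun u hu =>
    (Val_mono hw0le u).trans (hD u hu)
  have hT' : Tot (s.wB M Y L') + 2 * D ≤ 1 := by
    have := Tot_mono hw0le
    linarith
  have hTJ : Tot (s.wJ M Y) ≤ 1 := by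
    rw [s.Tot_wB] at hT'
    have := Tot_nonneg (s.wT_nonneg M Y L')
    linarith
  have hΔM : Disjoint Δ M := Disjoint.mono_left hΔF hFM
  have hη := s.hη
  obtain ⟨D', hD'0, h1, h2⟩ := moveSet s.ptsB (s.wB M Y L') (s.wB (M ∪ Δ) Y L')
    (s.wB_nonneg M Y L') (s.wB_nonneg _ _ _)
    (fun x c => Sum.elim (fun c => s.tIT M x c) (fun _ => False) c)
    (fun x c => Sum.elim (fun c => s.tIIT M x c) (fun j => x ∈ s.U j) c)
    Δ hΔ (s.b - 1) (s.f - 1) s.η D
    (by
      rintro x (c | c) h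
      · exact s.tIT_pts h
      · exact h.elim)
    (by
      rintro x (c | c) h
      · exact s.tIIT_pts h
      · exact h)
    (by
      rintro x (c | c) h
      · exact s.tIT_excl h
      · exact h.elim)
    (by
      rintro (c | c)
      · refine (s.wT_move M Y L' Δ hΔM c).trans (le_of_eq ?_)
        rfl
      · refine (wS_move s.f_pos s.U s.co M Y Δ hΔM c).le.trans (le_of_eq ?_)
        show s.wJ M Y c * _ = s.wJ M Y c * _
        congr 1
        refine Finset.prod_congr rfl fun x _ => ?_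
        rw [if_neg (show ¬ Sum.elim (fun c => s.tIT M x c) (fun _ => False)
          (Sum.inr c : (I × Finset I) ⊕ s.J) from id), add_zero]
        by_cases hx : x ∈ s.U c
        · rw [if_pos hx, if_pos (show Sum.elim (fun c => s.tIIT M x c) (fun j => x ∈ s.U j)
            (Sum.inr c : (I × Finset I) ⊕ s.J) from hx)]
        · rw [if_neg hx, if_neg (show ¬ Sum.elim (fun c => s.tIIT M x c) (fun j => x ∈ s.U j)
            (Sum.inr c : (I × Finset I) ⊕ s.J) from hx)])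
    F hΔF hD'
    (by
      intro x hx u hu hux
      have hxF := hΔF hx
      have hpb := s.pairBound M Y L' F D x u hux hu
        (fun z hz _ => by
          have := hD' z hz
          rw [s.Val_wB] at this
          have h3 := Val_nonneg (pts := s.U) (s.wJ_nonneg M Y) z
          linarith) hD0
        (fun B hB => by
          have := hL' B ⟨x, hB, hxF⟩
          exact ⟨this.1, fun h => Finset.disjoint_left.mp this.2 h hx⟩)
        (fun z hz hzx => s.Ksum_le M Y hTJ x z (hFS hxF) hz hzx.symm) hFS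
      refine le_trans (le_of_eq ?_) hpb
      rw [Fintype.sum_sum_type]
      simp only [Sum.elim_inr, false_and, if_false, Finset.sum_const_zero, add_zero]
      rfl)
    (by linarith [s.b_gt1]) (by linarith [s.hf1]) hη.le s.hbη s.hfη hD0
  exact ⟨D', hD'0, h1, by linarith⟩

/-- zone weights -/
noncomputable def wZ (P X Y : Finset V) : I → ℝ :=
  wS s.f (fun D => s.A D ∩ P) (fun D => if s.h ≤ (s.A D ∩ P).card then 1 else 0) X Y

def ptsZ (P : Finset V) : I → Finset V := fun D => s.A D ∩ P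

theorem wZ_nonneg (P X Y : Finset V) (D : I) : 0 ≤ s.wZ P X Y D :=
  wS_nonneg s.f_pos (fun D => by split_ifs <;> norm_num) X Y D

def zoneOK (P X Y : Finset V) (c : ℝ) : Prop :=
  ∃ D, 0 ≤ D ∧ (∀ u ∈ P \ (X ∪ Y), Val (s.ptsZ P) (s.wZ P X Y) u ≤ D) ∧
    Tot (s.wZ P X Y) + c * D ≤ 1 / 2

/-- only the trace of Maker's set on the zone matters -/
theorem wZ_inter (P X Y Δ : Finset V) : s.wZ P (X ∪ Δ) Y = s.wZ P (X ∪ (Δ ∩ P)) Y := by
  funext D
  unfold wZ wS
  have : (s.A D ∩ P) \ (X ∪ Δ) = (s.A D ∩ P) \ (X ∪ (Δ ∩ P)) := by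
    ext a; simp only [Finset.mem_sdiff, Finset.mem_inter, Finset.mem_union]; tauto
  rw [this]

open Classical in
theorem zoneMove (P X Y Δ : Finset V) (hz : s.zoneOK P X Y 2) (hΔ : Δ.card ≤ 2)
    (hΔX : Disjoint Δ (X ∪ Y)) : s.zoneOK P (X ∪ Δ) Y (2 - ((Δ ∩ P).card : ℝ)) := by
  obtain ⟨D, hD0, hD, hT⟩ := hz
  have hη := s.hη
  have hcard : (Δ ∩ P).card ≤ 2 := (Finset.card_le_card Finset.inter_subset_left).trans hΔ
  obtain ⟨D', hD'0, h1, h2⟩ := moveSet (s.ptsZ P) (s.wZ P X Y) (s.wZ P (X ∪ (Δ ∩ P)) Y)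
    (s.wZ_nonneg P X Y) (s.wZ_nonneg _ _ _)
    (fun x c => False) (fun x c => x ∈ s.ptsZ P c)
    (Δ ∩ P) hcard (s.b - 1) (s.f - 1) s.η D
    (fun x c h => h.elim) (fun x c h => h) (fun x c h => h.elim)
    (by
      intro c
      refine (wS_move s.f_pos _ _ X Y (Δ ∩ P) ?_ c).le.trans (le_of_eq ?_)
      · exact Disjoint.mono Finset.inter_subset_left Finset.subset_union_left hΔX
      · simp only [if_false, add_zero]; rfl)
    (P \ (X ∪ Y))
    (by
      intro a ha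
      rw [Finset.mem_inter] at ha
      exact Finset.mem_sdiff.mpr ⟨ha.2, Finset.disjoint_left.mp hΔX ha.1⟩)
    hD
    (by
      intro x _ u _ _
      simp only [false_and, if_false, Finset.sum_const_zero]
      positivity)
    (by linarith [s.b_gt1]) (by linarith [s.hf1]) hη.le s.hbη s.hfη hD0
  refine ⟨D', hD'0, ?_, ?_⟩
  · intro u hu
    rw [s.wZ_inter]
    apply h1
    simp only [Finset.mem_sdiff, Finset.mem_union, Finset.mem_inter] at hu ⊢
    tauto
  · rw [s.wZ_inter]; linarith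

theorem zone_card (P : Finset V) (C : I) (hP : P ⊆ s.E C) :
    (univ.filter fun D => s.h ≤ (s.A D ∩ P).card).card ≤ s.r := by
  refine (Finset.card_le_card ?_).trans (s.hfar1 C)
  intro D hD
  simp only [Finset.mem_filter, Finset.mem_univ, true_and] at hD ⊢
  have h1 : (s.A D ∩ P).card ≤ (s.A D ∩ s.E C).card :=
    Finset.card_le_card (Finset.inter_subset_inter_left hP)
  have := s.hqh
  omega

theorem zoneNew (P X Y : Finset V) (C : I) (hP : P ⊆ s.E C) (hPX : Disjoint P X) (c : ℝ)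
    (hc0 : 0 ≤ c) (hc : c ≤ 2) :
    s.zoneOK P X Y c := by
  have hT : Tot (s.wZ P X Y) ≤ (s.r : ℝ) * s.f⁻¹ ^ s.h := by
    have hpt : ∀ D, s.wZ P X Y D ≤ if s.h ≤ (s.A D ∩ P).card then s.f⁻¹ ^ s.h else 0 := by
      intro D
      unfold wZ wS
      by_cases hD : s.h ≤ (s.A D ∩ P).card
      · rw [if_pos hD]
        split_ifs with h1
        · simp only [hD, if_true, one_mul]
          apply pow_le_pow_of_le_one s.finv_pos.le s.finv_le_one
          have : (s.A D ∩ P) \ X = s.A D ∩ P := by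
            rw [Finset.sdiff_eq_self_iff_disjoint]
            exact Disjoint.mono_left Finset.inter_subset_right hPX
          rw [this]; exact hD
        · exact pow_nonneg s.finv_pos.le _
      · simp [hD]
    refine (Finset.sum_le_sum fun D _ => hpt D).trans ?_
    rw [← Finset.sum_filter, Finset.sum_const, nsmul_eq_mul]
    apply mul_le_mul_of_nonneg_right _ (pow_nonneg s.finv_pos.le _)
    exact_mod_cast s.zone_card P C hP
  have hT0 := Tot_nonneg (s.wZ_nonneg P X Y)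
  refine ⟨Tot (s.wZ P X Y), hT0, fun u _ => Val_le_Tot (s.wZ_nonneg P X Y) u, ?_⟩
  have := s.hzone
  nlinarith

/-- state of the strategy -/
structure Core (X Y : Finset V) (Pc : Finset I) (P : I → Finset V) : Prop where
  c1 : ∀ B ∈ Pc, P B ⊆ s.E B
  c2 : ∀ B ∈ Pc, ∀ C ∈ Pc, B ≠ C → Disjoint (P B) (P C)
  c3 : ∀ B ∈ Pc, (s.A B \ (X \ Pc.biUnion P)).card ≤ 8 * s.h ∧
    Disjoint (s.A B) (Y \ Pc.biUnion P) ∧ Disjoint (s.E B) ((s.S \ (X ∪ Y)) \ Pc.biUnion P)
  c4 : ∀ B ∈ Pc, ∀ C ∈ Pc, B ≠ C → (s.A B ∩ s.A C).card ≤ s.q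
  c8 : ∀ B ∈ Pc, s.h ≤ (s.A B ∩ P B).card

/-- links -/
def Lk (F : Finset V) (Pc : Finset I) (P : I → Finset V) (B : I) : Finset V :=
  if B ∈ Pc then P B else s.E B ∩ F

/-- living and not handled -/
def unh (Y : Finset V) (Pc : Finset I) (P : I → Finset V) (C : I) : Prop :=
  Disjoint (s.A C) (Y \ Pc.biUnion P) ∧ ∀ B ∈ Pc, (s.A C ∩ P B).card < s.h

/-- invariant after Breaker's reply -/
structure InvA (X Y : Finset V) (Pc : Finset I) (P : I → Finset V) : Prop extends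
    s.Core X Y Pc P where
  a5 : ∀ B ∈ Pc, s.zoneOK (P B) X Y 2
  a6 : s.bigOK (X \ Pc.biUnion P) (Y \ Pc.biUnion P) ((s.S \ (X ∪ Y)) \ Pc.biUnion P)
    (s.Lk ((s.S \ (X ∪ Y)) \ Pc.biUnion P) Pc P) 2
  a7 : ∀ C, s.unh Y Pc P C → 8 * s.h < (s.A C \ (X \ Pc.biUnion P)).card ∧
    ∀ B ∈ Pc, (s.A C ∩ s.A B).card ≤ s.q

/-- invariant after Maker's move `Δ` (already contained in `X`) -/
structure InvB (X Y Δ : Finset V) (Pc : Finset I) (P : I → Finset V) : Prop extends
    s.Core X Y Pc P where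
  b0 : Δ ⊆ X
  b5 : ∀ B ∈ Pc, s.zoneOK (P B) X Y (2 - ((Δ ∩ P B).card : ℝ))
  b6 : s.bigOK (X \ Pc.biUnion P) (Y \ Pc.biUnion P) ((s.S \ (X ∪ Y)) \ Pc.biUnion P)
    (s.Lk ((s.S \ (X ∪ Y)) \ Pc.biUnion P) Pc P) (2 - ((Δ \ Pc.biUnion P).card : ℝ))
  b7 : ∀ C, s.unh Y Pc P C → 8 * s.h - 1 ≤ (s.A C \ (X \ Pc.biUnion P)).card ∧
    ∀ B ∈ Pc, (s.A C ∩ s.A B).card ≤ s.q

theorem bigOK_Tot {M Y F : Finset V} {L : I → Finset V} {c : ℝ} (h : s.bigOK M Y F L c)
    (hc : 0 ≤ c) : Tot (s.wT M Y L) ≤ 1 ∧ Tot (s.wJ M Y) ≤ 1 := by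
  obtain ⟨D, hD0, -, hT⟩ := h
  rw [s.Tot_wB] at hT
  have h1 := Tot_nonneg (s.wT_nonneg M Y L)
  have h2 := Tot_nonneg (s.wJ_nonneg M Y)
  have h3 : 0 ≤ c * D := mul_nonneg hc hD0
  constructor <;> linarith

theorem card_cast_le_two {W : Finset V} (h : W.card ≤ 2) : (0 : ℝ) ≤ 2 - (W.card : ℝ) := by
  have : (W.card : ℝ) ≤ 2 := by exact_mod_cast h
  linarith

/-- a living unhandled lattice has few small points -/
theorem few_small {X Y Δ : Finset V} {Pc : Finset I} {P : I → Finset V}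
    (h : s.InvB X Y Δ Pc P) (hΔ : Δ.card ≤ 2) (C : I) (hC : s.unh Y Pc P C) :
    (s.A C ∩ Pc.biUnion P).card ≤ 3 * s.h := by
  have hcc : (0 : ℝ) ≤ 2 - ((Δ \ Pc.biUnion P).card : ℝ) :=
    card_cast_le_two ((Finset.card_le_card Finset.sdiff_subset).trans hΔ)
  obtain ⟨hTT, hTJ⟩ := s.bigOK_Tot h.b6 hcc
  set NN : Finset I := Pc.filter fun B => (s.A C ∩ P B).Nonempty with hNN
  have hNNcard : NN.card ≤ s.m := by
    by_contra hcon
    push Not at hcon
    obtain ⟨T, hT, hTm⟩ := Finset.exists_subset_card_eq hcon.le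
    refine s.claimT _ _ _ hTT C T ?_ hTm ?_
    · refine ⟨hC.1, hTm.le, ?_, ?_⟩
      · intro B hB
        have hB' := Finset.mem_filter.mp (hT hB)
        refine ⟨(h.c3 B hB'.1).2.1, ?_⟩
        simp only [Lk, if_pos hB'.1]
        exact hB'.2
      · intro B hB B' hB' hne
        exact h.c4 B (Finset.mem_filter.mp (hT hB)).1 B' (Finset.mem_filter.mp (hT hB')).1 hne
    · intro B hB
      exact (h.c3 B (Finset.mem_filter.mp (hT hB)).1).1
  set NF : Finset I := Pc.filter fun B => s.q < (s.A C ∩ P B).card with hNF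
  have hNFcard : NF.card ≤ 2 := by
    by_contra hcon
    push Not at hcon
    obtain ⟨T, hT, hT3⟩ := Finset.exists_subset_card_eq (s := NF) (n := 3) (by omega)
    obtain ⟨t, ht⟩ : ∃ t : Fin 3 → I, Function.Injective t ∧ ∀ i, t i ∈ T := by
      have e := T.equivFinOfCardEq hT3
      refine ⟨fun i => (e.symm i : I), ?_, fun i => (e.symm i).2⟩
      intro i j hij
      exact e.symm.injective (Subtype.ext hij)
    refine s.claimJ _ _ hTJ C t ?_ ?_ ?_
    · refine ⟨fun i => ?_, fun i j hij => ?_⟩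
      · have hi := Finset.mem_filter.mp (hT (ht.2 i))
        exact lt_of_lt_of_le hi.2
          (Finset.card_le_card (Finset.inter_subset_inter_left (h.c1 _ hi.1)))
      · exact h.c4 _ (Finset.mem_filter.mp (hT (ht.2 i))).1 _
          (Finset.mem_filter.mp (hT (ht.2 j))).1 (fun e => hij (ht.1 e))
    · intro i
      exact (h.c3 _ (Finset.mem_filter.mp (hT (ht.2 i))).1).2.1
    · intro i
      exact (h.c3 _ (Finset.mem_filter.mp (hT (ht.2 i))).1).1
  have hsub : s.A C ∩ Pc.biUnion P ⊆ (NF.biUnion fun B => s.A C ∩ P B) ∪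
      ((NN \ NF).biUnion fun B => s.A C ∩ P B) := by
    intro x hx
    rw [Finset.mem_inter, Finset.mem_biUnion] at hx
    obtain ⟨hxC, B, hB, hxB⟩ := hx
    have hxi : x ∈ s.A C ∩ P B := Finset.mem_inter.mpr ⟨hxC, hxB⟩
    rw [Finset.mem_union, Finset.mem_biUnion, Finset.mem_biUnion]
    by_cases hf : B ∈ NF
    · exact Or.inl ⟨B, hf, hxi⟩
    · exact Or.inr ⟨B, Finset.mem_sdiff.mpr ⟨Finset.mem_filter.mpr ⟨hB, ⟨x, hxi⟩⟩, hf⟩, hxi⟩
  have h1 : (NF.biUnion fun B => s.A C ∩ P B).card ≤ 2 * s.h := by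
    refine (Finset.card_biUnion_le_card_mul _ _ s.h (fun B hB => ?_)).trans
      (Nat.mul_le_mul_right _ hNFcard)
    exact (hC.2 B (Finset.mem_filter.mp hB).1).le
  have h2 : ((NN \ NF).biUnion fun B => s.A C ∩ P B).card ≤ s.m * s.q := by
    refine (Finset.card_biUnion_le_card_mul _ _ s.q (fun B hB => ?_)).trans
      (Nat.mul_le_mul_right _ ((Finset.card_le_card Finset.sdiff_subset).trans hNNcard))
    have hB' := Finset.mem_sdiff.mp hB
    by_contra hcon
    push Not at hcon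
    exact hB'.2 (Finset.mem_filter.mpr ⟨(Finset.mem_filter.mp hB'.1).1, hcon⟩)
  have h3 := Finset.card_le_card hsub
  have h4 := Finset.card_union_le (NF.biUnion fun B => s.A C ∩ P B)
    ((NN \ NF).biUnion fun B => s.A C ∩ P B)
  have h5 := s.hmq
  omega

/-- free points of a living unhandled lattice -/
theorem many_free {X Y Δ : Finset V} {Pc : Finset I} {P : I → Finset V}
    (h : s.InvB X Y Δ Pc P) (hΔ : Δ.card ≤ 2) (C : I) (hC : s.unh Y Pc P C) :
    s.h ≤ (s.A C ∩ ((s.S \ (X ∪ Y)) \ Pc.biUnion P)).card := by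
  have h1 := s.few_small h hΔ C hC
  have h2 := (h.b7 C hC).1
  have h3 : s.A C \ (X \ Pc.biUnion P) ⊆ (s.A C ∩ Pc.biUnion P) ∪
      (s.A C ∩ ((s.S \ (X ∪ Y)) \ Pc.biUnion P)) := by
    intro x hx
    have hxS := s.hA C
    simp only [Finset.mem_sdiff, Finset.mem_union, Finset.mem_inter, not_and, not_not] at hx ⊢
    by_cases hz : x ∈ Pc.biUnion P
    · exact Or.inl ⟨hx.1, hz⟩
    · right
      refine ⟨hx.1, ⟨hxS hx.1, ?_⟩, hz⟩
      rintro (hX | hY)
      · exact hz (hx.2 hX)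
      · exact Finset.disjoint_left.mp hC.1 hx.1 (Finset.mem_sdiff.mpr ⟨hY, hz⟩)
  have h4 := Finset.card_le_card h3
  have h5 := Finset.card_union_le (s.A C ∩ Pc.biUnion P)
    (s.A C ∩ ((s.S \ (X ∪ Y)) \ Pc.biUnion P))
  have h6 := s.hqh
  omega

end Sys

end Pool.Agent.Helper32.Lat
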