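import Mathlib
import Pool.Agent.Helper32.Lat.Sys
import Pool.Agent.Helper32.Lat.Geo

set_option autoImplicit false

namespace Pool.Agent.Helper32.Lat

open Finset

theorem card_univ_filter_le {α : Type} [DecidableEq α] (s : Finset α) (p : α → Prop)
    [DecidablePred p] [DecidablePred fun i : ↥s => p i.1] :
    ((univ : Finset ↥s).filter (fun i => p i.1)).card ≤ (s.filter p).card := by
  refine Finset.card_le_card_of_injOn (fun i => i.1) ?_ ?_
  · intro i hi
    rw [Finset.mem_coe, mem_filter] at hi
    rw [Finset.mem_coe, mem_filter]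
    exact ⟨i.2, hi.2⟩
  · intro i _ j _ h
    exact Subtype.ext h

/-- MODULE W2: the system attached to [N]^2, from Geo.lean and the output of `num` -/
theorem exists_sys (N q : ℕ) (hq : 2 ≤ q) (P : Num) (hn : P.n = q ^ 2) (hq' : P.q = q)
    (hr : P.r = 338 ^ 3 * q ^ 30) (he : P.e = 338 * q ^ 8)
    (hd1 : P.d1 = 338 * q ^ 8 * (2 * N + 1) ^ 4) (hd2 : P.d2 = 676 * q ^ 10 * (2 * N + 1) ^ 2)
    (hcS : P.cS = N ^ 2) (hcI : P.cI = N ^ 2 * (2 * N + 1) ^ 4) :
    ∃ s : Sys (ℤ × ℤ) ↥(Idx N q), s.S = board N ∧ ∀ i, s.A i = lat q i.1 := by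
  refine ⟨{ toNum := P
            S := board N
            A := fun i => lat q i.1
            E := fun i => ext N q i.1
            hcS := ?_
            hcI := ?_
            hA := ?_
            hE := ?_
            hn := ?_
            hAE := ?_
            hfar1 := ?_
            hfar2 := ?_
            he := ?_
            hd1 := ?_
            hd2 := ?_ }, rfl, fun _ => rfl⟩
  · rw [board_card, hcS]
  · rw [Fintype.card_coe, hcI]
    exact Idx_card N q
  · exact fun i => (mem_Idx i.2).2.2.2.2
  · exact fun i => filter_subset _ _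
  · intro i
    rw [lat_card N q _ i.2, hn]
  · intro i j h
    rw [hq'] at h
    exact lat_sub_ext N q hq i.1 j.1 i.2 j.2 h
  · intro j
    rw [hq', hr]
    exact (card_univ_filter_le (Idx N q) (fun t => q < (lat q t ∩ ext N q j.1).card)).trans
      (far1 N q hq j.1 j.2)
  · intro i
    rw [hq', hr]
    exact (card_univ_filter_le (Idx N q) (fun t' => q < (lat q i.1 ∩ ext N q t').card)).trans
      (far2 N q hq i.1 i.2)
  · intro j
    rw [he]
    exact ext_card N q hq j.1 j.2
  · intro z
    rw [hd1]
    exact (card_univ_filter_le (Idx N q) (fun t => z ∈ ext N q t)).trans (deg1 N q hq z)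
  · intro x z hxz
    rw [hd2]
    exact (card_univ_filter_le (Idx N q) (fun t => x ∈ lat q t ∧ z ∈ ext N q t)).trans
      (deg2 N q hq x z hxz)

end Pool.Agent.Helper32.Lat
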